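import Pool.Agent.H941.C.annulus_high

/-! The annulus bound with an arbitrary small failure probability and explicit growth of level and length. -/

open MeasureTheory ProbabilityTheory

namespace H941.annulus_q

theorem q_four {e L : ℝ} (he : 0 < e) (he1 : e ≤ 1) (hL : L = 1 + Real.log (1 / e)) {a : ℝ}
    (ha : 4 * L ≤ a) : Real.exp (-a) ≤ e / 16 := by
  have h1 : Real.exp (-L) = Real.exp (-1) * e := by
    rw [hL, neg_add, Real.exp_add, one_div, Real.log_inv, neg_neg, Real.exp_log he]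
  have h2 : Real.exp (-1) ≤ 1 / 2 := by
    rw [Real.exp_neg, one_div]
    apply inv_anti₀ (by norm_num)
    linarith [Real.add_one_le_exp (1 : ℝ)]
  have h3 : Real.exp (-L) ≤ e / 2 := by
    rw [h1]
    nlinarith
  have h4 : Real.exp (-a) ≤ Real.exp (-(4 * L)) := Real.exp_le_exp.2 (by linarith)
  have h5 : Real.exp (-(4 * L)) = Real.exp (-L) ^ 4 := by
    rw [← Real.exp_nat_mul]
    congr 1
    push_cast
    ring
  have h6 : Real.exp (-L) ^ 4 ≤ (e / 2) ^ 4 := pow_le_pow_left₀ (Real.exp_pos _).le h3 4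
  have h7 : e ^ 4 ≤ e := by
    calc e ^ 4 ≤ e ^ 1 := pow_le_pow_of_le_one he.le he1 (by norm_num)
      _ = e := pow_one e
  have h8 : (e / 2) ^ 4 = e ^ 4 / 16 := by ring
  rw [h5] at h4
  linarith

theorem q_L {e L : ℝ} (he : 0 < e) (he1 : e ≤ 1) (hL : L = 1 + Real.log (1 / e)) :
    1 ≤ L ∧ Real.log (1 / e) ≤ L := by
  have h1 : 0 ≤ Real.log (1 / e) := Real.log_nonneg (by rw [le_div_iff₀ he]; linarith)
  constructor <;> linarith

theorem q1 {c e L K : ℝ} (hc : 0 < c) (he : 0 < e) (he1 : e ≤ 1)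
    (hL : L = 1 + Real.log (1 / e)) (hK : 4 / c ≤ K) (hK1 : 1 ≤ K) :
    2 * Real.exp (-(c * (K * L) ^ 2)) ≤ e / 5 := by
  obtain ⟨hL1, -⟩ := q_L he he1 hL
  have h1 : 4 ≤ c * K := by
    rw [div_le_iff₀ hc] at hK
    linarith
  have h2 : 4 ≤ c * K * K := by nlinarith
  have h3 : 4 * L ≤ c * (K * L) ^ 2 := by
    have h4 : c * (K * L) ^ 2 = (c * K * K) * (L * L) := by ring
    rw [h4]
    nlinarith
  have := q_four he he1 hL h3
  linarith

theorem q4 {C e q r L : ℝ} (hC : 1 ≤ C) (he : 0 < e) (he1 : e ≤ 1)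
    (hL : L = 1 + Real.log (1 / e)) (hq : 1 ≤ q) (hqr : q ≤ r) :
    Real.exp (-((4 * (C * (1 + Real.log r)) * L) ^ 2 / (C * (1 + Real.log q)))) ≤ e / 5 := by
  obtain ⟨hL1, -⟩ := q_L he he1 hL
  have h1 : 0 ≤ Real.log q := Real.log_nonneg hq
  have h2 : Real.log q ≤ Real.log r := Real.log_le_log (by linarith) hqr
  obtain ⟨D, hD⟩ : ∃ D, D = C * (1 + Real.log r) := ⟨_, rfl⟩
  obtain ⟨D', hD'⟩ : ∃ D', D' = C * (1 + Real.log q) := ⟨_, rfl⟩
  have hD'1 : 1 ≤ D' := by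
    rw [hD']
    nlinarith
  have hDD : D' ≤ D := by
    rw [hD, hD']
    exact mul_le_mul_of_nonneg_left (by linarith) (by linarith)
  rw [← hD, ← hD']
  have h3 : 4 * L ≤ (4 * D * L) ^ 2 / D' := by
    rw [le_div_iff₀ (by linarith)]
    have h4 : (4 * D * L) ^ 2 = (4 * L) * (4 * (D * D) * L) := by ring
    rw [h4]
    apply mul_le_mul_of_nonneg_left _ (by linarith)
    have h5 : D' ≤ D * D := by nlinarith
    nlinarith
  have := q_four he he1 hL h3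
  linarith

theorem q5 {C R e q L K W : ℝ} (hC : 1 ≤ C) (he : 0 < e) (he1 : e ≤ 1)
    (hL : L = 1 + Real.log (1 / e)) (hR : R ≤ W / e) (hW : 1 ≤ W) (hq : 0 ≤ q) (hqR : q ≤ 2 * R)
    (hK : 4 * (Real.log C + C * Real.log (2 * W) + C + 4) ≤ K) :
    C * q ^ C * Real.exp (-(K * L / 4)) ≤ e / 5 := by
  obtain ⟨hL1, hL2⟩ := q_L he he1 hL
  have h2 : q ^ C ≤ (2 * W / e) ^ C := by
    apply Real.rpow_le_rpow hq _ (by linarith)
    have : 2 * W / e = 2 * (W / e) := by ring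
    rw [this]
    linarith
  have hWe : 0 < 2 * W / e := by positivity
  have h3 : (2 * W / e) ^ C = Real.exp (Real.log (2 * W / e) * C) := Real.rpow_def_of_pos hWe C
  have h4 : Real.log (2 * W / e) = Real.log (2 * W) + Real.log (1 / e) := by
    rw [← Real.log_mul (by positivity) (by positivity)]
    congr 1
    ring
  have h5 : C = Real.exp (Real.log C) := (Real.exp_log (by linarith)).symm
  have hlC : 0 ≤ Real.log C := Real.log_nonneg hC
  have hlW : 0 ≤ Real.log (2 * W) := Real.log_nonneg (by linarith)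
  have h6 : C * q ^ C * Real.exp (-(K * L / 4)) ≤
      Real.exp (Real.log C) * Real.exp (Real.log (2 * W / e) * C) * Real.exp (-(K * L / 4)) := by
    apply mul_le_mul_of_nonneg_right _ (Real.exp_pos _).le
    rw [← h3, ← h5]
    exact mul_le_mul_of_nonneg_left h2 (by linarith)
  rw [← Real.exp_add, ← Real.exp_add] at h6
  have h7 : 4 * L ≤ -(Real.log C + Real.log (2 * W / e) * C + -(K * L / 4)) := by
    rw [h4]
    have h8 : (Real.log C + C * Real.log (2 * W) + C + 4) * L ≤ K / 4 * L :=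
      mul_le_mul_of_nonneg_right (by linarith) (by linarith)
    have h9 : Real.log C ≤ Real.log C * L := by nlinarith
    have h10 : C * Real.log (2 * W) ≤ C * Real.log (2 * W) * L := by
      have : 0 ≤ C * Real.log (2 * W) := mul_nonneg (by linarith) hlW
      nlinarith
    have h11 : Real.log (1 / e) * C ≤ C * L := by nlinarith
    nlinarith
  have := q_four he he1 hL h7
  rw [neg_neg] at this
  linarith

/-- the bound for one arm, quantitative -/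
theorem q_arm (ε : ℝ) (hε : 0 < ε) (hε1 : ε ≤ 1 / 100) (m : ℕ)
    (hm : (m : ℝ) * ε + 14 * ε ≤ 1 / 2) : ∃ K : ℝ, 1 ≤ K ∧ ∀ η : ℝ, 0 < η → η ≤ 1 →
    ∃ (R : ℕ) (lam1 C2 : ℝ), 1 ≤ R ∧ 1 ≤ C2 ∧ C2 ≤ K / η ∧ lam1 ≤ K * (1 + Real.log (1 / η)) ∧
      ∀ (N w : ℕ), (w : ℝ) ≤ ε * N → ε * N ≤ w + 1 → 64 * R + 100 * (m + 1) ≤ w →
        64 ≤ w / R ∧ 2 * (w / R) ≤ w ∧
        ∀ j ≤ m, ∀ (o : Bool) (t : ℤ × ℤ), armAt (((j * w : ℕ) : ℤ), 0) w o t →
          gf (box N) (box N \ innerBdry N)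
            {x | ¬ armOK o t w (w / R) lam1 (C2 * w) (extf (box N) x)} ≤ ENNReal.ofReal η := by
  obtain ⟨u, hu, hhyp⟩ := hyp_all
  obtain ⟨A, c, hA, hc, hT2⟩ := arm_T2
  obtain ⟨C, hC, hfix⟩ := arm_fixed
  obtain ⟨W, hWd⟩ : ∃ W : ℝ, W = 5 * A + 10 ^ 9 + 1 := ⟨_, rfl⟩
  have hW : 1 ≤ W := by rw [hWd]; linarith
  have hlC : 0 ≤ Real.log C := Real.log_nonneg hC
  have hlW : 0 ≤ Real.log (2 * W) := Real.log_nonneg (by linarith)
  have hlε : 0 ≤ Real.log (4 / ε) := Real.log_nonneg (by rw [le_div_iff₀ hε]; linarith)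
  obtain ⟨K1, hK1d⟩ : ∃ K1 : ℝ, K1 = 4 * (Real.log C + C * Real.log (2 * W) + C + 4) + 4 / c :=
    ⟨_, rfl⟩
  have hcc : 0 < 4 / c := by positivity
  have hCW : 0 ≤ C * Real.log (2 * W) := mul_nonneg (by linarith) hlW
  have hK1a : 4 / c ≤ K1 := by rw [hK1d]; linarith
  have hK1b : 1 ≤ K1 := by rw [hK1d]; linarith
  have hK1c : 4 * (Real.log C + C * Real.log (2 * W) + C + 4) ≤ K1 := by rw [hK1d]; linarith
  obtain ⟨K2, hK2d⟩ : ∃ K2 : ℝ, K2 = 4 * (C * (1 + Real.log (4 / ε))) := ⟨_, rfl⟩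
  have hK2 : 0 ≤ K2 := by
    rw [hK2d]
    have : 0 ≤ C * (1 + Real.log (4 / ε)) := mul_nonneg (by linarith) (by linarith)
    linarith
  obtain ⟨K3, hK3d⟩ : ∃ K3 : ℝ, K3 = 5 * (A * 12 * (u : ℝ) ^ 4) + 1 := ⟨_, rfl⟩
  have hK30 : 0 ≤ A * 12 * (u : ℝ) ^ 4 := by positivity
  have hK3 : 1 ≤ K3 := by
    rw [hK3d]
    linarith
  refine ⟨5 / 4 * K1 + K2 + K3, by linarith, fun e he he1 => ?_⟩
  have he5 : 0 < e / 5 := by positivity
  obtain ⟨L, hL⟩ : ∃ L : ℝ, L = 1 + Real.log (1 / e) := ⟨_, rfl⟩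
  obtain ⟨hL1, hL2⟩ := q_L he he1 hL
  obtain ⟨R, hRd⟩ : ∃ R : ℕ, R = ⌈max (A / (e / 5)) (10 ^ 9)⌉₊ := ⟨_, rfl⟩
  have hR : max (A / (e / 5)) (10 ^ 9) ≤ R := by rw [hRd]; exact Nat.le_ceil _
  have hRW : (R : ℝ) ≤ W / e := by
    have h1 : (R : ℝ) < max (A / (e / 5)) (10 ^ 9) + 1 := by
      rw [hRd]
      exact Nat.ceil_lt_add_one (by positivity)
    have h2 : max (A / (e / 5)) ((10 : ℝ) ^ 9) ≤ A / (e / 5) + 10 ^ 9 := by
      apply max_le
      · linarith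
      · have : 0 ≤ A / (e / 5) := by positivity
        linarith
    have h3 : A / (e / 5) = 5 * A / e := by
      field_simp
    have h4 : W / e = 5 * A / e + (10 ^ 9 + 1) / e := by
      rw [hWd]
      ring
    have h5 : ((10 : ℝ) ^ 9 + 1) ≤ (10 ^ 9 + 1) / e := by
      rw [le_div_iff₀ he]
      nlinarith
    rw [h3] at h2
    rw [h4]
    have h6 : max (A / (e / 5)) ((10 : ℝ) ^ 9) ≤ 5 * A / e + 10 ^ 9 := by
      rw [h3]
      exact h2
    linarith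
  have hR1 : A / (e / 5) ≤ R := (le_max_left _ _).trans hR
  have hR2 : (10 : ℝ) ^ 9 ≤ R := (le_max_right _ _).trans hR
  have hRpos : (0 : ℝ) < R := lt_of_lt_of_le (by norm_num) hR2
  have hRnat : 10 ^ 9 ≤ R := by exact_mod_cast hR2
  obtain ⟨g, hg⟩ : ∃ g : ℝ, g = K1 * L := ⟨_, rfl⟩
  have hg1 : 1 ≤ g := by
    rw [hg]
    nlinarith
  have hgpos : 0 < g := by linarith
  obtain ⟨Y, hY⟩ : ∃ Y : ℝ, Y = K2 * L := ⟨_, rfl⟩
  have hY0 : 0 ≤ Y := by
    rw [hY]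
    exact mul_nonneg hK2 (by linarith)
  obtain ⟨C2, hC2⟩ : ∃ C2 : ℝ, C2 = max 1 (A * 12 * (u : ℝ) ^ 4 / (e / 5)) := ⟨_, rfl⟩
  have hC21 : 1 ≤ C2 := by rw [hC2]; exact le_max_left _ _
  have hC22 : A * 12 * (u : ℝ) ^ 4 / (e / 5) ≤ C2 := by rw [hC2]; exact le_max_right _ _
  have hC2pos : 0 < C2 := by linarith
  have hC23 : C2 ≤ (5 / 4 * K1 + K2 + K3) / e := by
    rw [hC2]
    have h1 : K3 ≤ 5 / 4 * K1 + K2 + K3 := by linarith
    have h2 : K3 / e ≤ (5 / 4 * K1 + K2 + K3) / e := div_le_div_of_nonneg_right h1 he.le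
    refine le_trans ?_ h2
    apply max_le
    · rw [le_div_iff₀ he]
      linarith
    · rw [hK3d, div_le_div_iff₀ he5 he]
      nlinarith
  refine ⟨R, 5 / 4 * g + Y, C2, by omega, hC21, hC23, ?_, ?_⟩
  · rw [hg, hY, ← hL]
    nlinarith
  intro N w hw1 hw2 hw3
  have hRpos' : 0 < R := by omega
  have hd64 : 64 ≤ w / R := by
    rw [Nat.le_div_iff_mul_le hRpos']
    omega
  have hdR : w / R * R ≤ w := Nat.div_mul_le_self w R
  have hdbig : 10 ^ 9 * (w / R) ≤ w := by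
    calc 10 ^ 9 * (w / R) ≤ R * (w / R) := Nat.mul_le_mul_right _ hRnat
      _ = w / R * R := Nat.mul_comm _ _
      _ ≤ w := hdR
  have h2d : 2 * (w / R) ≤ w := by omega
  refine ⟨hd64, h2d, ?_⟩
  intro j hj o t hot
  have hwpos : 0 < w := by omega
  have hwR : (0 : ℝ) < w := by exact_mod_cast hwpos
  have hdpos : (0 : ℝ) < ((w / R : ℕ) : ℝ) := by
    have : 0 < w / R := by omega
    exact_mod_cast this
  -- the first bound
  set p2 : ℝ := 2 * Real.exp (-(c * g ^ 2)) + (A * 12 * (u : ℝ) ^ 4 / C2) ^ 4 +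
    A * (((w / R : ℕ) : ℝ) / w) ^ 2 with hp2
  have hu' : (1 : ℝ) ≤ u := by exact_mod_cast hu
  have hb1 : gf (Dw w) (Dw w) {x | ¬ armOK true (0, 0) w (w / R) g (C2 * w) (extf (Dw w) x)} ≤
      ENNReal.ofReal p2 :=
    hT2 u 12 (1 / 64) g C2 w (w / R) hu' (by norm_num) (by norm_num) (by norm_num) hg1 hC21
      (by omega) hdbig fun w' hw' _ => hhyp w' hw'
  have hp20 : 0 ≤ p2 := by positivity
  -- the geometry
  have hmw : (m : ℝ) * w + 12 * w + 100 ≤ (N : ℝ) / 2 := by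
    have h1 : (m : ℝ) * w ≤ m * (ε * N) := mul_le_mul_of_nonneg_left hw1 (Nat.cast_nonneg _)
    have h2 : ((m : ℝ) * ε + 14 * ε) * N ≤ 1 / 2 * N :=
      mul_le_mul_of_nonneg_right hm (Nat.cast_nonneg _)
    have h3 : (100 : ℝ) ≤ w := by
      have : 100 ≤ w := by omega
      exact_mod_cast this
    nlinarith
  have hmw' : 2 * (m * w) + 24 * w + 200 ≤ N := by
    have : (2 * ((m : ℝ) * w) + 24 * w + 200) ≤ N := by linarith
    exact_mod_cast this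
  have hjw : j * w ≤ m * w := Nat.mul_le_mul_right _ hj
  have hjw0 : 0 ≤ j * w := Nat.zero_le _
  obtain ⟨K, hK⟩ : ∃ K : ℕ, K = j * w := ⟨_, rfl⟩
  obtain ⟨M', hM'⟩ : ∃ M' : ℕ, M' = m * w := ⟨_, rfl⟩
  rw [← hK] at hjw hjw0 hot
  rw [← hM'] at hjw hmw'
  obtain ⟨hball, hsub⟩ := annulus_high.annulus_high_geo hjw hmw' hot
  have hb2 := hfix (box N) (box N \ innerBdry N) Finset.sdiff_subset (2 * N) w (w / R)
    (((K : ℕ) : ℤ), 0) o t (5 / 4 * g + Y) g (C2 * w) p2 hd64 h2d (by omega) hp20 hgpos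
    (by linarith) hot hball hsub hb1
  refine hb2.trans (ENNReal.ofReal_le_ofReal ?_)
  -- the numerical estimates
  have hR1' : (1 : ℝ) ≤ R := by linarith
  have e1 : 2 * Real.exp (-(c * g ^ 2)) ≤ e / 5 := by
    rw [hg]
    exact q1 hc he he1 hL hK1a hK1b
  have e2 : (A * 12 * (u : ℝ) ^ 4 / C2) ^ 4 ≤ e / 5 :=
    annulus_high.annulus_high_n2 (by positivity) hC2pos he5 (by linarith) hC22
  have hdw : ((w / R : ℕ) : ℝ) / w ≤ 1 / R := by
    rw [div_le_div_iff₀ hwR hRpos]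
    have : ((w / R : ℕ) : ℝ) * R ≤ w := by exact_mod_cast hdR
    linarith
  have e3 : A * (((w / R : ℕ) : ℝ) / w) ^ 2 ≤ e / 5 :=
    annulus_high.annulus_high_n3 hA hR1' he5 (by positivity) hdw hR1
  have hNw : ((2 * N : ℕ) : ℝ) / w ≤ 4 / ε := by
    rw [div_le_div_iff₀ hwR hε]
    push_cast
    have : (1 : ℝ) ≤ w := by exact_mod_cast hwpos
    linarith [mul_comm (N : ℝ) ε, mul_assoc (2 : ℝ) N ε]
  have hNw1 : 1 ≤ ((2 * N : ℕ) : ℝ) / w := by
    rw [le_div_iff₀ hwR]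
    have h1 : w ≤ 2 * N := by omega
    have h2 : (w : ℝ) ≤ ((2 * N : ℕ) : ℝ) := by exact_mod_cast h1
    linarith
  have e4 : Real.exp (-((5 / 4 * g + Y - 5 / 4 * g) ^ 2 /
      (C * (1 + Real.log (((2 * N : ℕ) : ℝ) / w))))) ≤ e / 5 := by
    have h0 : 5 / 4 * g + Y - 5 / 4 * g = Y := by ring
    rw [h0, hY, hK2d]
    exact q4 hC he he1 hL hNw1 hNw
  have h1 : (w : ℝ) / ((w / R : ℕ) : ℝ) ≤ 2 * R := by
    rw [div_le_iff₀ hdpos]
    have h2 : w < w / R * R + R := Nat.lt_div_mul_add (a := w) hRpos'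
    have h3 : w ≤ 2 * R * (w / R) := by
      have h4 : R ≤ w / R * R := Nat.le_mul_of_pos_left R (by omega)
      have h5 : 2 * R * (w / R) = w / R * R + w / R * R := by ring
      omega
    exact_mod_cast h3
  have e5 : C * ((w : ℝ) / ((w / R : ℕ) : ℝ)) ^ C * Real.exp (-(g / 4)) ≤ e / 5 := by
    rw [hg]
    exact q5 hC he he1 hL hRW hW (by positivity) h1 hK1c
  rw [hp2]
  linarith

end H941.annulus_q
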