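import Pool.Agent.H941.D.annulus_q
import Pool.Agent.H941.C.full_large

/-! The annulus is crossed at linear cost with probability `1 - δ` at every level `≥ K (1 + log (1/δ))`. -/

open MeasureTheory ProbabilityTheory

namespace H941.annulus_q2

theorem annulus_quant (α β : ℝ) (hα : 0 < α) (hαβ : α < β) (hβ : β < 1) :
    ∃ K : ℝ, 1 ≤ K ∧ ∀ δ : ℝ, 0 < δ → δ ≤ 1 → ∃ N0 : ℕ, ∀ N : ℕ, N0 ≤ N →
      gf (box N) (box N \ innerBdry N) {x | ¬ ∃ (u v : ℤ × ℤ) (p : grid.Walk u v),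
          u ∈ innerBdry ⌊α * (N : ℝ)⌋₊ ∧ v ∈ innerBdry ⌊β * (N : ℝ)⌋₊ ∧
          (∀ z ∈ p.support, z ∈ box ⌊β * (N : ℝ)⌋₊ ∧
            extf (box N) x z ≤ K * (1 + Real.log (1 / δ))) ∧
          (p.support.length : ℝ) ≤ K / δ * N} ≤
        ENNReal.ofReal δ := by
  have hβ0 : 0 < β := hα.trans hαβ
  obtain ⟨ε, hεdef⟩ : ∃ ε : ℝ, ε = min α (1 - β) / 100 := ⟨_, rfl⟩
  have hε : 0 < ε := by
    rw [hεdef]
    have : 0 < min α (1 - β) := lt_min hα (by linarith)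
    positivity
  have hεα : 100 * ε ≤ α := by
    rw [hεdef]
    linarith [min_le_left α (1 - β)]
  have hεβ : 100 * ε ≤ 1 - β := by
    rw [hεdef]
    linarith [min_le_right α (1 - β)]
  have hε1 : ε ≤ 1 / 100 := by linarith
  obtain ⟨m, hmdef⟩ : ∃ m : ℕ, m = ⌈β / (2 * ε)⌉₊ + 1 := ⟨_, rfl⟩
  have hm1 : β / 2 + ε ≤ m * ε := by
    have h1 : β / (2 * ε) ≤ ⌈β / (2 * ε)⌉₊ := Nat.le_ceil _
    rw [hmdef]
    push_cast
    rw [div_le_iff₀ (by positivity)] at h1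
    linarith
  have hm2 : m * ε ≤ β / 2 + 2 * ε := by
    have h1 : (⌈β / (2 * ε)⌉₊ : ℝ) < β / (2 * ε) + 1 := Nat.ceil_lt_add_one (by positivity)
    rw [hmdef]
    push_cast
    have h2 : β / (2 * ε) * ε = β / 2 := by
      field_simp
    nlinarith
  have hmm : (0 : ℝ) ≤ m := Nat.cast_nonneg _
  obtain ⟨K0, hK0, harm0⟩ := annulus_q.q_arm ε hε hε1 m (by linarith)
  obtain ⟨a, ha0⟩ : ∃ a : ℝ, a = 4 * ((m : ℝ) + 1) := ⟨_, rfl⟩
  have ha1' : 1 ≤ a := by rw [ha0]; linarith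
  have hla : 0 ≤ Real.log a := Real.log_nonneg ha1'
  have haa : 0 ≤ a * a * K0 := by positivity
  have hKla : 0 ≤ K0 * Real.log a := by positivity
  refine ⟨K0 * (1 + Real.log a) + a * a * K0, by nlinarith, ?_⟩
  intro δ hδ hδ1
  have hlδ : 0 ≤ Real.log (1 / δ) := Real.log_nonneg (by rw [le_div_iff₀ hδ]; linarith)
  set η : ℝ := δ / a with hη
  have hηpos : 0 < η := by positivity
  have hη1 : η ≤ 1 := by
    rw [hη, div_le_one (by positivity)]
    linarith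
  obtain ⟨R, lam1, C2, hR, hC2, hC2K, hlam1, harm⟩ := harm0 η hηpos hη1
  have hlog : Real.log (1 / η) = Real.log (1 / δ) + Real.log a := by
    rw [hη, one_div_div, ← Real.log_mul (by positivity) (by positivity)]
    congr 1
    ring
  have hlam2 : lam1 ≤ (K0 * (1 + Real.log a) + a * a * K0) * (1 + Real.log (1 / δ)) := by
    rw [hlog] at hlam1
    refine hlam1.trans ?_
    have h1 : K0 * (1 + (Real.log (1 / δ) + Real.log a)) ≤
        K0 * ((1 + Real.log a) * (1 + Real.log (1 / δ))) := by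
      apply mul_le_mul_of_nonneg_left _ (by linarith)
      nlinarith
    have h2 : 0 ≤ a * a * K0 * (1 + Real.log (1 / δ)) := mul_nonneg haa (by linarith)
    nlinarith
  have hC3 : a * C2 ≤ (K0 * (1 + Real.log a) + a * a * K0) / δ := by
    have h1 : a * C2 ≤ a * (K0 / η) := mul_le_mul_of_nonneg_left hC2K (by linarith)
    have h2 : a * (K0 / η) = a * a * K0 / δ := by
      rw [hη]
      field_simp
    rw [h2] at h1
    refine h1.trans (div_le_div_of_nonneg_right ?_ hδ.le)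
    have : 0 ≤ K0 * (1 + Real.log a) := by positivity
    linarith
  obtain ⟨K, hKdef⟩ : ∃ K : ℝ, K = K0 * (1 + Real.log a) + a * a * K0 := ⟨_, rfl⟩
  rw [← hKdef] at hlam2 hC3 ⊢
  obtain ⟨N0, hN0⟩ := exists_nat_ge ((64 * R + 100 * (m + 1) + 1) / ε)
  refine ⟨N0, ?_⟩
  intro N hN
  have hNε : 64 * R + 100 * (m + 1) + 1 ≤ ε * N := by
    rw [div_le_iff₀ hε] at hN0
    have h1 : (N0 : ℝ) ≤ N := by exact_mod_cast hN
    nlinarith
  set w : ℕ := ⌊ε * N⌋₊ with hw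
  have hw1 : (w : ℝ) ≤ ε * N := Nat.floor_le (by positivity)
  have hw2 : ε * N < w + 1 := Nat.lt_floor_add_one _
  have hw3 : 64 * R + 100 * (m + 1) ≤ w := by
    rw [hw]
    apply Nat.le_floor
    push_cast
    linarith
  obtain ⟨hd64, h2d, hbound⟩ := harm N w hw1 hw2.le hw3
  have hmN : (0 : ℝ) ≤ N := Nat.cast_nonneg _
  have hRR : (0 : ℝ) ≤ R := Nat.cast_nonneg _
  set d := w / R with hd
  -- the two boxes
  have ha : (100 * (ε * N) : ℝ) ≤ α * N := by nlinarith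
  have ha1 : 4 * w + 20 ≤ ⌊α * (N : ℝ)⌋₊ := by
    apply Nat.le_floor
    push_cast
    nlinarith
  have hb1 : ⌊β * (N : ℝ)⌋₊ / 2 + 5 ≤ m * w := by
    have h1 : ((⌊β * (N : ℝ)⌋₊ / 2 : ℕ) : ℝ) ≤ (⌊β * (N : ℝ)⌋₊ : ℝ) / 2 := Nat.cast_div_le
    have h2 : (⌊β * (N : ℝ)⌋₊ : ℝ) ≤ β * N := Nat.floor_le (by positivity)
    have h3 : (m : ℝ) * (ε * N - 1) ≤ m * w :=
      mul_le_mul_of_nonneg_left (by linarith) hmm
    have h4 : (β / 2 + ε) * N ≤ (m * ε) * N := mul_le_mul_of_nonneg_right hm1 hmN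
    have h5 : ((⌊β * (N : ℝ)⌋₊ / 2 : ℕ) : ℝ) + 5 ≤ m * w := by nlinarith
    exact_mod_cast h5
  have hab : ⌊α * (N : ℝ)⌋₊ ≤ ⌊β * (N : ℝ)⌋₊ :=
    Nat.floor_mono (mul_le_mul_of_nonneg_right hαβ.le hmN)
  -- the arms
  let oo : Fin 4 → Bool := ![true, true, false, false]
  let tt : ℕ → Fin 4 → ℤ × ℤ := fun j => ![(((j * w : ℕ) : ℤ) - 3 * w, 0 + w),
    (((j * w : ℕ) : ℤ) - 3 * w, 0 - 2 * w), (((j * w : ℕ) : ℤ) + w, 0 - 3 * w),
    (((j * w : ℕ) : ℤ) - 2 * w, 0 - 3 * w)]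
  have hat : ∀ j k, armAt (((j * w : ℕ) : ℤ), 0) w (oo k) (tt j k) := by
    intro j k
    fin_cases k
    · exact Or.inl ⟨rfl, rfl⟩
    · exact Or.inr (Or.inl ⟨rfl, rfl⟩)
    · exact Or.inr (Or.inr (Or.inl ⟨rfl, rfl⟩))
    · exact Or.inr (Or.inr (Or.inr ⟨rfl, rfl⟩))
  set I : Finset (ℕ × Fin 4) := Finset.range (m + 1) ×ˢ Finset.univ with hI
  have hcard : I.card = (m + 1) * 4 := by
    rw [hI, Finset.card_product, Finset.card_range, Finset.card_univ, Fintype.card_fin]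
  have hsubset : {x : EuclideanSpace ℝ (box N : Finset (ℤ × ℤ)) |
      ¬ ∃ (u v : ℤ × ℤ) (p : grid.Walk u v),
          u ∈ innerBdry ⌊α * (N : ℝ)⌋₊ ∧ v ∈ innerBdry ⌊β * (N : ℝ)⌋₊ ∧
          (∀ z ∈ p.support, z ∈ box ⌊β * (N : ℝ)⌋₊ ∧
            extf (box N) x z ≤ K * (1 + Real.log (1 / δ))) ∧
          (p.support.length : ℝ) ≤ K / δ * N} ⊆
      ⋃ p ∈ I, {x | ¬ armOK (oo p.2) (tt p.1 p.2) w d lam1 (C2 * w) (extf (box N) x)} := by
    intro x hx
    by_contra hcon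
    apply hx
    simp only [Set.mem_iUnion, not_exists] at hcon
    have hok : ∀ j ≤ m, ∀ k, armOK (oo k) (tt j k) w d lam1 (C2 * w) (extf (box N) x) := by
      intro j hj k
      by_contra h1
      exact hcon (j, k) (by
        rw [hI, Finset.mem_product, Finset.mem_range]
        exact ⟨Nat.lt_succ_of_le hj, Finset.mem_univ _⟩) h1
    obtain ⟨u, v, p, hu, hv, hp, hlen⟩ := det_annulus ⌊α * (N : ℝ)⌋₊ ⌊β * (N : ℝ)⌋₊ w m d lam1
      (C2 * w) (extf (box N) x) (by omega) hab (by omega) h2d ha1 hb1 (by positivity)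
      (fun j hj => ⟨hok j hj 0, hok j hj 1, hok j hj 2, hok j hj 3⟩)
    refine ⟨u, v, p, hu, hv, fun z hz => ⟨(hp z hz).1, (hp z hz).2.trans hlam2⟩,
      hlen.trans ?_⟩
    have h1 : (w : ℝ) ≤ N := by nlinarith
    have h2 : C2 * (w : ℝ) ≤ C2 * N := mul_le_mul_of_nonneg_left h1 (by linarith)
    have h3 : 4 * ((m : ℝ) + 1) * (C2 * w) ≤ 4 * (m + 1) * (C2 * N) :=
      mul_le_mul_of_nonneg_left h2 (by positivity)
    have h4 : a * C2 * N ≤ K / δ * N := mul_le_mul_of_nonneg_right hC3 hmN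
    rw [ha0] at h4
    nlinarith
  refine (measure_mono hsubset).trans ?_
  refine (measure_biUnion_finset_le I _).trans ?_
  have hle : ∀ p ∈ I, gf (box N) (box N \ innerBdry N)
      {x | ¬ armOK (oo p.2) (tt p.1 p.2) w d lam1 (C2 * w) (extf (box N) x)} ≤
      ENNReal.ofReal η := by
    intro p hp
    rw [hI, Finset.mem_product, Finset.mem_range] at hp
    exact hbound p.1 (by omega) (oo p.2) (tt p.1 p.2) (hat p.1 p.2)
  refine (Finset.sum_le_sum hle).trans ?_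
  rw [Finset.sum_const, hcard, nsmul_eq_mul, ← ENNReal.ofReal_natCast,
    ← ENNReal.ofReal_mul (Nat.cast_nonneg _)]
  apply ENNReal.ofReal_le_ofReal
  rw [hη, ha0]
  push_cast
  rw [mul_div_assoc', div_le_iff₀ (by positivity)]
  linarith

/-- the same for every discrete Gaussian free field -/
theorem dgff_quant (α β : ℝ) (hα : 0 < α) (hαβ : α < β) (hβ : β < 1) :
    ∃ K : ℝ, 1 ≤ K ∧ ∀ δ : ℝ, 0 < δ → δ ≤ 1 → ∃ N0 : ℕ, ∀ N : ℕ, N0 ≤ N →
      ∀ lam : ℝ, K * (1 + Real.log (1 / δ)) ≤ lam →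
      ∀ (Ω : Type*) [MeasurableSpace Ω] (P : Measure Ω) (η : ℤ × ℤ → Ω → ℝ), IsDGFF N η P →
      ENNReal.ofReal (1 - δ) ≤ P {ω | ∃ (u v : ℤ × ℤ) (p : grid.Walk u v),
          u ∈ innerBdry ⌊α * (N : ℝ)⌋₊ ∧ v ∈ innerBdry ⌊β * (N : ℝ)⌋₊ ∧
          (∀ w ∈ p.support, w ∈ box N ∧ η w ω ≤ lam) ∧ (p.support.length : ℝ) ≤ K / δ * N} := by
  classical
  obtain ⟨K, hK, h⟩ := annulus_quant α β hα hαβ hβ
  refine ⟨K, hK, fun δ hδ hδ1 => ?_⟩
  obtain ⟨N0, hN0⟩ := h δ hδ hδ1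
  refine ⟨N0 + 1, fun N hN lam hlam Ω _ P η hη => ?_⟩
  have hP : IsProbabilityMeasure P := hη.gaussian.isProbabilityMeasure
  obtain ⟨M, hM⟩ : ∃ M : ℕ, M = ⌊β * (N : ℝ)⌋₊ := ⟨_, rfl⟩
  obtain ⟨M', hM'⟩ : ∃ M' : ℕ, M' = ⌊α * (N : ℝ)⌋₊ := ⟨_, rfl⟩
  have hβ0 : 0 < β := hα.trans hαβ
  have hMN : M ≤ N := by
    have h1 : (M : ℝ) ≤ β * N := by
      rw [hM]
      exact Nat.floor_le (by positivity)
    have h2 : β * (N : ℝ) ≤ 1 * N := mul_le_mul_of_nonneg_right hβ.le (by positivity)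
    have h3 : (M : ℝ) ≤ N := by linarith
    exact_mod_cast h3
  -- the law
  have hlaw := law_of_cov P (fun v : ↥(box N) => η v) hη.gaussian
    (fun i => hη.mean_zero i i.2)
    (Matrix.of fun i j : ↥(box N) => (1 / 4) * green (box N \ innerBdry N) i j)
    (full_large.fl_psd N) (fun i j => hη.cov i i.2 j j.2)
  obtain ⟨hX, hmap⟩ := hlaw
  set Γ : Matrix ↥(box N) ↥(box N) ℝ :=
    Matrix.of fun i j : ↥(box N) => (1 / 4) * green (box N \ innerBdry N) i j with hΓ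
  let G : Finset (ℤ × ℤ) → Prop := fun T => ∃ (u v : ℤ × ℤ) (p : grid.Walk u v),
    u ∈ innerBdry M' ∧ v ∈ innerBdry M ∧ (∀ w ∈ p.support, w ∈ T) ∧
      (p.support.length : ℝ) ≤ K / δ * N
  let EV : ℝ → Set (EuclideanSpace ℝ ↥(box N)) := fun t =>
    ⋃ T ∈ (box M).powerset.filter G, {x | ∀ w : ↥(box N), (w : ℤ × ℤ) ∈ T → x w ≤ t}
  have hEV : ∀ t, MeasurableSet (EV t) := by
    intro t
    refine Finset.measurableSet_biUnion _ fun T _ => ?_
    have : {x : EuclideanSpace ℝ ↥(box N) | ∀ w : ↥(box N), (w : ℤ × ℤ) ∈ T → x w ≤ t} =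
        ⋂ w : ↥(box N), {x | (w : ℤ × ℤ) ∈ T → x w ≤ t} := by
      ext x
      simp
    rw [this]
    refine MeasurableSet.iInter fun w => ?_
    by_cases hw : (w : ℤ × ℤ) ∈ T
    · simp only [hw, true_imp_iff]
      exact measurableSet_le (by fun_prop) measurable_const
    · simp only [hw, false_imp_iff]
      exact MeasurableSet.univ
  have hmemEV : ∀ (t : ℝ) (x : EuclideanSpace ℝ ↥(box N)), x ∈ EV t ↔
      ∃ T, T ⊆ box M ∧ G T ∧ ∀ w : ↥(box N), (w : ℤ × ℤ) ∈ T → x w ≤ t := by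
    intro t x
    simp only [EV, Set.mem_iUnion, Finset.mem_filter, Finset.mem_powerset, exists_prop,
      Set.mem_ofPred_eq, and_assoc]
  have hA : (1 : ENNReal) ≤ multivariateGaussian 0 Γ (EV (K * (1 + Real.log (1 / δ)))) +
      ENNReal.ofReal δ := by
    have h1 := hN0 N (by omega)
    rw [← hM, ← hM'] at h1
    have h2 : (1 : ENNReal) = multivariateGaussian (0 : EuclideanSpace ℝ ↥(box N)) Γ Set.univ :=
      measure_univ.symm
    rw [h2]
    refine le_trans ?_ (add_le_add_right h1 _)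
    refine le_trans (measure_mono ?_) (measure_union_le _ _)
    intro x _
    by_cases hx : ∃ (u v : ℤ × ℤ) (p : grid.Walk u v), u ∈ innerBdry M' ∧ v ∈ innerBdry M ∧
        (∀ z ∈ p.support, z ∈ box M ∧ extf (box N) x z ≤ K * (1 + Real.log (1 / δ))) ∧
        (p.support.length : ℝ) ≤ K / δ * N
    · left
      obtain ⟨u, v, p, hu, hv, hp, hlen⟩ := hx
      rw [hmemEV]
      refine ⟨p.support.toFinset, ?_, ⟨u, v, p, hu, hv, ?_, hlen⟩, ?_⟩
      · intro w hw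
        rw [List.mem_toFinset] at hw
        exact (hp w hw).1
      · intro w hw
        rw [List.mem_toFinset]
        exact hw
      · intro w hw
        rw [List.mem_toFinset] at hw
        have h3 := (hp w hw).2
        unfold extf at h3
        rw [dif_pos w.2] at h3
        exact h3
    · right
      exact hx
  have hμB : P ((fun ω => (WithLp.toLp 2 (fun i : ↥(box N) => η i ω) :
      EuclideanSpace ℝ ↥(box N))) ⁻¹' EV (K * (1 + Real.log (1 / δ)))) =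
        multivariateGaussian 0 Γ (EV (K * (1 + Real.log (1 / δ)))) := by
    rw [← hmap, Measure.map_apply_of_aemeasurable hX (hEV _)]
  have h1δ : ENNReal.ofReal (1 - δ) ≤
      multivariateGaussian 0 Γ (EV (K * (1 + Real.log (1 / δ)))) := by
    have h3 : (1 : ENNReal) = ENNReal.ofReal (1 - δ) + ENNReal.ofReal δ := by
      rw [← ENNReal.ofReal_add (by linarith) hδ.le]
      norm_num
    rw [h3] at hA
    exact (ENNReal.add_le_add_iff_right ENNReal.ofReal_ne_top).1 hA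
  refine h1δ.trans (hμB.symm.le.trans (measure_mono ?_))
  intro ω hω
  have hω' := (hmemEV _ _).1 hω
  obtain ⟨T, hT, ⟨u, v, p, hu, hv, hp, hlen⟩, hTle⟩ := hω'
  refine ⟨u, v, p, by rw [← hM']; exact hu, by rw [← hM]; exact hv, fun w hw => ?_, hlen⟩
  have hwM : w ∈ box M := hT (hp w hw)
  have hwN : w ∈ box N := full_large.fl_box_mono hMN hwM
  exact ⟨hwN, (hTle ⟨w, hwN⟩ (hp w hw)).trans hlam⟩

end H941.annulus_q2
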