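import Pool.Agent.H941.D.annulus_q

/-! The bound for one arm for the field on a square of comparable size. -/

open MeasureTheory ProbabilityTheory

namespace H941.arm_ball

open annulus_q

/-- one arm for the field on a square of comparable size -/
theorem _root_.H941.arm_ball : ∃ (R : ℕ) (lam1 C2 : ℝ) (w1 : ℕ), 1 ≤ R ∧ 0 < C2 ∧ ∀ w : ℕ, w1 ≤ w →
    64 ≤ w / R ∧ 2 * (w / R) ≤ w ∧ ∀ (S : Finset (ℤ × ℤ)) (o : Bool) (t : ℤ × ℤ),
      ball (xa o t w) ((8 * w : ℕ) : ℤ) ⊆ S →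
        gf S (ball (xa o t w) ((8 * w : ℕ) : ℤ))
          {x | ¬ armOK o t w (w / R) lam1 (C2 * w) (extf S x)} ≤ ENNReal.ofReal (1 / 8) := by
  obtain ⟨u, hu, hhyp⟩ := hyp_all
  obtain ⟨A, c, hA, hc, hT2⟩ := arm_T2
  obtain ⟨C, hC, hfix⟩ := arm_fixed
  obtain ⟨e, heq⟩ : ∃ e : ℝ, e = 1 / 8 := ⟨_, rfl⟩
  have he : 0 < e := by rw [heq]; norm_num
  have he1 : e ≤ 1 := by rw [heq]; norm_num
  obtain ⟨W, hWd⟩ : ∃ W : ℝ, W = 5 * A + 10 ^ 9 + 1 := ⟨_, rfl⟩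
  have hW : 1 ≤ W := by rw [hWd]; linarith
  have hlC : 0 ≤ Real.log C := Real.log_nonneg hC
  have hlW : 0 ≤ Real.log (2 * W) := Real.log_nonneg (by linarith)
  have hl8 : 0 ≤ Real.log (8 : ℝ) := Real.log_nonneg (by norm_num)
  obtain ⟨K1, hK1d⟩ : ∃ K1 : ℝ, K1 = 4 * (Real.log C + C * Real.log (2 * W) + C + 4) + 4 / c :=
    ⟨_, rfl⟩
  have hcc : 0 < 4 / c := by positivity
  have hCW : 0 ≤ C * Real.log (2 * W) := mul_nonneg (by linarith) hlW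
  have hK1a : 4 / c ≤ K1 := by rw [hK1d]; linarith
  have hK1b : 1 ≤ K1 := by rw [hK1d]; linarith
  have hK1c : 4 * (Real.log C + C * Real.log (2 * W) + C + 4) ≤ K1 := by rw [hK1d]; linarith
  obtain ⟨K2, hK2d⟩ : ∃ K2 : ℝ, K2 = 4 * (C * (1 + Real.log 8)) := ⟨_, rfl⟩
  have hK2 : 0 ≤ K2 := by
    rw [hK2d]
    have : 0 ≤ C * (1 + Real.log 8) := mul_nonneg (by linarith) (by linarith)
    linarith
  have he5 : 0 < e / 5 := by positivity
  obtain ⟨L, hL⟩ : ∃ L : ℝ, L = 1 + Real.log (1 / e) := ⟨_, rfl⟩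
  obtain ⟨hL1, hL2⟩ := q_L he he1 hL
  obtain ⟨R, hRd⟩ : ∃ R : ℕ, R = ⌈max (A / (e / 5)) (10 ^ 9)⌉₊ := ⟨_, rfl⟩
  have hR : max (A / (e / 5)) (10 ^ 9) ≤ R := by rw [hRd]; exact Nat.le_ceil _
  have hRW : (R : ℝ) ≤ W / e := by
    have h1 : (R : ℝ) < max (A / (e / 5)) (10 ^ 9) + 1 := by
      rw [hRd]
      exact Nat.ceil_lt_add_one (by positivity)
    have h2 : max (A / (e / 5)) ((10 : ℝ) ^ 9) ≤ A / (e / 5) + 10 ^ 9 := by
      apply max_le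
      · linarith
      · have : 0 ≤ A / (e / 5) := by positivity
        linarith
    have h3 : A / (e / 5) = 5 * A / e := by
      field_simp
    have h4 : W / e = 5 * A / e + (10 ^ 9 + 1) / e := by
      rw [hWd]
      ring
    have h5 : ((10 : ℝ) ^ 9 + 1) ≤ (10 ^ 9 + 1) / e := by
      rw [le_div_iff₀ he]
      nlinarith
    rw [h3] at h2
    rw [h4]
    have h6 : max (A / (e / 5)) ((10 : ℝ) ^ 9) ≤ 5 * A / e + 10 ^ 9 := by
      rw [h3]
      exact h2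
    linarith
  have hR1 : A / (e / 5) ≤ R := (le_max_left _ _).trans hR
  have hR2 : (10 : ℝ) ^ 9 ≤ R := (le_max_right _ _).trans hR
  have hRpos : (0 : ℝ) < R := lt_of_lt_of_le (by norm_num) hR2
  have hRnat : 10 ^ 9 ≤ R := by exact_mod_cast hR2
  obtain ⟨g, hg⟩ : ∃ g : ℝ, g = K1 * L := ⟨_, rfl⟩
  have hg1 : 1 ≤ g := by
    rw [hg]
    nlinarith
  have hgpos : 0 < g := by linarith
  obtain ⟨Y, hY⟩ : ∃ Y : ℝ, Y = K2 * L := ⟨_, rfl⟩
  have hY0 : 0 ≤ Y := by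
    rw [hY]
    exact mul_nonneg hK2 (by linarith)
  obtain ⟨C2, hC2⟩ : ∃ C2 : ℝ, C2 = max 1 (A * 12 * (u : ℝ) ^ 4 / (e / 5)) := ⟨_, rfl⟩
  have hC21 : 1 ≤ C2 := by rw [hC2]; exact le_max_left _ _
  have hC22 : A * 12 * (u : ℝ) ^ 4 / (e / 5) ≤ C2 := by rw [hC2]; exact le_max_right _ _
  have hC2pos : 0 < C2 := by linarith
  refine ⟨R, 5 / 4 * g + Y, C2, 64 * R + 1000, by omega, hC2pos, ?_⟩
  intro w hw3
  have hRpos' : 0 < R := by omega
  have hd64 : 64 ≤ w / R := by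
    rw [Nat.le_div_iff_mul_le hRpos']
    omega
  have hdR : w / R * R ≤ w := Nat.div_mul_le_self w R
  have hdbig : 10 ^ 9 * (w / R) ≤ w := by
    calc 10 ^ 9 * (w / R) ≤ R * (w / R) := Nat.mul_le_mul_right _ hRnat
      _ = w / R * R := Nat.mul_comm _ _
      _ ≤ w := hdR
  have h2d : 2 * (w / R) ≤ w := by omega
  refine ⟨hd64, h2d, ?_⟩
  intro S o t hS
  have hwpos : 0 < w := by omega
  have hwR : (0 : ℝ) < w := by exact_mod_cast hwpos
  have hdpos : (0 : ℝ) < ((w / R : ℕ) : ℝ) := by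
    have : 0 < w / R := by omega
    exact_mod_cast this
  -- the first bound
  set p2 : ℝ := 2 * Real.exp (-(c * g ^ 2)) + (A * 12 * (u : ℝ) ^ 4 / C2) ^ 4 +
    A * (((w / R : ℕ) : ℝ) / w) ^ 2 with hp2
  have hu' : (1 : ℝ) ≤ u := by exact_mod_cast hu
  have hb1 : gf (Dw w) (Dw w) {x | ¬ armOK true (0, 0) w (w / R) g (C2 * w) (extf (Dw w) x)} ≤
      ENNReal.ofReal p2 :=
    hT2 u 12 (1 / 64) g C2 w (w / R) hu' (by norm_num) (by norm_num) (by norm_num) hg1 hC21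
      (by omega) hdbig fun w' hw' _ => hhyp w' hw'
  have hp20 : 0 ≤ p2 := by positivity
  have hot : ∃ c : ℤ × ℤ, armAt c w o t := by
    cases o
    · exact ⟨(t.1 - w, t.2 + 3 * w), Or.inr (Or.inr (Or.inl ⟨rfl, by ext <;> simp⟩))⟩
    · exact ⟨(t.1 + 3 * w, t.2 - w), Or.inl ⟨rfl, by ext <;> simp⟩⟩
  obtain ⟨c0, hc0⟩ := hot
  have hb2 := hfix S (ball (xa o t w) ((8 * w : ℕ) : ℤ)) hS (8 * w) w (w / R)
    c0 o t (5 / 4 * g + Y) g (C2 * w) p2 hd64 h2d (le_refl _) hp20 hgpos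
    (by linarith) hc0 (by push_cast; exact subset_rfl) (by exact subset_rfl) hb1
  refine hb2.trans (ENNReal.ofReal_le_ofReal ?_)
  -- the numerical estimates
  have hR1' : (1 : ℝ) ≤ R := by linarith
  have e1 : 2 * Real.exp (-(c * g ^ 2)) ≤ e / 5 := by
    rw [hg]
    exact q1 hc he he1 hL hK1a hK1b
  have e2 : (A * 12 * (u : ℝ) ^ 4 / C2) ^ 4 ≤ e / 5 :=
    annulus_high.annulus_high_n2 (by positivity) hC2pos he5 (by linarith) hC22
  have hdw : ((w / R : ℕ) : ℝ) / w ≤ 1 / R := by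
    rw [div_le_div_iff₀ hwR hRpos]
    have : ((w / R : ℕ) : ℝ) * R ≤ w := by exact_mod_cast hdR
    linarith
  have e3 : A * (((w / R : ℕ) : ℝ) / w) ^ 2 ≤ e / 5 :=
    annulus_high.annulus_high_n3 hA hR1' he5 (by positivity) hdw hR1
  have hNw : ((8 * w : ℕ) : ℝ) / w = 8 := by
    push_cast
    field_simp
  have e4 : Real.exp (-((5 / 4 * g + Y - 5 / 4 * g) ^ 2 /
      (C * (1 + Real.log (((8 * w : ℕ) : ℝ) / w))))) ≤ e / 5 := by
    have h0 : 5 / 4 * g + Y - 5 / 4 * g = Y := by ring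
    rw [h0, hY, hK2d, hNw]
    exact q4 hC he he1 hL (by norm_num) (le_refl _)
  have h1 : (w : ℝ) / ((w / R : ℕ) : ℝ) ≤ 2 * R := by
    rw [div_le_iff₀ hdpos]
    have h2 : w < w / R * R + R := Nat.lt_div_mul_add (a := w) hRpos'
    have h3 : w ≤ 2 * R * (w / R) := by
      have h4 : R ≤ w / R * R := Nat.le_mul_of_pos_left R (by omega)
      have h5 : 2 * R * (w / R) = w / R * R + w / R * R := by ring
      omega
    exact_mod_cast h3
  have e5 : C * ((w : ℝ) / ((w / R : ℕ) : ℝ)) ^ C * Real.exp (-(g / 4)) ≤ e / 5 := by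
    rw [hg]
    exact q5 hC he he1 hL hRW hW (by positivity) h1 hK1c
  rw [hp2]
  have : e = 1 / 8 := heq
  linarith

end H941.arm_ball
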