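import Pool.Agent.H941.Defs

/-! The chemical distance of the level set (problem MP_acf58e_pr). -/

open MeasureTheory ProbabilityTheory

namespace H941

/-- The chemical distance `D_{N,λ}(∂V_{αN}, ∂V_{βN})` for the values `f` of the field: the least
number of edges of a nearest-neighbour walk from the inner boundary of `V_{⌊αN⌋}` to the inner
boundary of `V_{⌊βN⌋}`, all of whose vertices are in `V_N` and have `f ≤ lam`; it is `⊤` if there
is no such walk. -/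
noncomputable def chemDist (N : ℕ) (α β lam : ℝ) (f : ℤ × ℤ → ℝ) : ℕ∞ :=
  ⨅ (u : ℤ × ℤ) (_ : u ∈ innerBdry ⌊α * (N : ℝ)⌋₊) (v : ℤ × ℤ)
    (_ : v ∈ innerBdry ⌊β * (N : ℝ)⌋₊) (p : grid.Walk u v)
    (_ : ∀ w ∈ p.support, w ∈ box N ∧ f w ≤ lam), (p.length : ℕ∞)

theorem chem_le (N : ℕ) (α β lam : ℝ) (f : ℤ × ℤ → ℝ) (L : ℝ)
    (h : ∃ (u v : ℤ × ℤ) (p : grid.Walk u v),
      u ∈ innerBdry ⌊α * (N : ℝ)⌋₊ ∧ v ∈ innerBdry ⌊β * (N : ℝ)⌋₊ ∧
      (∀ w ∈ p.support, w ∈ box N ∧ f w ≤ lam) ∧ (p.support.length : ℝ) ≤ L) :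
    chemDist N α β lam f ≤ (⌊L⌋₊ : ℕ∞) := by
  obtain ⟨u, v, p, hu, hv, hp, hl⟩ := h
  unfold chemDist
  refine (iInf₂_le u hu).trans ((iInf₂_le v hv).trans ((iInf₂_le p hp).trans ?_))
  have h1 : p.support.length = p.length + 1 := p.length_support
  have h2 : p.length ≤ ⌊L⌋₊ := by
    refine Nat.le_floor ?_
    rw [h1] at hl
    push_cast at hl
    linarith
  exact_mod_cast h2

end H941
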