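import Pool.Agent.H941.D.chem

/-! Passing from a probability to a conditional probability. -/

open MeasureTheory ProbabilityTheory

namespace H941

theorem ratio_ge {Ω : Type*} [MeasurableSpace Ω] (P : Measure Ω) [IsProbabilityMeasure P] (a : ENNReal)
    (A B : Set Ω) (h : a ≤ P A) : a ≤ P A / P B := by
  refine h.trans ?_
  rw [ENNReal.div_eq_inv_mul]
  refine le_mul_of_one_le_left' ?_
  rw [ENNReal.one_le_inv]
  exact prob_le_one

end H941
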