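import Pool.Agent.H941.D.chem2
import Pool.Agent.H941.A3
import Pool.Agent.H941.B.circuit_lemma
import Pool.Agent.H941.B.count_markov
import Pool.Agent.H941.B.green_log_off
import Pool.Agent.H941.C.annulus_high
import Pool.Agent.H941.C.chain
import Pool.Agent.H941.C.density
import Pool.Agent.H941.C.full_large
import Pool.Agent.H941.C.hyp_all
import Pool.Agent.H941.C.markov_split

/-! Parts of the proof of the bound `N^(2-c)` for the chemical distance. -/

open MeasureTheory ProbabilityTheory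

namespace H941.sub_parts

/-! ### shortcut -/

theorem shortcut_map {H : Finset (ℤ × ℤ)} {x y : (H : Set (ℤ × ℤ))}
    (q₀ : (grid.induce (H : Set (ℤ × ℤ))).Walk x y) :
    ∃ q : grid.Walk x.1 y.1, q.length = q₀.length ∧ ∀ z ∈ q.support, z ∈ H := by
  induction q₀ with
  | @nil x =>
    refine ⟨SimpleGraph.Walk.nil, rfl, fun z hz => ?_⟩
    rw [SimpleGraph.Walk.support_nil, List.mem_singleton] at hz
    rw [hz]
    exact x.2
  | @cons x w y h q ih =>
    obtain ⟨q', h1, h2⟩ := ih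
    have h' : grid.Adj x.1 w.1 := h
    refine ⟨SimpleGraph.Walk.cons h' q', by simp [h1], fun z hz => ?_⟩
    rw [SimpleGraph.Walk.support_cons, List.mem_cons] at hz
    rcases hz with rfl | hz
    · exact x.2
    · exact h2 z hz

/- PROOF: let P be the set of vertices of p within distance W of c; if it is empty the claim is trivial. Otherwise p meets H (hsep applied to the part of p from such a vertex back to u). Let i be the first and k the last index with p_i, p_k in H. Every index m with p_m within distance W of c satisfies i <= m <= k, by hsep applied to the (reversed) initial piece p_m..u and to the final piece p_m..v. As H is connected in the induced graph, there is a walk from p_i to p_k inside H with at most H.card vertices (a path in the induced graph). Replacing the piece of p between i and k by it gives a walk from u to v in O of length at most i + (H.card - 1) + (p.length - k), so by hmin k - i <= H.card - 1, and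 the set in question has at most k - i + 1 <= H.card elements. (Useful: SimpleGraph.Walk.take/drop/getVert, support = list of getVert.) -/
theorem shortcut (O A B : Set (ℤ × ℤ)) (W : ℕ) (c u v : ℤ × ℤ) (p : grid.Walk u v) (hu : u ∈ A) (hv : v ∈ B)
    (hO : ∀ z ∈ p.support, z ∈ O)
    (hmin : ∀ (u' v' : ℤ × ℤ) (p' : grid.Walk u' v'), u' ∈ A → v' ∈ B → (∀ z ∈ p'.support, z ∈ O) → p.length ≤ p'.length)
    (hcu : 2 * (W : ℤ) ≤ |u.1 - c.1| ∨ 2 * (W : ℤ) ≤ |u.2 - c.2|)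
    (hcv : 2 * (W : ℤ) ≤ |v.1 - c.1| ∨ 2 * (W : ℤ) ≤ |v.2 - c.2|)
    (H : Finset (ℤ × ℤ)) (hH : (grid.induce (H : Set (ℤ × ℤ))).Connected) (hHO : ∀ z ∈ H, z ∈ O)
    (hsep : ∀ a b : ℤ × ℤ, |a.1 - c.1| ≤ W → |a.2 - c.2| ≤ W →
        (2 * (W : ℤ) ≤ |b.1 - c.1| ∨ 2 * (W : ℤ) ≤ |b.2 - c.2|) →
        ∀ r : grid.Walk a b, ∃ z ∈ r.support, z ∈ H) :
    (p.support.toFinset.filter (fun z => |z.1 - c.1| ≤ (W : ℤ) ∧ |z.2 - c.2| ≤ (W : ℤ))).card ≤ H.card := by
  classical
  by_cases hne : ∃ m ≤ p.length, |(p.getVert m).1 - c.1| ≤ (W : ℤ) ∧ |(p.getVert m).2 - c.2| ≤ (W : ℤ)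
  swap
  · have h0 : p.support.toFinset.filter
        (fun z => |z.1 - c.1| ≤ (W : ℤ) ∧ |z.2 - c.2| ≤ (W : ℤ)) = ∅ := by
      rw [Finset.filter_eq_empty_iff]
      intro z hz hw
      rw [List.mem_toFinset, SimpleGraph.Walk.mem_support_iff_exists_getVert] at hz
      obtain ⟨m, rfl, hm⟩ := hz
      exact hne ⟨m, hm, hw⟩
    rw [h0]
    simp
  -- the indices of the points near `c`
  have hI : ∀ m ≤ p.length, |(p.getVert m).1 - c.1| ≤ (W : ℤ) →
      |(p.getVert m).2 - c.2| ≤ (W : ℤ) → (∃ i ≤ m, p.getVert i ∈ H) ∧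
        ∃ k, m ≤ k ∧ k ≤ p.length ∧ p.getVert k ∈ H := by
    intro m hm h1 h2
    constructor
    · obtain ⟨z, hz1, hz2⟩ := hsep _ _ h1 h2 hcu (p.take m).reverse
      rw [SimpleGraph.Walk.support_reverse, List.mem_reverse,
        SimpleGraph.Walk.mem_support_iff_exists_getVert] at hz1
      obtain ⟨i, rfl, hi⟩ := hz1
      rw [SimpleGraph.Walk.take_getVert] at hz2
      exact ⟨m ⊓ i, inf_le_left, hz2⟩
    · obtain ⟨z, hz1, hz2⟩ := hsep _ _ h1 h2 hcv (p.drop m)
      rw [SimpleGraph.Walk.mem_support_iff_exists_getVert] at hz1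
      obtain ⟨i, rfl, hi⟩ := hz1
      rw [SimpleGraph.Walk.drop_getVert] at hz2
      rw [SimpleGraph.Walk.drop_length] at hi
      exact ⟨m + i, by omega, by omega, hz2⟩
  obtain ⟨m₀, hm₀, hw₀⟩ := hne
  obtain ⟨⟨i₀, hi₀1, hi₀2⟩, k₀, hk₀1, hk₀2, hk₀3⟩ := hI m₀ hm₀ hw₀.1 hw₀.2
  have hP : ∃ i, p.getVert i ∈ H := ⟨_, hi₀2⟩
  -- the first and the last index
  obtain ⟨i, hi1, hi2⟩ : ∃ i, p.getVert i ∈ H ∧ ∀ m, p.getVert m ∈ H → i ≤ m :=
    ⟨Nat.find hP, Nat.find_spec hP, fun m hm => Nat.find_min' hP hm⟩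
  obtain ⟨k, hk1, hk2, hk3⟩ : ∃ k, k ≤ p.length ∧ p.getVert k ∈ H ∧
      ∀ m ≤ p.length, p.getVert m ∈ H → m ≤ k :=
    ⟨Nat.findGreatest (fun m => p.getVert m ∈ H) p.length, Nat.findGreatest_le _,
      Nat.findGreatest_spec (P := fun m => p.getVert m ∈ H) hk₀2 hk₀3,
      fun m hm h => Nat.le_findGreatest hm h⟩
  have hik : i ≤ k := hi2 k hk2
  -- the number of points near `c`
  have hcard : (p.support.toFinset.filter
      (fun z => |z.1 - c.1| ≤ (W : ℤ) ∧ |z.2 - c.2| ≤ (W : ℤ))).card ≤ k + 1 - i := by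
    have hsub : p.support.toFinset.filter
        (fun z => |z.1 - c.1| ≤ (W : ℤ) ∧ |z.2 - c.2| ≤ (W : ℤ)) ⊆
        (Finset.Icc i k).image p.getVert := by
      intro z hz
      rw [Finset.mem_filter, List.mem_toFinset,
        SimpleGraph.Walk.mem_support_iff_exists_getVert] at hz
      obtain ⟨⟨m, rfl, hm⟩, h1, h2⟩ := hz
      obtain ⟨⟨i₁, hi₁1, hi₁2⟩, k₁, hk₁1, hk₁2, hk₁3⟩ := hI m hm h1 h2
      exact Finset.mem_image_of_mem _ (Finset.mem_Icc.2 ⟨(hi2 i₁ hi₁2).trans hi₁1,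
        hk₁1.trans (hk3 k₁ hk₁2 hk₁3)⟩)
    refine (Finset.card_le_card hsub).trans (Finset.card_image_le.trans ?_)
    rw [Nat.card_Icc]
  refine hcard.trans ?_
  -- a walk inside `H`
  obtain ⟨q, hq1, hq2⟩ : ∃ q : grid.Walk (p.getVert i) (p.getVert k),
      q.length + 1 ≤ H.card ∧ ∀ z ∈ q.support, z ∈ H := by
    obtain ⟨q₀, hq₀⟩ := (hH.preconnected ⟨p.getVert i, hi1⟩ ⟨p.getVert k, hk2⟩).exists_isPath
    obtain ⟨q, h2, h3⟩ := shortcut_map q₀
    have h1 := hq₀.length_lt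
    have h4 : Fintype.card ((H : Set (ℤ × ℤ)) : Type) = H.card := by simp
    exact ⟨q, by omega, h3⟩
  -- the shorter walk
  have h1 := hmin u v (((p.take i).append q).append (p.drop k)) hu hv (by
    intro z hz
    rw [SimpleGraph.Walk.mem_support_append_iff, SimpleGraph.Walk.mem_support_append_iff] at hz
    rcases hz with (hz | hz) | hz
    · exact hO z ((p.isSubwalk_take i).support_subset hz)
    · exact hHO z (hq2 z hz)
    · exact hO z ((p.isSubwalk_drop k).support_subset hz))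
  rw [SimpleGraph.Walk.length_append, SimpleGraph.Walk.length_append,
    SimpleGraph.Walk.take_length, SimpleGraph.Walk.drop_length] at h1
  have h2 : i ⊓ p.length ≤ i := inf_le_left
  omega

/-! ### min_path -/

theorem box_mono (M' M : ℕ) (h : M' ≤ M) : box M' ⊆ box M := by
  unfold box
  have h1 : Finset.Icc (-(((M' - 1) / 2 : ℕ) : ℤ)) ((M' / 2 : ℕ) : ℤ) ⊆
      Finset.Icc (-(((M - 1) / 2 : ℕ) : ℤ)) ((M / 2 : ℕ) : ℤ) := by
    refine Finset.Icc_subset_Icc ?_ ?_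
    · have h2 : (M' - 1) / 2 ≤ (M - 1) / 2 := Nat.div_le_div_right (by omega)
      exact neg_le_neg (by exact_mod_cast h2)
    · have h2 : M' / 2 ≤ M / 2 := Nat.div_le_div_right h
      exact_mod_cast h2
  exact Finset.product_subset_product h1 h1

theorem exit_walk (M : ℕ) {a b : ℤ × ℤ} (w : grid.Walk a b) (ha : a ∈ box M) :
    (∀ z ∈ w.support, z ∈ box M) ∨
      ∃ (c : ℤ × ℤ) (w' : grid.Walk a c), c ∈ innerBdry M ∧ w'.length < w.length ∧
        ∀ z ∈ w'.support, z ∈ w.support := by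
  induction w with
  | nil =>
    left
    intro z hz
    rw [SimpleGraph.Walk.support_nil, List.mem_singleton] at hz
    rw [hz]
    exact ha
  | @cons a a' b h w ih =>
    by_cases ha' : a' ∈ box M
    · rcases ih ha' with h1 | ⟨c, w', hc, hl, hs⟩
      · left
        intro z hz
        rw [SimpleGraph.Walk.support_cons, List.mem_cons] at hz
        rcases hz with rfl | hz
        · exact ha
        · exact h1 z hz
      · right
        refine ⟨c, SimpleGraph.Walk.cons h w', hc, ?_, ?_⟩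
        · rw [SimpleGraph.Walk.length_cons, SimpleGraph.Walk.length_cons]
          omega
        · intro z hz
          rw [SimpleGraph.Walk.support_cons, List.mem_cons] at hz ⊢
          rcases hz with rfl | hz
          · exact Or.inl rfl
          · exact Or.inr (hs z hz)
    · right
      refine ⟨a, SimpleGraph.Walk.nil, ?_, ?_, ?_⟩
      · classical
        unfold innerBdry
        refine Finset.mem_filter.2 ⟨ha, a', h, ha'⟩
      · rw [SimpleGraph.Walk.length_cons, SimpleGraph.Walk.length_nil]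
        omega
      · intro z hz
        rw [SimpleGraph.Walk.support_nil, List.mem_singleton] at hz
        rw [hz]
        exact SimpleGraph.Walk.start_mem_support _

/- PROOF: choose the walk p of minimal length (Nat.find or WellFounded.min on lengths) among all walks as in hex. Nodup: otherwise bypass/toPath is shorter (SimpleGraph.Walk.bypass; if length of bypass < length contradiction; if equal p is a path). Support in box M: suppose p leaves box M; u is in box M' which is contained in box M; let z be the last vertex before p leaves box M for the first time, it has a neighbour outside box M, so z is in innerBdry M, and the initial piece of p up to z is a strictly shorter walk from u to innerBdry M, contradicting minimality. box M' is contained in box M as M' <= M. -/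
theorem min_path (N M' M : ℕ) (lam : ℝ) (f : ℤ × ℤ → ℝ) (hM' : 1 ≤ M') (hMM : M' ≤ M) (hMN : M ≤ N)
    (hex : ∃ (u v : ℤ × ℤ) (p : grid.Walk u v), u ∈ innerBdry M' ∧ v ∈ innerBdry M ∧
      ∀ z ∈ p.support, z ∈ box N ∧ f z ≤ lam) :
    ∃ (u v : ℤ × ℤ) (p : grid.Walk u v), u ∈ innerBdry M' ∧ v ∈ innerBdry M ∧
      (∀ z ∈ p.support, z ∈ box N ∧ f z ≤ lam) ∧ (∀ z ∈ p.support, z ∈ box M) ∧ p.support.Nodup ∧
      ∀ (u' v' : ℤ × ℤ) (p' : grid.Walk u' v'), u' ∈ innerBdry M' → v' ∈ innerBdry M →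
        (∀ z ∈ p'.support, z ∈ box N ∧ f z ≤ lam) → p.length ≤ p'.length := by
  classical
  have hQ : ∃ n : ℕ, ∃ (u v : ℤ × ℤ) (p : grid.Walk u v), u ∈ innerBdry M' ∧ v ∈ innerBdry M ∧
      (∀ z ∈ p.support, z ∈ box N ∧ f z ≤ lam) ∧ p.length = n := by
    obtain ⟨u, v, p, hu, hv, hp⟩ := hex
    exact ⟨_, u, v, p, hu, hv, hp, rfl⟩
  obtain ⟨u, v, p, hu, hv, hp, hlen⟩ := Nat.find_spec hQ
  have hmin : ∀ (u' v' : ℤ × ℤ) (p' : grid.Walk u' v'), u' ∈ innerBdry M' → v' ∈ innerBdry M →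
      (∀ z ∈ p'.support, z ∈ box N ∧ f z ≤ lam) → p.bypass.length ≤ p'.length := by
    intro u' v' p' hu' hv' hp'
    refine p.length_bypass_le_length.trans ?_
    rw [hlen]
    exact Nat.find_min' hQ ⟨u', v', p', hu', hv', hp', rfl⟩
  have hb : ∀ z ∈ p.bypass.support, z ∈ box N ∧ f z ≤ lam := fun z hz =>
    hp z (p.support_bypass_subset_support hz)
  have huM : u ∈ box M := by
    unfold innerBdry at hu
    exact box_mono M' M hMM (Finset.mem_filter.1 hu).1
  refine ⟨u, v, p.bypass, hu, hv, hb, ?_, p.bypass_isPath.support_nodup, hmin⟩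
  rcases exit_walk M p.bypass huM with h | ⟨c, w', hc, hl, hs⟩
  · exact h
  · exfalso
    have := hmin u c w' hu hc (fun z hz => hb z (hs z hz))
    omega

/-! ### count_squares -/

/- PROOF: every z in Pt lies in the square of side s with corner c(z) = (s * (z.1 / s), s * (z.2 / s)) (integer floor division); c(z) is in box M2 and |z - c(z)| <= s in both coordinates. Bound Pt.card by the sum over corners c of the number of z in Pt with c(z) = c (Finset.card_eq_sum_card_fiberwise). Corners with Bad c contribute at most s^2 each (the square has s^2 points). Corners c that are not Bad and far from u and from v contribute at most X each. The remaining corners are within 2 Wm of u (both coordinates, strictly) or of v, so the corresponding z are within 3 Wm of u or of v in both coordinates (s <= Wm); there are at most 2 (6 Wm + 1)^2 such points z in total. -/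

/-- the corner of the square of a point -/
def cz (s : ℕ) (z : ℤ × ℤ) : ℤ × ℤ := ((s : ℤ) * (z.1 / s), (s : ℤ) * (z.2 / s))

lemma cz_bd {s : ℕ} (hs : 1 ≤ s) (x : ℤ) : (s : ℤ) * (x / s) ≤ x ∧ x < (s : ℤ) * (x / s) + s := by
  have hs' : (0 : ℤ) < s := by exact_mod_cast hs
  have h1 := Int.mul_ediv_add_emod x s
  have h2 := Int.emod_nonneg x hs'.ne'
  have h3 := Int.emod_lt_of_pos x hs'
  constructor <;> linarith

lemma near_card (Pt : Finset (ℤ × ℤ)) (u : ℤ × ℤ) (W : ℕ) :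
    ((Pt.filter (fun z => |z.1 - u.1| ≤ 3 * (W : ℤ) ∧ |z.2 - u.2| ≤ 3 * (W : ℤ))).card : ℝ) ≤
      (6 * (W : ℝ) + 1) ^ 2 := by
  have h1 : Pt.filter (fun z => |z.1 - u.1| ≤ 3 * (W : ℤ) ∧ |z.2 - u.2| ≤ 3 * (W : ℤ)) ⊆
      Finset.Icc (u.1 - 3 * (W : ℤ)) (u.1 + 3 * (W : ℤ)) ×ˢ
        Finset.Icc (u.2 - 3 * (W : ℤ)) (u.2 + 3 * (W : ℤ)) := by
    intro z hz
    rw [Finset.mem_filter] at hz
    rw [Finset.mem_product, Finset.mem_Icc, Finset.mem_Icc]
    have h2 := abs_le.1 hz.2.1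
    have h3 := abs_le.1 hz.2.2
    refine ⟨⟨?_, ?_⟩, ?_, ?_⟩ <;> linarith
  have h2 := Finset.card_le_card h1
  rw [Finset.card_product, Int.card_Icc, Int.card_Icc] at h2
  have h3 : (u.1 + 3 * (W : ℤ) + 1 - (u.1 - 3 * (W : ℤ))).toNat = 6 * W + 1 := by
    have : u.1 + 3 * (W : ℤ) + 1 - (u.1 - 3 * (W : ℤ)) = ((6 * W + 1 : ℕ) : ℤ) := by
      push_cast
      ring
    rw [this, Int.toNat_natCast]
  have h4 : (u.2 + 3 * (W : ℤ) + 1 - (u.2 - 3 * (W : ℤ))).toNat = 6 * W + 1 := by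
    have : u.2 + 3 * (W : ℤ) + 1 - (u.2 - 3 * (W : ℤ)) = ((6 * W + 1 : ℕ) : ℤ) := by
      push_cast
      ring
    rw [this, Int.toNat_natCast]
  rw [h3, h4] at h2
  have h5 : ((Pt.filter (fun z => |z.1 - u.1| ≤ 3 * (W : ℤ) ∧
      |z.2 - u.2| ≤ 3 * (W : ℤ))).card : ℝ) ≤ (((6 * W + 1) * (6 * W + 1) : ℕ) : ℝ) := by
    exact_mod_cast h2
  refine h5.trans (le_of_eq ?_)
  push_cast
  ring

open Classical in
theorem count_squares (M M2 s Wm : ℕ) (hs : 1 ≤ s) (hsW : s ≤ Wm) (hM : 1 ≤ M) (hM2 : M + 2 * s + 2 ≤ M2)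
    (Pt : Finset (ℤ × ℤ)) (hP : Pt ⊆ box M) (Bad : ℤ × ℤ → Prop) (u v : ℤ × ℤ) (X : ℝ) (hX : 0 ≤ X)
    (h : ∀ c ∈ (box M2).filter (fun c => (s : ℤ) ∣ c.1 ∧ (s : ℤ) ∣ c.2), ¬ Bad c →
      (2 * (Wm : ℤ) ≤ |u.1 - c.1| ∨ 2 * (Wm : ℤ) ≤ |u.2 - c.2|) →
      (2 * (Wm : ℤ) ≤ |v.1 - c.1| ∨ 2 * (Wm : ℤ) ≤ |v.2 - c.2|) →
      ((Pt.filter (fun z => |z.1 - c.1| ≤ (s : ℤ) ∧ |z.2 - c.2| ≤ (s : ℤ))).card : ℝ) ≤ X) :
    (Pt.card : ℝ) ≤ (((box M2).filter (fun c => (s : ℤ) ∣ c.1 ∧ (s : ℤ) ∣ c.2)).card : ℝ) * X +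
      2 * (6 * (Wm : ℝ) + 1) ^ 2 +
      (s : ℝ) ^ 2 * ((((box M2).filter (fun c => (s : ℤ) ∣ c.1 ∧ (s : ℤ) ∣ c.2)).filter Bad).card : ℝ) := by
  have hs' : (0 : ℤ) < s := by exact_mod_cast hs
  have hsW' : (s : ℤ) ≤ Wm := by exact_mod_cast hsW
  set Q := (box M2).filter (fun c => (s : ℤ) ∣ c.1 ∧ (s : ℤ) ∣ c.2) with hQ
  have hcQ : ∀ z ∈ Pt, cz s z ∈ Q := by
    intro z hz
    have h1 := hP hz
    unfold box at h1
    rw [Finset.mem_product, Finset.mem_Icc, Finset.mem_Icc] at h1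
    have h2 := cz_bd hs z.1
    have h3 := cz_bd hs z.2
    rw [hQ, Finset.mem_filter]
    refine ⟨?_, ⟨_, rfl⟩, ⟨_, rfl⟩⟩
    unfold box cz
    rw [Finset.mem_product, Finset.mem_Icc, Finset.mem_Icc]
    have h4 : (((M - 1) / 2 : ℕ) : ℤ) + s ≤ (((M2 - 1) / 2 : ℕ) : ℤ) := by
      exact_mod_cast (by omega : (M - 1) / 2 + s ≤ (M2 - 1) / 2)
    have h5 : ((M / 2 : ℕ) : ℤ) ≤ ((M2 / 2 : ℕ) : ℤ) := by
      exact_mod_cast (by omega : M / 2 ≤ M2 / 2)
    refine ⟨⟨?_, ?_⟩, ?_, ?_⟩ <;> simp only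
    · linarith [h1.1.1]
    · linarith [h1.1.2]
    · linarith [h1.2.1]
    · linarith [h1.2.2]
  set A1 := Pt.filter (fun z => |z.1 - u.1| ≤ 3 * (Wm : ℤ) ∧ |z.2 - u.2| ≤ 3 * (Wm : ℤ)) with hA1
  set A2 := Pt.filter (fun z => |z.1 - v.1| ≤ 3 * (Wm : ℤ) ∧ |z.2 - v.2| ≤ 3 * (Wm : ℤ)) with hA2
  set B := Pt.filter (fun z => Bad (cz s z)) with hB
  set R := Pt.filter (fun z => ¬ Bad (cz s z) ∧ z ∉ A1 ∧ z ∉ A2) with hR
  have hcover : Pt ⊆ ((A1 ∪ A2) ∪ B) ∪ R := by
    intro z hz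
    by_cases h1 : z ∈ A1
    · simp [h1]
    · by_cases h2 : z ∈ A2
      · simp [h2]
      · by_cases h3 : Bad (cz s z)
        · have : z ∈ B := Finset.mem_filter.2 ⟨hz, h3⟩
          simp [this]
        · have : z ∈ R := Finset.mem_filter.2 ⟨hz, h3, h1, h2⟩
          simp [this]
  have hcard : Pt.card ≤ A1.card + A2.card + B.card + R.card := by
    refine (Finset.card_le_card hcover).trans ?_
    refine (Finset.card_union_le _ _).trans ?_
    gcongr
    refine (Finset.card_union_le _ _).trans ?_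
    gcongr
    exact Finset.card_union_le _ _
  have hBc : (B.card : ℝ) ≤ (s : ℝ) ^ 2 * ((Q.filter Bad).card : ℝ) := by
    have h1 : B.card ≤ (Q.filter Bad).card * s ^ 2 := by
      rw [Finset.card_eq_sum_card_fiberwise (f := cz s) (t := Q.filter Bad)
        (fun z hz => by
          have h2 := Finset.mem_filter.1 hz
          exact Finset.mem_filter.2 ⟨hcQ z h2.1, h2.2⟩)]
      rw [← smul_eq_mul, ← Finset.sum_const]
      refine Finset.sum_le_sum fun c _ => ?_
      have h3 : B.filter (fun z => cz s z = c) ⊆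
          Finset.Ico c.1 (c.1 + s) ×ˢ Finset.Ico c.2 (c.2 + s) := by
        intro z hz
        have h4 := (Finset.mem_filter.1 hz).2
        rw [Finset.mem_product, Finset.mem_Ico, Finset.mem_Ico, ← h4]
        exact ⟨cz_bd hs z.1, cz_bd hs z.2⟩
      refine (Finset.card_le_card h3).trans (le_of_eq ?_)
      rw [Finset.card_product, Int.card_Ico, Int.card_Ico]
      simp
      ring
    have h2 : (B.card : ℝ) ≤ (((Q.filter Bad).card * s ^ 2 : ℕ) : ℝ) := by exact_mod_cast h1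
    refine h2.trans (le_of_eq ?_)
    push_cast
    ring
  have hRc : (R.card : ℝ) ≤ (Q.card : ℝ) * X := by
    rw [Finset.card_eq_sum_card_fiberwise (f := cz s) (t := Q)
        (fun z hz => hcQ z (Finset.mem_filter.1 hz).1)]
    push_cast
    rw [← nsmul_eq_mul, ← Finset.sum_const]
    refine Finset.sum_le_sum fun c hc => ?_
    by_cases hne : (R.filter (fun z => cz s z = c)).Nonempty
    · obtain ⟨z, hz⟩ := hne
      have h1 := Finset.mem_filter.1 hz
      have h2 := Finset.mem_filter.1 h1.1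
      obtain ⟨h3, h4, h5, h6⟩ := h2
      have h7 := h1.2
      rw [h7] at h4
      have c1 := cz_bd hs z.1
      have c2 := cz_bd hs z.2
      have e1 : (s : ℤ) * (z.1 / s) = c.1 := by rw [← h7]; rfl
      have e2 : (s : ℤ) * (z.2 / s) = c.2 := by rw [← h7]; rfl
      rw [e1] at c1
      rw [e2] at c2
      have hfar : ∀ w : ℤ × ℤ, ¬ (|z.1 - w.1| ≤ 3 * (Wm : ℤ) ∧ |z.2 - w.2| ≤ 3 * (Wm : ℤ)) →
          (2 * (Wm : ℤ) ≤ |w.1 - c.1| ∨ 2 * (Wm : ℤ) ≤ |w.2 - c.2|) := by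
        intro w hw
        by_contra hcon
        push Not at hcon
        apply hw
        have a1 := abs_lt.1 hcon.1
        have a2 := abs_lt.1 hcon.2
        constructor <;> rw [abs_le] <;> constructor <;> linarith
      have h8 := h c hc h4 (hfar u (fun h9 => h5 (Finset.mem_filter.2 ⟨h3, h9⟩)))
        (hfar v (fun h9 => h6 (Finset.mem_filter.2 ⟨h3, h9⟩)))
      refine le_trans ?_ h8
      have h9 : R.filter (fun z => cz s z = c) ⊆
          Pt.filter (fun z => |z.1 - c.1| ≤ (s : ℤ) ∧ |z.2 - c.2| ≤ (s : ℤ)) := by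
        intro y hy
        have y1 := Finset.mem_filter.1 hy
        have y2 := Finset.mem_filter.1 y1.1
        refine Finset.mem_filter.2 ⟨y2.1, ?_⟩
        have d1 := cz_bd hs y.1
        have d2 := cz_bd hs y.2
        have e1 : (s : ℤ) * (y.1 / s) = c.1 := by rw [← y1.2]; rfl
        have e2 : (s : ℤ) * (y.2 / s) = c.2 := by rw [← y1.2]; rfl
        rw [e1] at d1
        rw [e2] at d2
        constructor <;> rw [abs_le] <;> constructor <;> linarith
      exact_mod_cast Finset.card_le_card h9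
    · rw [Finset.not_nonempty_iff_eq_empty] at hne
      rw [hne]
      simpa using hX
  have hA1c := near_card Pt u Wm
  have hA2c := near_card Pt v Wm
  have hcard' : (Pt.card : ℝ) ≤ A1.card + A2.card + B.card + R.card := by exact_mod_cast hcard
  have hA1c' : (A1.card : ℝ) ≤ (6 * (Wm : ℝ) + 1) ^ 2 := hA1c
  have hA2c' : (A2.card : ℝ) ≤ (6 * (Wm : ℝ) + 1) ^ 2 := hA2c
  linarith

/-! ### grid_card -/

theorem grid_card (M s : ℕ) (hs : 1 ≤ s) :
    (((box M).filter (fun c => (s : ℤ) ∣ c.1 ∧ (s : ℤ) ∣ c.2)).card : ℝ) ≤ ((M : ℝ) / s + 2) ^ 2 := by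
  classical
  set p : ℕ := (M - 1) / 2 with hp
  set q : ℕ := M / 2 with hq
  have hpq : p + q ≤ M := by omega
  set J : Finset ℤ := Finset.Icc (-((p / s : ℕ) : ℤ)) ((q / s : ℕ) : ℤ) with hJ
  have hs0 : (0 : ℤ) < (s : ℤ) := by exact_mod_cast hs
  have key : ∀ z : ℤ, -(p : ℤ) ≤ z → z ≤ (q : ℤ) → (s : ℤ) ∣ z →
      z / (s : ℤ) ∈ J := by
    intro z h1 h2 h3
    obtain ⟨k, rfl⟩ := h3
    rw [Int.mul_ediv_cancel_left _ hs0.ne', hJ, Finset.mem_Icc]
    constructor
    · have : -k ≤ ((p / s : ℕ) : ℤ) := by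
        rw [Int.natCast_div]
        rw [Int.le_ediv_iff_mul_le hs0]
        linarith [mul_comm (s : ℤ) k]
      linarith
    · rw [Int.natCast_div, Int.le_ediv_iff_mul_le hs0]
      linarith [mul_comm (s : ℤ) k]
  have hcard : ((box M).filter (fun c => (s : ℤ) ∣ c.1 ∧ (s : ℤ) ∣ c.2)).card ≤ (J ×ˢ J).card := by
    refine Finset.card_le_card_of_injOn (fun c => (c.1 / (s : ℤ), c.2 / (s : ℤ))) ?_ ?_
    · intro c hc
      have hc' := Finset.mem_filter.1 (Finset.mem_coe.1 hc)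
      have hb := Finset.mem_product.1 (show c ∈ Finset.Icc (-(p : ℤ)) (q : ℤ) ×ˢ
        Finset.Icc (-(p : ℤ)) (q : ℤ) from hc'.1)
      have h1 := Finset.mem_Icc.1 hb.1
      have h2 := Finset.mem_Icc.1 hb.2
      refine Finset.mem_coe.2 (Finset.mem_product.2 ⟨?_, ?_⟩)
      · exact key _ h1.1 h1.2 hc'.2.1
      · exact key _ h2.1 h2.2 hc'.2.2
    · intro c hc d hd h
      have hc' := Finset.mem_filter.1 (Finset.mem_coe.1 hc)
      have hd' := Finset.mem_filter.1 (Finset.mem_coe.1 hd)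
      have e1 : c.1 / (s : ℤ) = d.1 / (s : ℤ) := congrArg Prod.fst h
      have e2 : c.2 / (s : ℤ) = d.2 / (s : ℤ) := congrArg Prod.snd h
      refine Prod.ext ?_ ?_
      · rw [← Int.ediv_mul_cancel hc'.2.1, ← Int.ediv_mul_cancel hd'.2.1, e1]
      · rw [← Int.ediv_mul_cancel hc'.2.2, ← Int.ediv_mul_cancel hd'.2.2, e2]
  have hJc : (J.card : ℝ) ≤ (M : ℝ) / s + 2 := by
    have h0 : ∀ x y : ℕ, (Finset.Icc (-(y : ℤ)) (x : ℤ)).card = x + y + 1 := by
      intro x y
      rw [Int.card_Icc]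
      omega
    have h1 : J.card = q / s + p / s + 1 := h0 _ _
    have h2 : (((q / s : ℕ) : ℝ)) ≤ (q : ℝ) / s := Nat.cast_div_le
    have h3 : (((p / s : ℕ) : ℝ)) ≤ (p : ℝ) / s := Nat.cast_div_le
    have h4 : ((p : ℝ) + q) / s ≤ (M : ℝ) / s := by
      apply div_le_div_of_nonneg_right _ (Nat.cast_nonneg s)
      exact_mod_cast hpq
    rw [h1]
    push_cast
    rw [add_div] at h4
    linarith
  calc (((box M).filter (fun c => (s : ℤ) ∣ c.1 ∧ (s : ℤ) ∣ c.2)).card : ℝ)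
      ≤ ((J ×ˢ J).card : ℝ) := by exact_mod_cast hcard
    _ = (J.card : ℝ) ^ 2 := by rw [Finset.card_product]; push_cast; ring
    _ ≤ ((M : ℝ) / s + 2) ^ 2 := by
        apply pow_le_pow_left₀ (Nat.cast_nonneg _) hJc

/-! ### num_par -/

theorem np_large (s K : ℝ) (hs : 0 < s) : ∃ N0 : ℕ, ∀ N : ℕ, N0 ≤ N → K ≤ (N : ℝ) ^ s := by
  have h := (tendsto_rpow_atTop hs).comp (tendsto_natCast_atTop_atTop (R := ℝ))
  have h2 := (h.eventually_ge_atTop K)
  rw [Filter.eventually_atTop] at h2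
  obtain ⟨N0, hN0⟩ := h2
  exact ⟨N0, fun N hN => hN0 N hN⟩

theorem num_par (n : ℕ) (hn : 1 ≤ n) : ∃ c : ℝ, 0 < c ∧ c ≤ 1 / 2 ∧ ∀ C : ℝ, 0 < C → ∀ δ : ℝ, 0 < δ → ∃ N0 : ℕ, ∀ N : ℕ, N0 ≤ N →
    ∃ r L : ℕ, 64 ≤ r ∧ 128 * ((2 ^ (n * L) * r : ℕ) : ℝ) ≤ δ * N ∧
      ((N : ℝ) / r + 2) ^ 2 * (48 * ((2 ^ (n * L) * r : ℕ) : ℝ)) + 2 * (6 * ((2 ^ (n * L) * r : ℕ) : ℝ) + 1) ^ 2 ≤
        (N : ℝ) ^ (2 - c) / 2 ∧
      (r : ℝ) ^ 2 * (((N : ℝ) / r + 2) ^ 2 * ((3 / 4) ^ L * (C * (1 + Real.log N)))) ≤ δ * ((N : ℝ) ^ (2 - c) / 2) := by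
  have hl2 : 0 < Real.log 2 := Real.log_pos (by norm_num)
  have hl43 : 0 < Real.log (4 / 3) := Real.log_pos (by norm_num)
  have hn0 : (0 : ℝ) < n := by exact_mod_cast hn
  have hn1 : (1 : ℝ) ≤ n := by exact_mod_cast hn
  obtain ⟨κ, hκ⟩ : ∃ κ : ℝ, κ = Real.log (4 / 3) / (4 * n * Real.log 2) := ⟨_, rfl⟩
  have hκ0 : 0 < κ := by rw [hκ]; positivity
  obtain ⟨c, hc⟩ : ∃ c : ℝ, c = min (1 / 8) (κ / 2) := ⟨_, rfl⟩
  have hc0 : 0 < c := by rw [hc]; apply lt_min <;> positivity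
  have hc8 : c ≤ 1 / 8 := by rw [hc]; exact min_le_left _ _
  have hcκ : c ≤ κ / 2 := by rw [hc]; exact min_le_right _ _
  refine ⟨c, hc0, by linarith, ?_⟩
  intro C hC δ hδ
  obtain ⟨A1, hA1⟩ := np_large (1 / 4) (128 / δ) (by norm_num)
  obtain ⟨A2, hA2⟩ := np_large (1 / 8) 1924 (by norm_num)
  obtain ⟨A3, hA3⟩ := np_large (κ / 4) (32 * C * (1 + 4 / κ) / δ) (by positivity)
  refine ⟨A1 + A2 + A3 + 2 ^ 14, ?_⟩
  intro N hN
  have hB1 := hA1 N (by omega)
  have hB2 := hA2 N (by omega)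
  have hB3 := hA3 N (by omega)
  have hNbig : 2 ^ 14 ≤ N := by omega
  have hN0 : N ≠ 0 := by omega
  obtain ⟨ℓ, hℓ⟩ : ∃ ℓ : ℕ, ℓ = Nat.log 2 N := ⟨_, rfl⟩
  have hℓ1 : 2 ^ ℓ ≤ N := by rw [hℓ]; exact Nat.pow_log_le_self 2 hN0
  have hℓ2 : N < 2 ^ (ℓ + 1) := by rw [hℓ]; exact Nat.lt_pow_succ_log_self (by norm_num) N
  have hℓ14 : 14 ≤ ℓ := by
    rw [hℓ]
    exact Nat.le_log_of_pow_le (by norm_num) hNbig
  obtain ⟨r, hr⟩ : ∃ r : ℕ, r = 2 ^ (ℓ / 2) := ⟨_, rfl⟩
  obtain ⟨L, hL⟩ : ∃ L : ℕ, L = ℓ / (4 * n) := ⟨_, rfl⟩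
  obtain ⟨G, hG⟩ : ∃ G : ℕ, G = 2 ^ (n * L) := ⟨_, rfl⟩
  have hr64 : 64 ≤ r := by
    rw [hr]
    calc 64 = 2 ^ 6 := by norm_num
      _ ≤ 2 ^ (ℓ / 2) := Nat.pow_le_pow_right (by norm_num) (by omega)
  have hr2 : r ^ 2 ≤ N := by
    refine le_trans ?_ hℓ1
    rw [hr, ← pow_mul]
    exact Nat.pow_le_pow_right (by norm_num) (by omega)
  have hr3 : N ≤ 4 * r ^ 2 := by
    have h1 : 4 * r ^ 2 = 2 ^ (ℓ / 2 * 2 + 2) := by
      rw [hr, ← pow_mul, pow_add]
      ring
    rw [h1]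
    refine hℓ2.le.trans (Nat.pow_le_pow_right (by norm_num) (by omega))
  have hG4 : G ^ 4 ≤ N := by
    refine le_trans ?_ hℓ1
    rw [hG, ← pow_mul]
    apply Nat.pow_le_pow_right (by norm_num)
    have h1 : 4 * n * L ≤ ℓ := by rw [hL]; exact Nat.mul_div_le ℓ (4 * n)
    calc n * L * 4 = 4 * n * L := by ring
      _ ≤ ℓ := h1
  have hG1 : 1 ≤ G := by rw [hG]; exact Nat.one_le_two_pow
  refine ⟨r, L, hr64, ?_⟩
  rw [← hG]
  push_cast
  have hNR : (2 : ℝ) ^ 14 ≤ N := by exact_mod_cast hNbig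
  have hNpos : (0 : ℝ) < N := by linarith [show (0 : ℝ) < 2 ^ 14 by norm_num]
  have hN1 : (1 : ℝ) ≤ N := by linarith [show (1 : ℝ) ≤ 2 ^ 14 by norm_num]
  have hrR : (64 : ℝ) ≤ r := by exact_mod_cast hr64
  have hr2R : (r : ℝ) ^ 2 ≤ N := by exact_mod_cast hr2
  have hr3R : (N : ℝ) ≤ 4 * r ^ 2 := by exact_mod_cast hr3
  have hG4R : (G : ℝ) ^ 4 ≤ N := by exact_mod_cast hG4
  have hG1R : (1 : ℝ) ≤ G := by exact_mod_cast hG1
  have hr0 : (0 : ℝ) < r := by linarith
  -- real powers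
  obtain ⟨q, hq⟩ : ∃ q : ℝ, q = (N : ℝ) ^ (1 / 4 : ℝ) := ⟨_, rfl⟩
  have hq0 : 0 < q := by rw [hq]; positivity
  have hq4 : q ^ 4 = N := by
    rw [hq, ← Real.rpow_natCast, ← Real.rpow_mul hNpos.le]
    norm_num
  have hGq : (G : ℝ) ≤ q := by
    rw [← hq4] at hG4R
    exact le_of_pow_le_pow_left₀ (by norm_num) hq0.le hG4R
  have hrq : (r : ℝ) ≤ q ^ 2 := by
    have h1 : (r : ℝ) ^ 2 ≤ (q ^ 2) ^ 2 := by
      rw [← pow_mul]
      norm_num
      rw [hq4]
      exact hr2R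
    exact le_of_pow_le_pow_left₀ (by norm_num) (by positivity) h1
  have hqr : q ^ 2 ≤ 2 * r := by
    have h1 : (q ^ 2) ^ 2 ≤ (2 * (r : ℝ)) ^ 2 := by
      rw [← pow_mul, mul_pow]
      norm_num
      rw [hq4]
      exact hr3R
    exact le_of_pow_le_pow_left₀ (by norm_num) (by positivity) h1
  rw [← hq] at hB1
  have hR : (G : ℝ) * r ≤ q ^ 3 := by
    calc (G : ℝ) * r ≤ q * q ^ 2 := mul_le_mul hGq hrq hr0.le hq0.le
      _ = q ^ 3 := by ring
  have hq1 : 1 ≤ q := by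
    rw [hq]
    exact Real.one_le_rpow hN1 (by norm_num)
  have hrN : (r : ℝ) ≤ N := by nlinarith
  have hNr : (N : ℝ) / r + 2 ≤ 3 * (N / r) := by
    have : 1 ≤ (N : ℝ) / r := by rw [le_div_iff₀ hr0]; linarith
    linarith
  have hNr0 : 0 ≤ (N : ℝ) / r + 2 := by positivity
  have hNr2 : ((N : ℝ) / r + 2) ^ 2 ≤ 9 * N ^ 2 / r ^ 2 := by
    calc ((N : ℝ) / r + 2) ^ 2 ≤ (3 * (N / r)) ^ 2 := pow_le_pow_left₀ hNr0 hNr 2
      _ = 9 * N ^ 2 / r ^ 2 := by
        field_simp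
        ring
  -- N^(2-c)
  have hp1 : (N : ℝ) ^ (2 - c) = (N : ℝ) ^ (7 / 4 : ℝ) * (N : ℝ) ^ (1 / 4 - c) := by
    rw [← Real.rpow_add hNpos]
    congr 1
    ring
  have hp2 : (N : ℝ) ^ (7 / 4 : ℝ) = q ^ 7 := by
    rw [hq, ← Real.rpow_natCast, ← Real.rpow_mul hNpos.le]
    norm_num
  have hp3 : (1924 : ℝ) ≤ (N : ℝ) ^ (1 / 4 - c) :=
    hB2.trans (Real.rpow_le_rpow_of_exponent_le hN1 (by linarith))
  refine ⟨?_, ?_, ?_⟩
  · rw [div_le_iff₀ hδ] at hB1
    have h1 : q ^ 3 * 128 ≤ q ^ 3 * (q * δ) := mul_le_mul_of_nonneg_left hB1 (by positivity)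
    have h2 : q ^ 3 * (q * δ) = δ * N := by rw [← hq4]; ring
    linarith
  · have h1 : ((N : ℝ) / r + 2) ^ 2 * (48 * ((G : ℝ) * r)) ≤ 864 * q ^ 7 := by
      have h2 : ((N : ℝ) / r + 2) ^ 2 * (48 * ((G : ℝ) * r)) ≤ 9 * N ^ 2 / r ^ 2 * (48 * ((G : ℝ) * r)) :=
        mul_le_mul_of_nonneg_right hNr2 (by positivity)
      have h3 : 9 * (N : ℝ) ^ 2 / r ^ 2 * (48 * ((G : ℝ) * r)) = 432 * N ^ 2 * G / r := by
        field_simp
        ring
      have h4 : 432 * (N : ℝ) ^ 2 * G / r ≤ 864 * q ^ 7 := by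
        rw [div_le_iff₀ hr0, ← hq4]
        have h5 : (G : ℝ) * q ^ 2 ≤ q * (2 * r) := mul_le_mul hGq hqr (by positivity) hq0.le
        have h6 : 432 * (q ^ 4) ^ 2 * (G : ℝ) = 432 * q ^ 6 * (G * q ^ 2) := by ring
        have h7 : 864 * q ^ 7 * (r : ℝ) = 432 * q ^ 6 * (q * (2 * r)) := by ring
        rw [h6, h7]
        exact mul_le_mul_of_nonneg_left h5 (by positivity)
      linarith
    have h2 : 2 * (6 * ((G : ℝ) * r) + 1) ^ 2 ≤ 98 * q ^ 7 := by
      have h3 : 6 * ((G : ℝ) * r) + 1 ≤ 7 * q ^ 3 := by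
        have : 1 ≤ q ^ 3 := one_le_pow₀ hq1
        linarith
      have h4 : (6 * ((G : ℝ) * r) + 1) ^ 2 ≤ (7 * q ^ 3) ^ 2 := pow_le_pow_left₀ (by positivity) h3 2
      have h5 : q ^ 6 ≤ q ^ 7 := pow_le_pow_right₀ hq1 (by norm_num)
      have h6 : (7 * q ^ 3) ^ 2 = 49 * q ^ 6 := by ring
      linarith
    rw [hp1, hp2]
    have h3 : q ^ 7 * 1924 ≤ q ^ 7 * (N : ℝ) ^ (1 / 4 - c) := mul_le_mul_of_nonneg_left hp3 (by positivity)
    linarith
  · -- third
    have hlog0 : 0 ≤ Real.log N := Real.log_nonneg hN1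
    have h1 : (r : ℝ) ^ 2 * ((N : ℝ) / r + 2) ^ 2 ≤ 9 * N ^ 2 := by
      calc (r : ℝ) ^ 2 * ((N : ℝ) / r + 2) ^ 2 ≤ r ^ 2 * (9 * N ^ 2 / r ^ 2) :=
            mul_le_mul_of_nonneg_left hNr2 (by positivity)
        _ = 9 * N ^ 2 := by field_simp
    have hLlow : Real.log N / (4 * n * Real.log 2) - 2 ≤ L := by
      have h2 : ℓ < 4 * n * (L + 1) := by
        rw [hL]
        exact Nat.lt_mul_div_succ ℓ (by omega)
      have h2R : (ℓ : ℝ) + 1 ≤ 4 * n * (L + 1) := by exact_mod_cast h2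
      have h3 : Real.log N ≤ (ℓ + 1) * Real.log 2 := by
        have h4 : (N : ℝ) ≤ 2 ^ (ℓ + 1) := by exact_mod_cast hℓ2.le
        have h5 := Real.log_le_log hNpos h4
        rw [Real.log_pow] at h5
        push_cast at h5
        exact h5
      have h6 : Real.log N / (4 * n * Real.log 2) ≤ L + 1 := by
        rw [div_le_iff₀ (by positivity)]
        calc Real.log N ≤ (ℓ + 1) * Real.log 2 := h3
          _ ≤ (4 * n * (L + 1)) * Real.log 2 := mul_le_mul_of_nonneg_right h2R hl2.le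
          _ = (L + 1) * (4 * n * Real.log 2) := by ring
      linarith
    have h2 : (3 / 4 : ℝ) ^ L ≤ 16 / 9 * (N : ℝ) ^ (-κ) := by
      have e1 : (3 / 4 : ℝ) ^ L = Real.exp (-(L * Real.log (4 / 3))) := by
        have : Real.log (4 / 3) = -Real.log (3 / 4) := by
          rw [← Real.log_inv]
          norm_num
        rw [this]
        rw [show -((L : ℝ) * -Real.log (3 / 4)) = L * Real.log (3 / 4) by ring, Real.exp_nat_mul,
          Real.exp_log (by norm_num)]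
      have e2 : (16 / 9 : ℝ) * (N : ℝ) ^ (-κ) = Real.exp (-((Real.log N / (4 * n * Real.log 2) - 2) * Real.log (4 / 3))) := by
        have e3 : (16 / 9 : ℝ) = Real.exp (2 * Real.log (4 / 3)) := by
          rw [show (2 : ℝ) * Real.log (4 / 3) = ((2 : ℕ) : ℝ) * Real.log (4 / 3) by norm_num,
            Real.exp_nat_mul, Real.exp_log (by norm_num)]
          norm_num
        rw [e3, Real.rpow_def_of_pos hNpos, ← Real.exp_add]
        congr 1
        rw [hκ]
        ring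
      rw [e1, e2]
      apply Real.exp_le_exp.2
      have := mul_le_mul_of_nonneg_right hLlow hl43.le
      linarith
    have h3 : 1 + Real.log N ≤ (1 + 4 / κ) * (N : ℝ) ^ (κ / 4) := by
      have h4 := Real.log_le_rpow_div hNpos.le (show 0 < κ / 4 by positivity)
      have h5 : 1 ≤ (N : ℝ) ^ (κ / 4) := Real.one_le_rpow hN1 (by positivity)
      have h6 : (N : ℝ) ^ (κ / 4) / (κ / 4) = 4 / κ * (N : ℝ) ^ (κ / 4) := by
        field_simp
      rw [h6] at h4
      linarith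
    have h4 : (N : ℝ) ^ (2 - c) ≥ (N : ℝ) ^ (2 : ℝ) * (N : ℝ) ^ (-κ) * ((N : ℝ) ^ (κ / 4) * (N : ℝ) ^ (κ / 4)) := by
      rw [← Real.rpow_add hNpos, ← Real.rpow_add hNpos, ← Real.rpow_add hNpos]
      apply Real.rpow_le_rpow_of_exponent_le hN1
      linarith
    rw [Real.rpow_two] at h4
    rw [div_le_iff₀ hδ] at hB3
    have hX : 0 ≤ (N : ℝ) ^ (-κ) := by positivity
    have hY : 0 ≤ (N : ℝ) ^ (κ / 4) := by positivity
    calc (r : ℝ) ^ 2 * (((N : ℝ) / r + 2) ^ 2 * ((3 / 4) ^ L * (C * (1 + Real.log N))))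
        = ((r : ℝ) ^ 2 * ((N : ℝ) / r + 2) ^ 2) * ((3 / 4) ^ L * (C * (1 + Real.log N))) := by ring
      _ ≤ (9 * N ^ 2) * ((16 / 9 * (N : ℝ) ^ (-κ)) * (C * ((1 + 4 / κ) * (N : ℝ) ^ (κ / 4)))) := by
          gcongr
      _ = (N ^ 2 * (N : ℝ) ^ (-κ) * (N : ℝ) ^ (κ / 4)) * (32 * C * (1 + 4 / κ)) / 2 := by ring
      _ ≤ (N ^ 2 * (N : ℝ) ^ (-κ) * (N : ℝ) ^ (κ / 4)) * ((N : ℝ) ^ (κ / 4) * δ) / 2 := by
          gcongr
      _ = δ * ((N ^ 2 * (N : ℝ) ^ (-κ) * ((N : ℝ) ^ (κ / 4) * (N : ℝ) ^ (κ / 4))) / 2) := by ring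
      _ ≤ δ * ((N : ℝ) ^ (2 - c) / 2) := by
          gcongr

/-! ### det_len -/

open Classical in
theorem det_len (N M' M M2 s Wm L : ℕ) (Ws : ℕ → ℕ) (lam Kh : ℝ) (f : ℤ × ℤ → ℝ) (hs : 1 ≤ s) (hsW : s ≤ Wm) (hKh : 1 ≤ Kh)
    (hWs : ∀ l < L, 4 ≤ Ws l ∧ s ≤ Ws l ∧ Ws l ≤ Wm) (hM' : 1 ≤ M') (hMM : M' ≤ M) (hM2 : M + 2 * s + 2 ≤ M2)
    (hN : M2 + 4 * Wm + 8 ≤ N)
    (hex : ∃ (u v : ℤ × ℤ) (p : grid.Walk u v), u ∈ innerBdry M' ∧ v ∈ innerBdry M ∧
      ∀ z ∈ p.support, z ∈ box N ∧ f z ≤ lam) :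
    ∃ (u v : ℤ × ℤ) (p : grid.Walk u v), u ∈ innerBdry M' ∧ v ∈ innerBdry M ∧
      (∀ z ∈ p.support, z ∈ box N ∧ f z ≤ lam) ∧
      (p.support.length : ℝ) ≤ (((box M2).filter (fun c => (s : ℤ) ∣ c.1 ∧ (s : ℤ) ∣ c.2)).card : ℝ) * (4 * Kh * Wm) +
        2 * (6 * (Wm : ℝ) + 1) ^ 2 +
        (s : ℝ) ^ 2 * ((((box M2).filter (fun c => (s : ℤ) ∣ c.1 ∧ (s : ℤ) ∣ c.2)).filter
          (fun c => ∀ l < L, bad lam Kh c (Ws l) f)).card : ℝ) := by
  classical
  have hM1 : 1 ≤ M := le_trans hM' hMM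
  have hMN : M ≤ N := by omega
  obtain ⟨u, v, p, hu, hv, hpO, hpM, hnd, hmin⟩ := min_path N M' M lam f hM' hMM hMN hex
  refine ⟨u, v, p, hu, hv, hpO, ?_⟩
  have hlen : (p.support.length : ℝ) = (p.support.toFinset.card : ℝ) := by
    rw [List.toFinset_card_of_nodup hnd]
  rw [hlen]
  have hX : (0 : ℝ) ≤ 4 * Kh * Wm := by positivity
  refine le_of_le_of_eq (count_squares M M2 s Wm hs hsW hM1 hM2 p.support.toFinset ?_
    (fun c => ∀ l < L, bad lam Kh c (Ws l) f) u v (4 * Kh * Wm) hX ?_) (by congr!)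
  · intro z hz
    exact hpM z (List.mem_toFinset.mp hz)
  · intro c hc hbad hcu hcv
    have hc1 := (Finset.mem_filter.mp hc).1
    unfold box at hc1
    rw [Finset.mem_product, Finset.mem_Icc, Finset.mem_Icc] at hc1
    obtain ⟨⟨hc11, hc12⟩, hc13, hc14⟩ := hc1
    push Not at hbad
    obtain ⟨l, hl, hnb⟩ := hbad
    obtain ⟨hW4, hsW', hWWm⟩ := hWs l hl
    set W := Ws l with hWdef
    have hd : 1 ≤ W / 4 := by omega
    have hw : 2 * (W / 4) ≤ W := by omega
    have hWR : (W : ℝ) ≤ (Wm : ℝ) := by exact_mod_cast hWWm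
    have hKh0 : 0 ≤ Kh := by linarith
    have hWZ : (W : ℤ) ≤ (Wm : ℤ) := by exact_mod_cast hWWm
    have hsZ : (s : ℤ) ≤ (W : ℤ) := by exact_mod_cast hsW'
    have hcu' : 2 * (W : ℤ) ≤ |u.1 - c.1| ∨ 2 * (W : ℤ) ≤ |u.2 - c.2| := by
      rcases hcu with h | h
      · left; linarith
      · right; linarith
    have hcv' : 2 * (W : ℤ) ≤ |v.1 - c.1| ∨ 2 * (W : ℤ) ≤ |v.2 - c.2| := by
      rcases hcv with h | h
      · left; linarith
      · right; linarith
    have hcases : circuitOK c W (W / 4) lam (Kh * W) f ∨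
        circuitOK c W (W / 4) (-(lam + 1)) (Kh * W) (fun z => -f z) := by
      unfold bad at hnb
      by_contra hcon
      push Not at hcon
      exact hnb ⟨hcon.1, hcon.2⟩
    rcases hcases with hcirc | hcirc
    · obtain ⟨H, hconn, hle, hbox, hcard, hsep⟩ := circuit_lemma c W (W / 4) hd hw lam (Kh * W) f hcirc
      have hsc := shortcut {z | z ∈ box N ∧ f z ≤ lam} (innerBdry M' : Set (ℤ × ℤ)) (innerBdry M : Set (ℤ × ℤ))
        W c u v p (by exact_mod_cast hu) (by exact_mod_cast hv) (fun z hz => hpO z hz)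
        (fun u' v' p' hu' hv' hp' => hmin u' v' p' (by exact_mod_cast hu') (by exact_mod_cast hv') hp')
        hcu' hcv' H hconn
        (by
          intro z hz
          refine ⟨?_, hle z hz⟩
          obtain ⟨h1, h2⟩ := hbox z hz
          rw [abs_le] at h1 h2
          unfold box
          rw [Finset.mem_product, Finset.mem_Icc, Finset.mem_Icc]
          obtain ⟨h11, h12⟩ := h1
          obtain ⟨h21, h22⟩ := h2
          refine ⟨⟨?_, ?_⟩, ?_, ?_⟩
          · omega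
          · omega
          · omega
          · omega)
        hsep
      have hsub : p.support.toFinset.filter (fun z => |z.1 - c.1| ≤ (s : ℤ) ∧ |z.2 - c.2| ≤ (s : ℤ)) ⊆
          p.support.toFinset.filter (fun z => |z.1 - c.1| ≤ (W : ℤ) ∧ |z.2 - c.2| ≤ (W : ℤ)) := by
        intro z hz
        rw [Finset.mem_filter] at hz ⊢
        exact ⟨hz.1, le_trans hz.2.1 hsZ, le_trans hz.2.2 hsZ⟩
      have h1 := (Finset.card_le_card hsub).trans hsc
      have h2 : ((p.support.toFinset.filter (fun z => |z.1 - c.1| ≤ (s : ℤ) ∧ |z.2 - c.2| ≤ (s : ℤ))).card : ℝ)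
          ≤ (H.card : ℝ) := by exact_mod_cast h1
      have h3 : Kh * W ≤ Kh * Wm := mul_le_mul_of_nonneg_left hWR hKh0
      calc _ ≤ (H.card : ℝ) := h2
        _ ≤ 4 * (Kh * W) := hcard
        _ ≤ 4 * Kh * Wm := by linarith
    · obtain ⟨H, hconn, hle, hbox, hcard, hsep⟩ :=
        circuit_lemma c W (W / 4) hd hw (-(lam + 1)) (Kh * W) (fun z => -f z) hcirc
      have hempty : p.support.toFinset.filter (fun z => |z.1 - c.1| ≤ (s : ℤ) ∧ |z.2 - c.2| ≤ (s : ℤ)) = ∅ := by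
        rw [Finset.eq_empty_iff_forall_notMem]
        intro z0 hz0
        rw [Finset.mem_filter, List.mem_toFinset] at hz0
        obtain ⟨hz0p, hz1, hz2⟩ := hz0
        obtain ⟨z, hzr, hzH⟩ := hsep z0 u (le_trans hz1 hsZ) (le_trans hz2 hsZ) hcu'
          (p.takeUntil z0 hz0p).reverse
        rw [SimpleGraph.Walk.support_reverse, List.mem_reverse] at hzr
        have hzp : z ∈ p.support := p.support_takeUntil_subset_support hz0p hzr
        have h1 := (hpO z hzp).2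
        have h2 : -f z ≤ -(lam + 1) := hle z hzH
        linarith
      rw [hempty]
      simpa using hX

/-! ### bad_all -/

theorem bad_all_mem_ball {x z : ℤ × ℤ} {r : ℤ} :
    z ∈ ball x r ↔ |z.1 - x.1| ≤ r ∧ |z.2 - x.2| ≤ r := by
  simp only [ball, rect, Finset.mem_product, Finset.mem_Icc, abs_le]
  constructor
  · rintro ⟨⟨h1, h2⟩, h3, h4⟩
    exact ⟨⟨by linarith, by linarith⟩, by linarith, by linarith⟩
  · rintro ⟨⟨h1, h2⟩, h3, h4⟩
    exact ⟨⟨by linarith, by linarith⟩, by linarith, by linarith⟩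


/-- measurability of `armOK` -/
theorem bad_all_meas_arm {α : Type*} [MeasurableSpace α] (o : Bool) (t : ℤ × ℤ) (w d : ℕ)
    (lam len : ℝ) (F : α → ℤ × ℤ → ℝ) (hF : ∀ z, Measurable (fun x => F x z)) :
    MeasurableSet {x | armOK o t w d lam len (F x)} := by
  classical
  set P : Set (Finset (ℤ × ℤ)) := {T | ∃ (u v : ℤ × ℤ) (p : grid.Walk u v), u.1 = w ∧ v.1 = 5 * w ∧
    (∀ z ∈ p.support, z ∈ rect w (5 * w) d (w - d)) ∧ (p.support.length : ℝ) ≤ len ∧
    T = p.support.toFinset} with hP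
  have : {x | armOK o t w d lam len (F x)} = ⋃ T ∈ P, ⋂ z ∈ T, {x | F x (place o t z) ≤ lam} := by
    ext x
    simp only [Set.mem_setOf_eq, Set.mem_iUnion, Set.mem_iInter, exists_prop, hP]
    constructor
    · rintro ⟨u, v, p, h1, h2, h3, h4⟩
      refine ⟨p.support.toFinset, ⟨u, v, p, h1, h2, fun z hz => (h3 z hz).1, h4, rfl⟩, ?_⟩
      intro z hz
      exact (h3 z (List.mem_toFinset.mp hz)).2
    · rintro ⟨T, ⟨u, v, p, h1, h2, h3, h4, rfl⟩, h5⟩
      exact ⟨u, v, p, h1, h2, fun z hz => ⟨h3 z hz, h5 z (List.mem_toFinset.mpr hz)⟩, h4⟩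
  rw [this]
  refine MeasurableSet.biUnion (Set.to_countable P) fun T _ => ?_
  refine Finset.measurableSet_biInter T fun z _ => ?_
  exact measurableSet_le (hF _) measurable_const

theorem bad_all_meas_circuit {α : Type*} [MeasurableSpace α] (c : ℤ × ℤ) (w d : ℕ)
    (lam len : ℝ) (F : α → ℤ × ℤ → ℝ) (hF : ∀ z, Measurable (fun x => F x z)) :
    MeasurableSet {x | circuitOK c w d lam len (F x)} := by
  unfold circuitOK
  exact (bad_all_meas_arm _ _ _ _ _ _ F hF).inter ((bad_all_meas_arm _ _ _ _ _ _ F hF).inter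
    ((bad_all_meas_arm _ _ _ _ _ _ F hF).inter (bad_all_meas_arm _ _ _ _ _ _ F hF)))

theorem bad_all_meas_bad {α : Type*} [MeasurableSpace α] (lam Kh : ℝ) (c : ℤ × ℤ) (W : ℕ)
    (F : α → ℤ × ℤ → ℝ) (hF : ∀ z, Measurable (fun x => F x z)) :
    MeasurableSet {x | bad lam Kh c W (F x)} := by
  unfold bad
  exact (bad_all_meas_circuit _ _ _ _ _ F hF).compl.inter
    (bad_all_meas_circuit _ _ _ _ _ (fun x z => -F x z) (fun z => (hF z).neg)).compl

theorem bad_all_meas_ext (S : Finset (ℤ × ℤ)) (z : ℤ × ℤ) : Measurable (fun x => extf S x z) := by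
  unfold extf
  by_cases h : z ∈ S
  · simp only [h, dite_true]
    fun_prop
  · simp only [h, dite_false]
    exact measurable_const


/-- difference of the Green functions -/
noncomputable def bad_all_kap (D D' : Finset (ℤ × ℤ)) (x y : ℤ × ℤ) : ℝ := green D x y - green D' x y

theorem bad_all_kap_harm {D D' : Finset (ℤ × ℤ)} (h : D' ⊆ D) {z : ℤ × ℤ} (hz : z ∈ D') (y : ℤ × ℤ) :
    bad_all_kap D D' z y = (1 / 4) * ∑ z' ∈ nbrs z, bad_all_kap D D' z' y := by
  unfold bad_all_kap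
  obtain ⟨_, _, _, _, g5, _⟩ := green_basic D
  obtain ⟨_, _, _, _, g5', _⟩ := green_basic D'
  rw [g5 z (h hz) y, g5' z hz y, Finset.sum_sub_distrib]
  ring

theorem bad_all_kap_nonneg {D D' : Finset (ℤ × ℤ)} (h : D' ⊆ D) (x y : ℤ × ℤ) :
    0 ≤ bad_all_kap D D' x y := by
  unfold bad_all_kap
  obtain ⟨_, _, _, g4, _, _⟩ := green_basic D'
  linarith [g4 D h x y]


/-- the harmonic part -/
noncomputable def bad_all_mu (S S' : Finset (ℤ × ℤ)) :
    Measure (EuclideanSpace ℝ (S : Finset (ℤ × ℤ))) :=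
  multivariateGaussian (0 : EuclideanSpace ℝ (S : Finset (ℤ × ℤ)))
    (Matrix.of fun x y : (S : Finset (ℤ × ℤ)) => (1 / 4) * (green S x y - green S' x y))

instance bad_all_mu_gauss (S S' : Finset (ℤ × ℤ)) : IsGaussian (bad_all_mu S S') := by
  unfold bad_all_mu; infer_instance

theorem bad_all_L2 (S S' : Finset (ℤ × ℤ)) (z : ℤ × ℤ) :
    MemLp (fun x => extf S x z) 2 (bad_all_mu S S') := by
  by_cases h : z ∈ S
  · have : (fun x => extf S x z) = (EuclideanSpace.proj (𝕜 := ℝ) (⟨z, h⟩ : (S : Finset (ℤ × ℤ)))) := by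
      funext x
      simp only [extf, h, dite_true]
      rfl
    rw [this]
    exact IsGaussian.memLp_dual _ _ _ (by norm_num)
  · have : (fun x => extf S x z) = fun _ => (0 : ℝ) := by
      funext x
      simp only [extf, h, dite_false]
    rw [this]
    exact memLp_const 0

theorem bad_all_mean (S S' : Finset (ℤ × ℤ)) (z : ℤ × ℤ) :
    ∫ x, extf S x z ∂(bad_all_mu S S') = 0 := by
  by_cases h : z ∈ S
  · have : (fun x => extf S x z) = (EuclideanSpace.proj (𝕜 := ℝ) (⟨z, h⟩ : (S : Finset (ℤ × ℤ)))) := by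
      funext x
      simp only [extf, h, dite_true]
      rfl
    rw [this, ContinuousLinearMap.integral_comp_id_comm]
    · unfold bad_all_mu
      simp
    · exact IsGaussian.integrable_id
  · simp only [extf, h, dite_false, integral_zero]

theorem bad_all_cov {S S' : Finset (ℤ × ℤ)} (hS : S' ⊆ S) (z y : ℤ × ℤ) :
    ∫ x, extf S x z * extf S x y ∂(bad_all_mu S S') = (1 / 4) * bad_all_kap S S' z y := by
  obtain ⟨_, g2, g3, _, _, _⟩ := green_basic S
  obtain ⟨_, g2', g3', _, _, _⟩ := green_basic S'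
  by_cases hz : z ∈ S
  · by_cases hy : y ∈ S
    · have hpsd := (markov_split S S S' hS (Finset.Subset.refl S)).1
      have h1 := covariance_eval_multivariateGaussian (μ := (0 : EuclideanSpace ℝ (S : Finset (ℤ × ℤ))))
        hpsd ⟨z, hz⟩ ⟨y, hy⟩
      have h2 := covariance_eq_sub (bad_all_L2 S S' z) (bad_all_L2 S S' y)
      rw [bad_all_mean, zero_mul, sub_zero] at h2
      have e1 : (fun x => extf S x z) = fun x => x (⟨z, hz⟩ : (S : Finset (ℤ × ℤ))) := by
        funext x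
        simp only [extf, hz, dite_true]
      have e2 : (fun x => extf S x y) = fun x => x (⟨y, hy⟩ : (S : Finset (ℤ × ℤ))) := by
        funext x
        simp only [extf, hy, dite_true]
      have h3 : ∫ x, extf S x z * extf S x y ∂(bad_all_mu S S')
          = cov[fun x => extf S x z, fun x => extf S x y; bad_all_mu S S'] := by
        rw [h2]; rfl
      rw [h3, e1, e2]
      exact h1
    · have : bad_all_kap S S' z y = 0 := by
        unfold bad_all_kap
        rw [g2 z y (Or.inr hy), g2' z y (Or.inr fun h => hy (hS h)), sub_zero]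
      rw [this]
      simp only [extf, hy, dite_false, mul_zero, integral_zero]
  · have : bad_all_kap S S' z y = 0 := by
      unfold bad_all_kap
      rw [g2 z y (Or.inl hz), g2' z y (Or.inl fun h => hz (hS h)), sub_zero]
    rw [this]
    simp only [extf, hz, dite_false, zero_mul, mul_zero, integral_zero]

theorem bad_all_int_mul (S S' : Finset (ℤ × ℤ)) (z y : ℤ × ℤ) :
    Integrable (fun x => extf S x z * extf S x y) (bad_all_mu S S') :=
  MemLp.integrable_mul (bad_all_L2 S S' z) (bad_all_L2 S S' y)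

/-- the field is almost surely harmonic inside -/
theorem bad_all_harm {S S' : Finset (ℤ × ℤ)} (hS : S' ⊆ S) {z : ℤ × ℤ} (hz : z ∈ S') :
    ∀ᵐ x ∂(bad_all_mu S S'), extf S x z = (1 / 4) * ∑ z' ∈ nbrs z, extf S x z' := by
  set Y : EuclideanSpace ℝ (S : Finset (ℤ × ℤ)) → ℝ :=
    fun x => extf S x z - (1 / 4) * ∑ z' ∈ nbrs z, extf S x z' with hY
  have hYL2 : MemLp Y 2 (bad_all_mu S S') := by
    apply (bad_all_L2 S S' z).sub
    apply MemLp.const_mul
    exact memLp_finsetSum _ fun z' _ => bad_all_L2 S S' z'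
  have hYy : ∀ y, ∫ x, Y x * extf S x y ∂(bad_all_mu S S') = 0 := by
    intro y
    have e1 : (fun x => Y x * extf S x y) = fun x => extf S x z * extf S x y
        - (1 / 4) * ∑ z' ∈ nbrs z, extf S x z' * extf S x y := by
      funext x
      simp only [hY]
      rw [sub_mul, mul_assoc, Finset.sum_mul]
    rw [e1, integral_sub (bad_all_int_mul S S' z y), integral_const_mul,
      integral_finsetSum _ (fun z' _ => bad_all_int_mul S S' z' y), bad_all_cov hS]
    · have e2 : ∑ z' ∈ nbrs z, ∫ x, extf S x z' * extf S x y ∂(bad_all_mu S S')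
          = (1 / 4) * ∑ z' ∈ nbrs z, bad_all_kap S S' z' y := by
        rw [Finset.mul_sum]
        exact Finset.sum_congr rfl fun z' _ => bad_all_cov hS z' y
      rw [e2, ← bad_all_kap_harm hS hz y, sub_self]
    · apply Integrable.const_mul
      exact integrable_finsetSum _ fun z' _ => bad_all_int_mul S S' z' y
  have hYY : ∫ x, Y x ^ 2 ∂(bad_all_mu S S') = 0 := by
    have e1 : (fun x => Y x ^ 2) = fun x => Y x * extf S x z
        - (1 / 4) * ∑ z' ∈ nbrs z, Y x * extf S x z' := by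
      funext x
      rw [sq]
      conv_lhs => rw [show Y x * Y x = Y x * (extf S x z - (1 / 4) * ∑ z' ∈ nbrs z, extf S x z') from rfl]
      rw [mul_sub, ← Finset.mul_sum]
      ring
    have hint : ∀ y, Integrable (fun x => Y x * extf S x y) (bad_all_mu S S') := fun y =>
      MemLp.integrable_mul hYL2 (bad_all_L2 S S' y)
    rw [e1, integral_sub (hint z), integral_const_mul, integral_finsetSum _ (fun z' _ => hint z')]
    · simp only [hYy, Finset.sum_const_zero, mul_zero, sub_zero]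
    · apply Integrable.const_mul
      exact integrable_finsetSum _ fun z' _ => hint z'
  have h0 := (integral_eq_zero_iff_of_nonneg (fun x => sq_nonneg (Y x)) hYL2.integrable_sq).mp hYY
  filter_upwards [h0] with x hx
  have : Y x ^ 2 = 0 := hx
  have h2 : Y x = 0 := by simpa using this
  simp only [hY] at h2
  linarith

theorem bad_all_diff {S S' : Finset (ℤ × ℤ)} (hS : S' ⊆ S) (z y : ℤ × ℤ) :
    ∫ x, (extf S x z - extf S x y) ^ 2 ∂(bad_all_mu S S') ≤
      (1 / 4) * (bad_all_kap S S' z z + bad_all_kap S S' y y) := by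
  have e1 : (fun x => (extf S x z - extf S x y) ^ 2) = fun x => extf S x z * extf S x z
      - 2 * (extf S x z * extf S x y) + extf S x y * extf S x y := by
    funext x; ring
  rw [e1, integral_add, integral_sub (bad_all_int_mul S S' z z), integral_const_mul,
    bad_all_cov hS, bad_all_cov hS, bad_all_cov hS]
  · have := bad_all_kap_nonneg hS z y
    linarith
  · exact (bad_all_int_mul S S' z y).const_mul 2
  · exact (bad_all_int_mul S S' z z).sub ((bad_all_int_mul S S' z y).const_mul 2)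
  · exact bad_all_int_mul S S' y y

theorem bad_all_absdiff_int (S S' : Finset (ℤ × ℤ)) (z y : ℤ × ℤ) :
    Integrable (fun x => |extf S x z - extf S x y|) (bad_all_mu S S') :=
  (((bad_all_L2 S S' z).sub (bad_all_L2 S S' y)).integrable (by norm_num)).abs

theorem bad_all_absdiff {S S' : Finset (ℤ × ℤ)} (hS : S' ⊆ S) (z y : ℤ × ℤ) {M : ℝ}
    (hz : bad_all_kap S S' z z ≤ M) (hy : bad_all_kap S S' y y ≤ M) (hM : 0 ≤ M) :
    ∫ x, |extf S x z - extf S x y| ∂(bad_all_mu S S') ≤ 1 + M := by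
  have h1 := bad_all_diff hS z y
  have hsq : Integrable (fun x => (extf S x z - extf S x y) ^ 2) (bad_all_mu S S') :=
    ((bad_all_L2 S S' z).sub (bad_all_L2 S S' y)).integrable_sq
  have h2 : ∫ x, |extf S x z - extf S x y| ∂(bad_all_mu S S') ≤
      ∫ x, (1 + (extf S x z - extf S x y) ^ 2) ∂(bad_all_mu S S') := by
    apply integral_mono (bad_all_absdiff_int S S' z y) ((integrable_const 1).add hsq)
    intro x
    show |extf S x z - extf S x y| ≤ 1 + (extf S x z - extf S x y) ^ 2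
    have := sq_abs (extf S x z - extf S x y)
    nlinarith [sq_nonneg (|extf S x z - extf S x y| - 1), abs_nonneg (extf S x z - extf S x y)]
  rw [integral_add (integrable_const 1) hsq] at h2
  simp only [integral_const, probReal_univ, smul_eq_mul, mul_one] at h2
  linarith

theorem bad_all_Aosc_int (S S' : Finset (ℤ × ℤ)) (v : ℤ × ℤ) (ρ : ℕ) :
    Integrable (fun x => Aosc v ρ (extf S x)) (bad_all_mu S S') := by
  unfold Aosc
  apply Integrable.const_mul
  exact integrable_finsetSum _ fun z _ => bad_all_absdiff_int S S' z v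

theorem bad_all_Aosc {S S' : Finset (ℤ × ℤ)} (hS : S' ⊆ S) (v : ℤ × ℤ) {ρ : ℕ} (hρ : 1 ≤ ρ) {M : ℝ}
    (hM : 0 ≤ M) (hκ : ∀ y ∈ ball v ((3 * ρ / 4 : ℕ) : ℤ), bad_all_kap S S' y y ≤ M) :
    ∫ x, Aosc v ρ (extf S x) ∂(bad_all_mu S S') ≤ 9 * (1 + M) := by
  unfold Aosc
  rw [integral_const_mul, integral_finsetSum _ (fun z _ => bad_all_absdiff_int S S' z v)]
  have hvmem : v ∈ ball v ((3 * ρ / 4 : ℕ) : ℤ) := by
    rw [bad_all_mem_ball, sub_self, sub_self, abs_zero]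
    exact ⟨Int.natCast_nonneg _, Int.natCast_nonneg _⟩
  have h1 : ∑ z ∈ ball v ((3 * ρ / 4 : ℕ) : ℤ), ∫ x, |extf S x z - extf S x v| ∂(bad_all_mu S S')
      ≤ ∑ z ∈ ball v ((3 * ρ / 4 : ℕ) : ℤ), (1 + M) :=
    Finset.sum_le_sum fun z hz => bad_all_absdiff hS z v (hκ z hz) (hκ v hvmem) hM
  have hcard : (ball v ((3 * ρ / 4 : ℕ) : ℤ)).card = (2 * (3 * ρ / 4) + 1) ^ 2 := by
    unfold ball rect
    rw [Finset.card_product, Int.card_Icc, Int.card_Icc, sq]
    congr 1 <;> omega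
  rw [Finset.sum_const, hcard, nsmul_eq_mul] at h1
  have hρR : (1 : ℝ) ≤ ρ := by exact_mod_cast hρ
  have h2 : (((2 * (3 * ρ / 4) + 1) ^ 2 : ℕ) : ℝ) ≤ 9 * (ρ : ℝ) ^ 2 := by
    have h3 : 2 * (3 * ρ / 4) + 1 ≤ 3 * ρ := by omega
    have h4 : (2 * (3 * ρ / 4) + 1) ^ 2 ≤ (3 * ρ) ^ 2 := Nat.pow_le_pow_left h3 2
    have h5 : (((2 * (3 * ρ / 4) + 1) ^ 2 : ℕ) : ℝ) ≤ (((3 * ρ) ^ 2 : ℕ) : ℝ) := by
      exact_mod_cast h4
    refine h5.trans (le_of_eq ?_)
    push_cast; ring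
  have h6 : (((2 * (3 * ρ / 4) + 1) ^ 2 : ℕ) : ℝ) * (1 + M) ≤ 9 * (ρ : ℝ) ^ 2 * (1 + M) :=
    mul_le_mul_of_nonneg_right h2 (by linarith)
  calc 1 / (ρ : ℝ) ^ 2 * ∑ z ∈ ball v ((3 * ρ / 4 : ℕ) : ℤ),
        ∫ x, |extf S x z - extf S x v| ∂(bad_all_mu S S')
      ≤ 1 / (ρ : ℝ) ^ 2 * (9 * (ρ : ℝ) ^ 2 * (1 + M)) :=
        mul_le_mul_of_nonneg_left (h1.trans h6) (by positivity)
    _ = 9 * (1 + M) := by field_simp

instance bad_all_gf_prob (S D : Finset (ℤ × ℤ)) : IsProbabilityMeasure (gf S D) := by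
  unfold gf; infer_instance

/-- decomposition of the probability that all blocks are bad -/
theorem bad_all_split {S S' : Finset (ℤ × ℤ)} (hS : S' ⊆ S) (lam Kh : ℝ) (L : ℕ) (c : ℕ → ℤ × ℤ)
    (W : ℕ → ℕ) :
    gf S S {x | ∀ l < L, bad lam Kh (c l) (W l) (extf S x)} =
      ∫⁻ H, gf S' S' {x | ∀ l < L, bad lam Kh (c l) (W l) (fun z => extf S H z + extf S' x z)}
        ∂(bad_all_mu S S') := by
  obtain ⟨_, hmap, hres⟩ := markov_split S S S' hS (Finset.Subset.refl S)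
  have hmeas : ∀ {α : Type} [MeasurableSpace α] (F : α → ℤ × ℤ → ℝ),
      (∀ z, Measurable (fun x => F x z)) →
      MeasurableSet {x | ∀ l < L, bad lam Kh (c l) (W l) (F x)} := by
    intro α _ F hF
    have : {x | ∀ l < L, bad lam Kh (c l) (W l) (F x)}
        = ⋂ l ∈ Finset.range L, {x | bad lam Kh (c l) (W l) (F x)} := by
      ext x; simp
    rw [this]
    exact Finset.measurableSet_biInter _ fun l _ => bad_all_meas_bad _ _ _ _ F hF
  have hadd : ∀ (H ψ : EuclideanSpace ℝ (S : Finset (ℤ × ℤ))),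
      extf S (H + ψ) = fun z => extf S H z + extf S ψ z := by
    intro H ψ
    funext z
    unfold extf
    by_cases h : z ∈ S
    · simp only [h, dite_true]; rfl
    · simp only [h, dite_false, add_zero]
  have hE := hmeas (fun x => extf S x) (bad_all_meas_ext S)
  conv_lhs => rw [← hmap]
  have hadd_meas : Measurable (fun p : EuclideanSpace ℝ (S : Finset (ℤ × ℤ)) ×
      EuclideanSpace ℝ (S : Finset (ℤ × ℤ)) => p.1 + p.2) := measurable_fst.add measurable_snd
  rw [Measure.map_apply hadd_meas hE, Measure.prod_apply (hadd_meas hE)]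
  show ∫⁻ H, _ ∂(bad_all_mu S S') = _
  apply lintegral_congr
  intro H
  have h1 : (Prod.mk H ⁻¹' ((fun p : EuclideanSpace ℝ (S : Finset (ℤ × ℤ)) ×
      EuclideanSpace ℝ (S : Finset (ℤ × ℤ)) => p.1 + p.2) ⁻¹'
        {x | ∀ l < L, bad lam Kh (c l) (W l) (extf S x)}))
      = {ψ | ∀ l < L, bad lam Kh (c l) (W l) (fun z => extf S H z + extf S ψ z)} := by
    ext ψ
    show (∀ l < L, bad lam Kh (c l) (W l) (extf S (H + ψ))) ↔ _
    rw [hadd]
    rfl
  rw [h1]
  exact hres (fun g => ∀ l < L, bad lam Kh (c l) (W l) (fun z => extf S H z + g z))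
    (hmeas _ fun z => measurable_const.add (bad_all_meas_ext S' z))
    (hmeas _ fun z => measurable_const.add (bad_all_meas_ext S z))

theorem bad_all_Aosc_nonneg (v : ℤ × ℤ) (r : ℕ) (g : ℤ × ℤ → ℝ) : 0 ≤ Aosc v r g := by
  unfold Aosc
  apply mul_nonneg (by positivity)
  exact Finset.sum_nonneg fun z _ => abs_nonneg _

/-- probability that all blocks are bad -/
theorem bad_all_prob {S : Finset (ℤ × ℤ)} {v : ℤ × ℤ} {ρ : ℕ} (hS : ball v ρ ⊆ S) (hρ : 1 ≤ ρ)
    (lam Kh : ℝ) (L : ℕ) (c : ℕ → ℤ × ℤ) (W : ℕ → ℕ) {B M : ℝ} (hB : 1 ≤ B) (hM : 0 ≤ M)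
    (hκ : ∀ y ∈ ball v ((3 * ρ / 4 : ℕ) : ℤ), bad_all_kap S (ball v ρ) y y ≤ M)
    (hchain : ∀ h : ℤ × ℤ → ℝ, (∀ z ∈ ball v ρ, h z = (1 / 4) * ∑ z' ∈ nbrs z, h z') →
      gf (ball v ρ) (ball v ρ) {x | ∀ l < L, bad lam Kh (c l) (W l)
        (fun z => h z + extf (ball v ρ) x z)} ≤ ENNReal.ofReal ((3 / 4) ^ L * (1 + Aosc v ρ h / B))) :
    gf S S {x | ∀ l < L, bad lam Kh (c l) (W l) (extf S x)} ≤
      ENNReal.ofReal ((3 / 4) ^ L * (10 + 9 * M)) := by
  rw [bad_all_split hS]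
  have hae : ∀ᵐ H ∂(bad_all_mu S (ball v ρ)), ∀ z ∈ ball v ρ,
      extf S H z = (1 / 4) * ∑ z' ∈ nbrs z, extf S H z' := by
    rw [Filter.eventually_all_finset]
    intro z hz
    exact bad_all_harm hS hz
  have hint : Integrable (fun H => (3 / 4 : ℝ) ^ L * (1 + Aosc v ρ (extf S H) / B))
      (bad_all_mu S (ball v ρ)) := by
    apply Integrable.const_mul
    exact (integrable_const 1).add ((bad_all_Aosc_int S (ball v ρ) v ρ).div_const B)
  calc ∫⁻ H, gf (ball v ρ) (ball v ρ) {x | ∀ l < L, bad lam Kh (c l) (W l)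
          (fun z => extf S H z + extf (ball v ρ) x z)} ∂(bad_all_mu S (ball v ρ))
      ≤ ∫⁻ H, ENNReal.ofReal ((3 / 4) ^ L * (1 + Aosc v ρ (extf S H) / B))
          ∂(bad_all_mu S (ball v ρ)) := by
        apply lintegral_mono_ae
        filter_upwards [hae] with H hH
        exact hchain (extf S H) hH
    _ = ENNReal.ofReal (∫ H, (3 / 4) ^ L * (1 + Aosc v ρ (extf S H) / B)
          ∂(bad_all_mu S (ball v ρ))) := by
        rw [ofReal_integral_eq_lintegral_ofReal hint]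
        filter_upwards with H
        have h1 := bad_all_Aosc_nonneg v ρ (extf S H)
        have h2 : 0 ≤ Aosc v ρ (extf S H) / B := div_nonneg h1 (by linarith)
        positivity
    _ ≤ ENNReal.ofReal ((3 / 4) ^ L * (10 + 9 * M)) := by
        apply ENNReal.ofReal_le_ofReal
        rw [integral_const_mul, integral_add (integrable_const 1)
          ((bad_all_Aosc_int S (ball v ρ) v ρ).div_const B), integral_div]
        simp only [integral_const, probReal_univ, smul_eq_mul, mul_one]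
        apply mul_le_mul_of_nonneg_left _ (by positivity)
        have h1 := bad_all_Aosc hS v hρ hM hκ
        have h2 : (∫ x, Aosc v ρ (extf S x) ∂(bad_all_mu S (ball v ρ))) / B ≤ 9 * (1 + M) / 1 :=
          div_le_div₀ (by positivity) h1 (by norm_num) hB
        linarith


/- PROOF: this is the generalisation of part of the proof of H941.density in the file Pool/Agent/H941/C/density.lean of the repository (origin/main), there D = Dw w; that file has the auxiliary lemmas density_meas_bad, density_mu, density_kap*, density_L2, density_cov, density_harm (the remainder is a.s. harmonic in the inner ball), density_diff, all for general S' contained in S; copy what you need. Let B = ball v R, R = 2^(nL) r. By markov_split D D B, gf D D is the law of h + y with h ~ (1/4)(green D - green B) and y ~ gf D B independent; h is a.s. harmonic in B; conditionally on h the probability that all the circuits are bad is, by chain with c l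 = v, at most (3/4)^L (1 + Aosc v R h / B0) (transfer from gf D B to gf B B by the last item of markov_split). The expectation of Aosc v R h is at most (1/R^2) * card(ball v (3R/4)) * max E|h z - h v| <= 10 * sqrt of the variance, and the variance is at most (1/4) * 2 (green D z z + green D v v) <= C (1 + log N) by green_log_off (green (ball) >= 0). sqrt(x) <= 1 + x. -/

theorem bad_all_num {N : ℕ} (hN : 1 ≤ N) :
    10 + 9 * (Real.log (1 + 2 * (N : ℝ) ^ 2) / Real.log 2) ≤ 28 * (1 + Real.log N) := by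
  have hNR : (1 : ℝ) ≤ N := by exact_mod_cast hN
  have hlog2 : 0 < Real.log 2 := Real.log_pos (by norm_num)
  have hl2 : (0.69 : ℝ) < Real.log 2 := by have := Real.log_two_gt_d9; linarith
  have hlN : 0 ≤ Real.log N := Real.log_nonneg hNR
  have h1 : Real.log (1 + 2 * (N : ℝ) ^ 2) ≤ 2 * Real.log 2 + 2 * Real.log N := by
    have : 2 * Real.log 2 + 2 * Real.log N = Real.log (2 ^ 2 * (N : ℝ) ^ 2) := by
      rw [Real.log_mul (by positivity) (by positivity), Real.log_pow, Real.log_pow]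
      push_cast; ring
    rw [this]
    apply Real.log_le_log (by positivity)
    nlinarith
  have h2 : Real.log (1 + 2 * (N : ℝ) ^ 2) / Real.log 2 ≤ 2 + 3 * Real.log N := by
    rw [div_le_iff₀ hlog2]
    nlinarith
  linarith

theorem bad_all : ∃ Cb C : ℝ, 1 ≤ Cb ∧ 0 < C ∧ ∀ (u Kh q lam : ℝ) (n r L N : ℕ) (v : ℤ × ℤ) (D : Finset (ℤ × ℤ)),
    64 ≤ r → 1 ≤ u → 2 * Real.exp (Cb * u ^ 2) ≤ 2 ^ n → 0 ≤ q → q ≤ 1 / 64 →
    (∀ l < L, HypA u Kh q (2 ^ (n * l + 1) * r)) → ball v ((2 ^ (n * L) * r : ℕ) : ℤ) ⊆ D → 1 ≤ N →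
    (∀ x ∈ D, ∀ y ∈ D, |x.1 - y.1| < (N : ℤ) ∧ |x.2 - y.2| < (N : ℤ)) →
    gf D D {x | ∀ l < L, bad lam Kh v (2 ^ (n * l + 1) * r) (extf D x)} ≤
      ENNReal.ofReal ((3 / 4) ^ L * (C * (1 + Real.log N))) := by
  obtain ⟨Cb, B, hCb, hB, hch⟩ := chain
  refine ⟨Cb, 28, hCb, by norm_num, ?_⟩
  intro u Kh q lam n r L N v D hr hu hn hq0 hq1 hHyp hball hN hD
  have hNR : (1 : ℝ) ≤ N := by exact_mod_cast hN
  have hlog2 : 0 < Real.log 2 := Real.log_pos (by norm_num)
  have hρ1 : 1 ≤ 2 ^ (n * L) * r := Nat.mul_pos (by positivity) (by omega)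
  have hM0 : 0 ≤ Real.log (1 + 2 * (N : ℝ) ^ 2) / Real.log 2 := by
    apply div_nonneg _ hlog2.le
    apply Real.log_nonneg
    nlinarith
  have hκ : ∀ y ∈ ball v ((3 * (2 ^ (n * L) * r) / 4 : ℕ) : ℤ),
      bad_all_kap D (ball v ((2 ^ (n * L) * r : ℕ) : ℤ)) y y ≤
        Real.log (1 + 2 * (N : ℝ) ^ 2) / Real.log 2 := by
    intro y hy
    have hyB : y ∈ ball v ((2 ^ (n * L) * r : ℕ) : ℤ) := by
      rw [bad_all_mem_ball] at hy ⊢
      have : ((3 * (2 ^ (n * L) * r) / 4 : ℕ) : ℤ) ≤ ((2 ^ (n * L) * r : ℕ) : ℤ) := by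
        have h0 : 3 * (2 ^ (n * L) * r) / 4 ≤ 2 ^ (n * L) * r := by omega
        exact_mod_cast h0
      exact ⟨hy.1.trans this, hy.2.trans this⟩
    have h1 := green_log_off D N hN hD y y (hball hyB) (hball hyB)
    have h2 := (green_basic (ball v ((2 ^ (n * L) * r : ℕ) : ℤ))).1 y y
    have h3 : Real.log (1 + ((y.1 : ℝ) - y.1) ^ 2 + ((y.2 : ℝ) - y.2) ^ 2) = 0 := by
      rw [sub_self, sub_self]
      norm_num
    rw [h3, sub_zero] at h1
    unfold bad_all_kap
    linarith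
  have hprob := bad_all_prob hball hρ1 lam Kh L (fun _ => v) (fun l => 2 ^ (n * l + 1) * r) hB hM0 hκ
    (by
      intro h hharm
      refine hch u Kh q lam n r v (fun _ => v) hr hu hn hq0 hq1 L hHyp ?_ h hharm
      intro l _
      simp only [sub_self, abs_zero, mul_zero]
      exact ⟨Int.natCast_nonneg _, Int.natCast_nonneg _⟩)
  refine hprob.trans (ENNReal.ofReal_le_ofReal ?_)
  exact mul_le_mul_of_nonneg_left (bad_all_num hN) (by positivity)

end H941.sub_parts
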