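import Pool.Agent.H941.D.sub_parts

/-! The chemical distance of the level set is at most `N^(2-c)` with high probability if it is finite. -/

open MeasureTheory ProbabilityTheory

namespace H941.subquad

open sub_parts

theorem chem_lt_top (N : ℕ) (α β lam : ℝ) (f : ℤ × ℤ → ℝ) (h : chemDist N α β lam f < ⊤) :
    ∃ (u v : ℤ × ℤ) (p : grid.Walk u v), u ∈ innerBdry ⌊α * (N : ℝ)⌋₊ ∧ v ∈ innerBdry ⌊β * (N : ℝ)⌋₊ ∧
      ∀ z ∈ p.support, z ∈ box N ∧ f z ≤ lam := by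
  unfold chemDist at h
  simp only [iInf_lt_iff] at h
  obtain ⟨u, hu, v, hv, p, hp, -⟩ := h
  exact ⟨u, v, p, hu, hv, hp⟩

theorem mem_ball (x z : ℤ × ℤ) (r : ℤ) : z ∈ ball x r ↔
    (x.1 - r ≤ z.1 ∧ z.1 ≤ x.1 + r) ∧ x.2 - r ≤ z.2 ∧ z.2 ≤ x.2 + r := by
  simp [ball, rect]

/-- the law of the bad event does not depend on the index set -/
theorem gf_bad_all (N : ℕ) (lam Kh : ℝ) (L : ℕ) (Ws : ℕ → ℕ) (c : ℤ × ℤ) :
    gf (box N) (box N \ innerBdry N) {x | ∀ l < L, bad lam Kh c (Ws l) (extf (box N) x)} =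
      gf (box N \ innerBdry N) (box N \ innerBdry N)
        {x | ∀ l < L, bad lam Kh c (Ws l) (extf (box N \ innerBdry N) x)} := by
  have hmeas : ∀ S : Finset (ℤ × ℤ), MeasurableSet {x : EuclideanSpace ℝ (S : Finset (ℤ × ℤ)) |
      ∀ l < L, bad lam Kh c (Ws l) (extf S x)} := by
    intro S
    have : {x : EuclideanSpace ℝ (S : Finset (ℤ × ℤ)) | ∀ l < L, bad lam Kh c (Ws l) (extf S x)} =
        ⋂ l : ℕ, ⋂ _ : l < L, {x | bad lam Kh c (Ws l) (extf S x)} := by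
      ext x
      simp
    rw [this]
    exact MeasurableSet.iInter fun l => MeasurableSet.iInter fun _ =>
      density.density_meas_bad lam Kh c (Ws l) _ (fun z => density.density_meas_ext S z)
  exact (markov_split (box N) (box N \ innerBdry N) (box N \ innerBdry N) (Finset.Subset.refl _)
    Finset.sdiff_subset).2.2 (fun f => ∀ l < L, bad lam Kh c (Ws l) f)
    (hmeas (box N \ innerBdry N)) (hmeas (box N))

theorem box_diam (N : ℕ) : ∀ x ∈ box N \ innerBdry N, ∀ y ∈ box N \ innerBdry N,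
    |x.1 - y.1| < ((N + 1 : ℕ) : ℤ) ∧ |x.2 - y.2| < ((N + 1 : ℕ) : ℤ) := by
  intro x hx y hy
  have hx1 := (Finset.mem_sdiff.1 hx).1
  have hy1 := (Finset.mem_sdiff.1 hy).1
  unfold box at hx1 hy1
  rw [Finset.mem_product, Finset.mem_Icc, Finset.mem_Icc] at hx1 hy1
  obtain ⟨⟨a1, a2⟩, ⟨a3, a4⟩⟩ := hx1
  obtain ⟨⟨b1, b2⟩, ⟨b3, b4⟩⟩ := hy1
  rw [abs_lt, abs_lt]
  push_cast
  refine ⟨⟨?_, ?_⟩, ⟨?_, ?_⟩⟩ <;> omega

theorem tail : ∃ c : ℝ, 0 < c ∧ c ≤ 1 / 2 ∧ ∀ α β : ℝ, 0 < α → α < β → β < 1 → ∀ lam δ : ℝ, 0 < δ →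
    ∃ N0 : ℕ, ∀ N : ℕ, N0 ≤ N →
      ∀ (Ω : Type*) [MeasurableSpace Ω] (P : Measure Ω) (η : ℤ × ℤ → Ω → ℝ), IsDGFF N η P →
      P {ω | chemDist N α β lam (fun v => η v ω) < ⊤ ∧
        ¬ chemDist N α β lam (fun v => η v ω) ≤ (⌊(N : ℝ) ^ (2 - c)⌋₊ : ℕ∞)} ≤ ENNReal.ofReal δ := by
  classical
  obtain ⟨Cb, C, hCb, hC, hbad⟩ := bad_all
  obtain ⟨u, hu, hhyp⟩ := hyp_all
  obtain ⟨n0, hn0⟩ := pow_unbounded_of_one_lt (2 * Real.exp (Cb * (u : ℝ) ^ 2)) (show (1 : ℝ) < 2 by norm_num)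
  obtain ⟨n, hn⟩ : ∃ n : ℕ, n = n0 + 1 := ⟨_, rfl⟩
  have hn1 : 1 ≤ n := by omega
  have hn2 : 2 * Real.exp (Cb * (u : ℝ) ^ 2) ≤ 2 ^ n := by
    have h0 : (0 : ℝ) < 2 ^ n0 := by positivity
    have h1 : (2 : ℝ) ^ n = 2 ^ n0 * 2 := by rw [hn, pow_succ]
    rw [h1]
    linarith
  obtain ⟨c, hc, hc1, hpar⟩ := num_par n hn1
  refine ⟨c, hc, hc1, ?_⟩
  intro α β hα hαβ hβ lam δ hδ
  have hβ0 : 0 < β := hα.trans hαβ
  obtain ⟨δ', hδ'⟩ : ∃ δ' : ℝ, δ' = min δ (1 - β) := ⟨_, rfl⟩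
  have hδ'0 : 0 < δ' := by rw [hδ']; exact lt_min hδ (by linarith)
  have hδ'1 : δ' ≤ δ := by rw [hδ']; exact min_le_left _ _
  have hδ'2 : δ' ≤ 1 - β := by rw [hδ']; exact min_le_right _ _
  obtain ⟨N1, hN1⟩ := hpar (2 * C) (by positivity) δ' hδ'0
  obtain ⟨N2, hN2⟩ := exists_nat_ge (1 / α)
  refine ⟨N1 + N2 + 2, ?_⟩
  intro N hN Ω _ P η hη
  have hP : IsProbabilityMeasure P := hη.gaussian.isProbabilityMeasure
  obtain ⟨r, L, hr, hR, hA1, hB1⟩ := hN1 N (by omega)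
  obtain ⟨R, hRd⟩ : ∃ R : ℕ, R = 2 ^ (n * L) * r := ⟨_, rfl⟩
  rw [← hRd] at hR hA1
  obtain ⟨M', hM'⟩ : ∃ M' : ℕ, M' = ⌊α * (N : ℝ)⌋₊ := ⟨_, rfl⟩
  obtain ⟨M, hM⟩ : ∃ M : ℕ, M = ⌊β * (N : ℝ)⌋₊ := ⟨_, rfl⟩
  have hN2' : (2 : ℝ) ≤ N := by exact_mod_cast (by omega : 2 ≤ N)
  have hrR : r ≤ R := by
    rw [hRd]
    exact Nat.le_mul_of_pos_left r (by positivity)
  have hM'1 : 1 ≤ M' := by
    rw [hM', Nat.one_le_floor_iff]
    have h1 : (N2 : ℝ) ≤ N := by exact_mod_cast (by omega : N2 ≤ N)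
    have h2 : 1 / α ≤ N := hN2.trans h1
    rw [div_le_iff₀ hα] at h2
    linarith
  have hMM : M' ≤ M := by
    rw [hM', hM]
    exact Nat.floor_mono (mul_le_mul_of_nonneg_right hαβ.le (by positivity))
  have hMr : (M : ℝ) ≤ β * N := by rw [hM]; exact Nat.floor_le (by positivity)
  obtain ⟨M2, hM2⟩ : ∃ M2 : ℕ, M2 = M + 2 * r + 2 := ⟨_, rfl⟩
  have hmarg : M2 + 8 * R + 20 ≤ N := by
    have h1 : 128 * (R : ℝ) ≤ (1 - β) * N := hR.trans (mul_le_mul_of_nonneg_right hδ'2 (by positivity))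
    have h2 : (r : ℝ) ≤ R := by exact_mod_cast hrR
    have h3 : (64 : ℝ) ≤ R := by
      have : 64 ≤ R := hr.trans hrR
      exact_mod_cast this
    have h4 : (M2 + 8 * R + 20 : ℝ) ≤ N := by
      rw [hM2]
      push_cast
      linarith
    exact_mod_cast h4
  let Ws : ℕ → ℕ := fun l => 2 ^ (n * l + 1) * r
  have hWs : ∀ l < L, 4 ≤ Ws l ∧ r ≤ Ws l ∧ Ws l ≤ R := by
    intro l hl
    have h1 : 1 ≤ 2 ^ (n * l + 1) := Nat.one_le_two_pow
    have h2 : r ≤ Ws l := Nat.le_mul_of_pos_left r (by positivity)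
    refine ⟨by omega, h2, ?_⟩
    rw [hRd]
    apply Nat.mul_le_mul_right
    apply Nat.pow_le_pow_right (by norm_num)
    have : n * (l + 1) ≤ n * L := Nat.mul_le_mul_left n hl
    have h3 : n * (l + 1) = n * l + n := by ring
    omega
  let Gr : Finset (ℤ × ℤ) := (box M2).filter (fun c => (r : ℤ) ∣ c.1 ∧ (r : ℤ) ∣ c.2)
  let BadF : (ℤ × ℤ → ℝ) → (ℤ × ℤ) → Prop := fun f c => ∀ l < L, bad lam 12 c (Ws l) f
  -- the law
  have hlaw := law_of_cov P (fun v : ↥(box N) => η v) hη.gaussian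
    (fun i => hη.mean_zero i i.2)
    (Matrix.of fun i j : ↥(box N) => (1 / 4) * green (box N \ innerBdry N) i j)
    (full_large.fl_psd N) (fun i j => hη.cov i i.2 j j.2)
  obtain ⟨hX, hmap⟩ := hlaw
  have hNc : 0 < (N : ℝ) ^ (2 - c) := by positivity
  obtain ⟨T, hT⟩ : ∃ T : ℝ, T = (N : ℝ) ^ (2 - c) / 2 / (r : ℝ) ^ 2 := ⟨_, rfl⟩
  have hr0 : (0 : ℝ) < r := by
    have : 0 < r := by omega
    exact_mod_cast this
  have hT0 : 0 < T := by rw [hT]; positivity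
  have hgridcard : (Gr.card : ℝ) ≤ ((N : ℝ) / r + 2) ^ 2 := by
    refine (grid_card M2 r (by omega)).trans ?_
    have h1 : (M2 : ℝ) ≤ N := by exact_mod_cast (by omega : M2 ≤ N)
    gcongr
  -- deterministic part
  have hsub : {ω | chemDist N α β lam (fun v => η v ω) < ⊤ ∧
        ¬ chemDist N α β lam (fun v => η v ω) ≤ (⌊(N : ℝ) ^ (2 - c)⌋₊ : ℕ∞)} ⊆
      (fun ω => (WithLp.toLp 2 (fun i : ↥(box N) => η i ω) : EuclideanSpace ℝ ↥(box N))) ⁻¹'
        {x | T ≤ ((Gr.filter (fun c => BadF (extf (box N) x) c)).card : ℝ)} := by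
    rintro ω ⟨h1, h2⟩
    obtain ⟨a, b, p, ha, hb, hp⟩ := chem_lt_top N α β lam _ h1
    set x : EuclideanSpace ℝ ↥(box N) := WithLp.toLp 2 (fun i : ↥(box N) => η i ω) with hx
    have hagree : ∀ z ∈ box N, extf (box N) x z = η z ω := by
      intro z hz
      unfold extf
      rw [dif_pos hz]
    obtain ⟨a', b', p', ha', hb', hp', hlen⟩ := det_len N M' M M2 r R L Ws lam 12 (extf (box N) x)
      (by omega) hrR (by norm_num) hWs hM'1 hMM (by omega) (by omega)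
      ⟨a, b, p, by rw [hM']; exact ha, by rw [hM]; exact hb, fun z hz => ⟨(hp z hz).1, by
        rw [hagree z (hp z hz).1]
        exact (hp z hz).2⟩⟩
    by_contra hcon
    apply h2
    apply chem_le
    refine ⟨a', b', p', by rw [← hM']; exact ha', by rw [← hM]; exact hb', fun z hz => ⟨(hp' z hz).1, by
      rw [← hagree z (hp' z hz).1]
      exact (hp' z hz).2⟩, ?_⟩
    have h3 : ((Gr.filter (fun c => BadF (extf (box N) x) c)).card : ℝ) < T := not_le.1 hcon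
    have h4 : (r : ℝ) ^ 2 * ((Gr.filter (fun c => BadF (extf (box N) x) c)).card : ℝ) ≤ (N : ℝ) ^ (2 - c) / 2 := by
      rw [hT, lt_div_iff₀ (by positivity)] at h3
      linarith [mul_comm ((r : ℝ) ^ 2) ((Gr.filter (fun c => BadF (extf (box N) x) c)).card : ℝ)]
    have h5 : (Gr.card : ℝ) * (4 * 12 * (R : ℝ)) ≤ ((N : ℝ) / r + 2) ^ 2 * (48 * (R : ℝ)) := by
      have : (4 * 12 * (R : ℝ)) = 48 * R := by ring
      rw [this]
      exact mul_le_mul_of_nonneg_right hgridcard (by positivity)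
    have h6 : (p'.support.length : ℝ) ≤ (Gr.card : ℝ) * (4 * 12 * (R : ℝ)) + 2 * (6 * (R : ℝ) + 1) ^ 2 +
        (r : ℝ) ^ 2 * ((Gr.filter (fun c => BadF (extf (box N) x) c)).card : ℝ) := by
      convert hlen using 3
    linarith
  -- probability
  refine (measure_mono hsub).trans ((Measure.le_map_apply hX _).trans ?_)
  rw [hmap]
  have hmark := count_markov (C := ↥Gr) (multivariateGaussian (0 : EuclideanSpace ℝ ↥(box N))
      (Matrix.of fun i j : ↥(box N) => (1 / 4) * green (box N \ innerBdry N) i j))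
    (fun c => {x | BadF (extf (box N) x) c}) T hT0
    (fun x => ((Gr.filter (fun c => BadF (extf (box N) x) c)).card : ℝ)) (by
      intro x
      rw [Finset.card_filter]
      push_cast
      rw [← Finset.sum_coe_sort Gr]
      refine le_of_eq (Finset.sum_congr rfl fun c _ => ?_)
      by_cases h : BadF (extf (box N) x) c
      · simp [h]
      · simp [h])
  refine hmark.trans ?_
  have hone : ∀ c : ↥Gr, multivariateGaussian (0 : EuclideanSpace ℝ ↥(box N))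
      (Matrix.of fun i j : ↥(box N) => (1 / 4) * green (box N \ innerBdry N) i j)
      {x | BadF (extf (box N) x) c} ≤ ENNReal.ofReal ((3 / 4) ^ L * (2 * C * (1 + Real.log N))) := by
    intro c
    have hcGr := c.2
    have hcbox : (c : ℤ × ℤ) ∈ box M2 := (Finset.mem_filter.1 hcGr).1
    unfold box at hcbox
    rw [Finset.mem_product, Finset.mem_Icc, Finset.mem_Icc] at hcbox
    have h1 := gf_bad_all N lam 12 L Ws c
    unfold gf at h1
    refine h1.le.trans ?_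
    have h2 := hbad (u : ℝ) 12 (1 / 64) lam n r L (N + 1) c (box N \ innerBdry N) hr (by exact_mod_cast hu)
      hn2 (by norm_num) (by norm_num) (fun l hl => hhyp _ (by
        have : 2 ≤ 2 ^ (n * l + 1) := by
          calc 2 = 2 ^ 1 := by norm_num
            _ ≤ 2 ^ (n * l + 1) := Nat.pow_le_pow_right (by norm_num) (by omega)
        calc 128 = 2 * 64 := by norm_num
          _ ≤ 2 ^ (n * l + 1) * r := Nat.mul_le_mul this hr)) (by
        rw [← hRd]
        apply annulus_high.annulus_high_ball <;> omega)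
      (by omega) (box_diam N)
    refine h2.trans (ENNReal.ofReal_le_ofReal ?_)
    have h3 : Real.log ((N + 1 : ℕ) : ℝ) ≤ 2 * Real.log N := by
      rw [← Real.log_rpow (by linarith)]
      apply Real.log_le_log (by positivity)
      push_cast
      norm_num
      nlinarith
    have h4 : 0 ≤ Real.log N := Real.log_nonneg (by linarith)
    have h5 : C * (1 + Real.log ((N + 1 : ℕ) : ℝ)) ≤ 2 * C * (1 + Real.log N) := by
      nlinarith
    exact mul_le_mul_of_nonneg_left h5 (by positivity)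
  have hlogN : 0 ≤ Real.log N := Real.log_nonneg (by linarith)
  calc (∑ c : ↥Gr, multivariateGaussian (0 : EuclideanSpace ℝ ↥(box N))
          (Matrix.of fun i j : ↥(box N) => (1 / 4) * green (box N \ innerBdry N) i j)
          {x | BadF (extf (box N) x) c}) / ENNReal.ofReal T
      ≤ (∑ _c : ↥Gr, ENNReal.ofReal ((3 / 4) ^ L * (2 * C * (1 + Real.log N)))) / ENNReal.ofReal T := by
        gcongr with c _
        exact hone c
    _ = (Gr.card : ENNReal) * ENNReal.ofReal ((3 / 4) ^ L * (2 * C * (1 + Real.log N))) / ENNReal.ofReal T := by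
        rw [Finset.sum_const, Finset.card_univ, Fintype.card_coe, nsmul_eq_mul]
    _ = ENNReal.ofReal ((Gr.card : ℝ) * ((3 / 4) ^ L * (2 * C * (1 + Real.log N))) / T) := by
        rw [ENNReal.ofReal_div_of_pos hT0,
          ENNReal.ofReal_mul (p := (Gr.card : ℝ)) (by positivity), ENNReal.ofReal_natCast]
    _ ≤ ENNReal.ofReal δ := by
        apply ENNReal.ofReal_le_ofReal
        rw [div_le_iff₀ hT0]
        have h1 : (Gr.card : ℝ) * ((3 / 4) ^ L * (2 * C * (1 + Real.log N))) ≤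
            ((N : ℝ) / r + 2) ^ 2 * ((3 / 4) ^ L * (2 * C * (1 + Real.log N))) :=
          mul_le_mul_of_nonneg_right hgridcard (by positivity)
        refine h1.trans ?_
        have h2 : δ' * ((N : ℝ) ^ (2 - c) / 2) ≤ δ * ((N : ℝ) ^ (2 - c) / 2) :=
          mul_le_mul_of_nonneg_right hδ'1 (by positivity)
        have h3 : ((N : ℝ) / r + 2) ^ 2 * ((3 / 4) ^ L * (2 * C * (1 + Real.log N))) * (r : ℝ) ^ 2 ≤
            δ * ((N : ℝ) ^ (2 - c) / 2) := by
          refine le_trans (le_of_eq ?_) (hB1.trans h2)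
          ring
        rw [hT, ← mul_div_assoc, le_div_iff₀ (by positivity)]
        exact h3

end H941.subquad
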