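import Pool.Agent.H941.D.thin_parts
import Pool.Agent.H941.C.full_large

/-! Thin annuli are crossed at linear cost with high probability at every fixed level. -/

open MeasureTheory ProbabilityTheory

namespace H941.thin

open thin_parts

theorem exp_small {x : ℝ} (hx : 0 < x) : Real.exp (-x) ≤ 1 / x :=
  annulus_high.annulus_high_exp hx

theorem exists_T (CM E m δ : ℝ) (hCM : 0 < CM) (hE : 0 < E) (hm : 0 < m) (hδ : 0 < δ) :
    ∃ T : ℝ, 0 ≤ T ∧ ∀ E' : ℝ, 0 < E' → E' ≤ E → m * (CM * Real.exp (-(T ^ 2 / E'))) ≤ δ := by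
  refine ⟨Real.sqrt (E * (m * CM / δ)), Real.sqrt_nonneg _, ?_⟩
  intro E' hE' hEE
  rw [Real.sq_sqrt (by positivity)]
  have h1 : m * CM / δ ≤ E * (m * CM / δ) / E' := by
    rw [le_div_iff₀ hE']
    have : 0 < m * CM / δ := by positivity
    nlinarith
  have h2 : Real.exp (-(E * (m * CM / δ) / E')) ≤ Real.exp (-(m * CM / δ)) :=
    Real.exp_le_exp.2 (by linarith)
  have h3 := exp_small (x := m * CM / δ) (by positivity)
  have h4 : 1 / (m * CM / δ) = δ / (m * CM) := by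
    field_simp
  rw [h4] at h3
  calc m * (CM * Real.exp (-(E * (m * CM / δ) / E'))) ≤ m * (CM * (δ / (m * CM))) := by
        gcongr
        exact h2.trans h3
    _ = δ := by field_simp

theorem geo (α β r X : ℝ) (N m κ w1 ρ w M' M : ℕ) (hα : 0 < α) (hr : 0 < r)
    (hr1 : 16 * ((m : ℝ) + 1) * r ≤ α) (hr2 : 16 * r ≤ 1 - α) (hm : 1 ≤ m) (hκ : 16 ≤ κ)
    (hX : X = r * N) (hX1 : 1000 * (κ : ℝ) * (m + 1) ≤ X) (hX2 : 4 * (κ : ℝ) * (w1 + 8) ≤ X)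
    (hρ : ρ = ⌊X⌋₊) (hw : w = ρ / κ) (hM' : M' = ⌊α * (N : ℝ)⌋₊) (hM : M = ⌊β * (N : ℝ)⌋₊)
    (hαβ : α < β) (hβ : β ≤ α + r / (4 * κ)) :
    w1 + 8 ≤ w ∧ κ * w ≤ ρ ∧ (r / 2) * N ≤ ρ ∧ (ρ : ℝ) ≤ N ∧ 1 ≤ M' ∧ M' ≤ M ∧ M ≤ N ∧
      m * (2 * ρ + 2) ≤ (M' - 1) / 2 ∧ M / 2 < M' / 2 + 4 * w ∧
      2 * (M' / 2 + 2 * w + ρ) + 6 ≤ N ∧ M' / 2 + 4 * w ≤ N / 2 ∧ 2 * (m * (2 * ρ + 2)) + 6 ≤ N ∧
      2 * ρ + 6 ≤ N := by
  have hm1 : (1 : ℝ) ≤ m := by exact_mod_cast hm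
  have hκ1 : (16 : ℝ) ≤ κ := by exact_mod_cast hκ
  have hw10 : (0 : ℝ) ≤ w1 := Nat.cast_nonneg _
  have hN0 : (0 : ℝ) ≤ N := Nat.cast_nonneg _
  have hXbig : 32000 ≤ X := by nlinarith
  have hXκ : 1000 * (κ : ℝ) ≤ X := by nlinarith
  have hXm : 1000 * ((m : ℝ) + 1) ≤ X := by nlinarith
  have hαX : 16 * ((m : ℝ) + 1) * X ≤ α * N := by
    rw [hX]
    nlinarith [mul_le_mul_of_nonneg_right hr1 hN0]
  have h1αX : 16 * X + α * N ≤ N := by
    rw [hX]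
    nlinarith [mul_le_mul_of_nonneg_right hr2 hN0]
  have hρ1 : (ρ : ℝ) ≤ X := by rw [hρ]; exact Nat.floor_le (by linarith)
  have hρ2 : X < ρ + 1 := by rw [hρ]; exact Nat.lt_floor_add_one X
  have hκpos : 0 < κ := by omega
  have hκpos' : (0 : ℝ) < κ := by linarith
  have hκw : κ * w ≤ ρ := by rw [hw]; exact Nat.mul_div_le ρ κ
  have hκw' : (κ : ℝ) * w ≤ ρ := by exact_mod_cast hκw
  have hκw2 : ρ < κ * (w + 1) := by
    rw [hw]
    have := Nat.lt_mul_div_succ ρ hκpos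
    exact this
  have hκw2' : (ρ : ℝ) < κ * (w + 1) := by exact_mod_cast hκw2
  have hwX : X / 2 ≤ κ * w := by
    have : X - 1 < κ * w + κ := by nlinarith
    linarith
  have hw1 : (w1 : ℝ) + 8 ≤ w := by
    have h1 : 2 * (κ : ℝ) * (w1 + 8) ≤ κ * w := by linarith
    have h2 : (κ : ℝ) * (2 * (w1 + 8)) ≤ κ * w := by linarith
    have h3 := le_of_mul_le_mul_left h2 hκpos'
    linarith
  have hww : 16 * (w : ℝ) ≤ ρ := by nlinarith
  have hM'1 : (M' : ℝ) ≤ α * N := by rw [hM']; exact Nat.floor_le (by positivity)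
  have hM'2 : α * N < M' + 1 := by rw [hM']; exact Nat.lt_floor_add_one _
  have hM1 : (M : ℝ) ≤ β * N := by rw [hM]; exact Nat.floor_le (by nlinarith)
  have hβN : β * N ≤ α * N + w / 2 := by
    have h1 : β * N ≤ (α + r / (4 * κ)) * N := mul_le_mul_of_nonneg_right hβ hN0
    have h2 : r / (4 * κ) * N = X / 2 / κ / 2 := by
      rw [hX]
      field_simp
      ring
    have h3 : X / 2 / κ ≤ w := by
      rw [div_le_iff₀ hκpos']
      linarith [mul_comm (κ : ℝ) w]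
    have h4 : (α + r / (4 * κ)) * N = α * N + r / (4 * κ) * N := by ring
    rw [h4, h2] at h1
    linarith
  have hmX : ((m : ℝ) + 1) * X = m * X + X := by ring
  have hmX0 : X ≤ m * X := le_mul_of_one_le_left (by linarith) hm1
  have hαX' : 16 * (m * X) + 16 * X ≤ α * N := by linarith
  have hmρ : (m : ℝ) * ρ ≤ m * X := mul_le_mul_of_nonneg_left hρ1 (by linarith)
  have hmle : (m : ℝ) ≤ X := by linarith
  have k1 : w1 + 8 ≤ w := by exact_mod_cast hw1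
  have k2 : (ρ : ℝ) ≤ N := by linarith
  have k3 : 1 ≤ M' := by
    have : (1 : ℝ) ≤ M' := by linarith
    exact_mod_cast this
  have k4 : M' ≤ M := by
    rw [hM', hM]
    exact Nat.floor_mono (mul_le_mul_of_nonneg_right hαβ.le hN0)
  have hw0 : (0 : ℝ) ≤ w := Nat.cast_nonneg _
  have hwρX : (w : ℝ) ≤ X := by linarith
  have k5 : M ≤ N := by
    have : (M : ℝ) ≤ N := by linarith
    exact_mod_cast this
  have k6 : m * (2 * ρ + 2) ≤ (M' - 1) / 2 := by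
    rw [Nat.le_div_iff_mul_le (by norm_num)]
    have h1 : (m * (2 * ρ + 2) * 2 + 1 : ℝ) ≤ M' := by linarith
    have h2 : m * (2 * ρ + 2) * 2 + 1 ≤ M' := by exact_mod_cast h1
    omega
  have k7 : M / 2 < M' / 2 + 4 * w := by
    have h1 : (M : ℝ) ≤ M' + 1 + w / 2 := by linarith
    have h2 : (2 * M : ℝ) ≤ 2 * M' + 2 + w := by linarith
    have h3 : 2 * M ≤ 2 * M' + 2 + w := by exact_mod_cast h2
    omega
  have k8 : 2 * (M' / 2 + 2 * w + ρ) + 6 ≤ N := by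
    have h1 : (M' + 4 * w + 2 * ρ + 6 : ℝ) ≤ N := by linarith
    have h2 : M' + 4 * w + 2 * ρ + 6 ≤ N := by exact_mod_cast h1
    omega
  have k9 : M' / 2 + 4 * w ≤ N / 2 := by
    have h1 : (M' + 8 * w + 2 : ℝ) ≤ N := by linarith
    have h2 : M' + 8 * w + 2 ≤ N := by exact_mod_cast h1
    omega
  have k10 : 2 * (m * (2 * ρ + 2)) + 6 ≤ N := by
    have h1 : (2 * (m * (2 * ρ + 2)) + 6 : ℝ) ≤ N := by linarith
    exact_mod_cast h1
  have k11 : 2 * ρ + 6 ≤ N := by omega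
  exact ⟨k1, hκw, by rw [hX] at hρ2 hXbig; linarith, k2, k3, k4, k5, k6, k7, k8, k9, k10, k11⟩

theorem mem_ball (x z : ℤ × ℤ) (r : ℤ) : z ∈ ball x r ↔
    (x.1 - r ≤ z.1 ∧ z.1 ≤ x.1 + r) ∧ x.2 - r ≤ z.2 ∧ z.2 ≤ x.2 + r := by
  simp [ball, rect]

theorem _root_.H941.thin (α : ℝ) (hα : 0 < α) (hα1 : α < 1) (lam δ : ℝ) (hδ : 0 < δ) :
    ∃ (β0 C : ℝ) (N0 : ℕ), α < β0 ∧ β0 < 1 ∧ 0 < C ∧ ∀ β : ℝ, α < β → β ≤ β0 → ∀ N : ℕ, N0 ≤ N →
      gf (box N) (box N \ innerBdry N) {x | ¬ ∃ (u v : ℤ × ℤ) (p : grid.Walk u v),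
          u ∈ innerBdry ⌊α * (N : ℝ)⌋₊ ∧ v ∈ innerBdry ⌊β * (N : ℝ)⌋₊ ∧
          (∀ z ∈ p.support, z ∈ box N ∧ extf (box N) x z ≤ lam) ∧
          (p.support.length : ℝ) ≤ C * N} ≤
        ENNReal.ofReal δ := by
  obtain ⟨R, lam1, C2, w1, hR, hC2, harm⟩ := arm_ball
  obtain ⟨CM, hCM, hmac⟩ := macro_sup
  obtain ⟨m0, hm0⟩ := exists_pow_lt_of_lt_one (show 0 < δ / 2 by positivity)
    (show (7 / 8 : ℝ) < 1 by norm_num)
  obtain ⟨m, hm⟩ : ∃ m : ℕ, m = m0 + 1 := ⟨_, rfl⟩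
  have hmpow : (7 / 8 : ℝ) ^ m ≤ δ / 2 := by
    rw [hm, pow_succ]
    have : (0 : ℝ) ≤ (7 / 8) ^ m0 := by positivity
    linarith
  have hm1 : 1 ≤ m := by omega
  have hmR : (1 : ℝ) ≤ m := by exact_mod_cast hm1
  obtain ⟨r, hr⟩ : ∃ r : ℝ, r = min (α / (16 * ((m : ℝ) + 1))) ((1 - α) / 16) := ⟨_, rfl⟩
  have hr0 : 0 < r := by
    rw [hr]
    apply lt_min
    · positivity
    · linarith
  have hr1 : 16 * ((m : ℝ) + 1) * r ≤ α := by
    have h1 : r ≤ α / (16 * ((m : ℝ) + 1)) := by rw [hr]; exact min_le_left _ _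
    rw [le_div_iff₀ (by positivity)] at h1
    linarith [mul_comm r (16 * ((m : ℝ) + 1))]
  have hr2 : 16 * r ≤ 1 - α := by
    have h1 : r ≤ (1 - α) / 16 := by rw [hr]; exact min_le_right _ _
    linarith
  have hrlt : r ≤ 1 := by linarith
  have hlr : 0 ≤ Real.log (2 / r) := Real.log_nonneg (by rw [le_div_iff₀ hr0]; linarith)
  obtain ⟨T, hT0, hT⟩ := exists_T CM (CM * (1 + Real.log (2 / r))) m (δ / 2) hCM (by positivity)
    (by linarith) (by positivity)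
  obtain ⟨κ0, hκ0, hhalf⟩ := arm_half lam1 (lam - T)
  obtain ⟨κ, hκ⟩ : ∃ κ : ℕ, κ = max κ0 16 := ⟨_, rfl⟩
  have hκ16 : 16 ≤ κ := by rw [hκ]; exact le_max_right _ _
  have hκκ : κ0 ≤ κ := by rw [hκ]; exact le_max_left _ _
  have hκR : (16 : ℝ) ≤ κ := by exact_mod_cast hκ16
  obtain ⟨N0, hN0⟩ := exists_nat_ge ((1000 * (κ : ℝ) * (m + 1) + 4 * (κ : ℝ) * (w1 + 8)) / r)
  refine ⟨α + r / (4 * κ), C2, N0 + 1, by linarith [show 0 < r / (4 * (κ : ℝ)) by positivity], ?_, hC2, ?_⟩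
  · have h1 : r / (4 * (κ : ℝ)) ≤ r := by
      rw [div_le_iff₀ (by positivity)]
      nlinarith
    linarith
  intro β hαβ hβ N hN
  have hNr : (1000 * (κ : ℝ) * (m + 1) + 4 * (κ : ℝ) * (w1 + 8)) ≤ r * N := by
    rw [div_le_iff₀ hr0] at hN0
    have h1 : (N0 : ℝ) ≤ N := by exact_mod_cast (by omega : N0 ≤ N)
    nlinarith
  have hp1 : 0 ≤ 1000 * (κ : ℝ) * (m + 1) := by positivity
  have hp2 : 0 ≤ 4 * (κ : ℝ) * (w1 + 8) := by positivity
  obtain ⟨ρ, hρ⟩ : ∃ ρ : ℕ, ρ = ⌊r * (N : ℝ)⌋₊ := ⟨_, rfl⟩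
  obtain ⟨w, hw⟩ : ∃ w : ℕ, w = ρ / κ := ⟨_, rfl⟩
  obtain ⟨M', hM'⟩ : ∃ M' : ℕ, M' = ⌊α * (N : ℝ)⌋₊ := ⟨_, rfl⟩
  obtain ⟨M, hM⟩ : ∃ M : ℕ, M = ⌊β * (N : ℝ)⌋₊ := ⟨_, rfl⟩
  obtain ⟨g1, g2, g3, g4, g5, g6, g7, g8, g9, g10, g11, g12, g13⟩ :=
    geo α β r (r * N) N m κ w1 ρ w M' M hα hr0 hr1 hr2 hm1 hκ16 rfl (by linarith) (by linarith)
      hρ hw hM' hM hαβ hβ
  rw [← hM', ← hM]
  obtain ⟨hd64, h2d, harm'⟩ := harm w (by omega)
  let t : ℕ → ℤ × ℤ := fun k => (((M' / 2 : ℕ) : ℤ) - w, ((k * (2 * ρ + 2) : ℕ) : ℤ))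
  have hxa : ∀ k, xa true (t k) w =
      (((M' / 2 : ℕ) : ℤ) + 2 * w, ((k * (2 * ρ + 2) : ℕ) : ℤ) + ((w / 2 : ℕ) : ℤ)) := by
    intro k
    simp only [xa, place, t, if_true]
    ext
    · simp only []
      ring
    · rfl
  have hκw : κ0 * w ≤ ρ := (Nat.mul_le_mul_right w hκκ).trans g2
  have h16w : 16 * w ≤ ρ := (Nat.mul_le_mul_right w hκ16).trans g2
  have hkm : ∀ k < m, k * (2 * ρ + 2) + (2 * ρ + 2) ≤ m * (2 * ρ + 2) := by
    intro k hk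
    have h1 : (k + 1) * (2 * ρ + 2) ≤ m * (2 * ρ + 2) := Nat.mul_le_mul_right _ hk
    linarith [add_mul k 1 (2 * ρ + 2)]
  have hballV : ∀ k < m, ball (xa true (t k) w) ρ ⊆ box N \ innerBdry N := by
    intro k hk
    have h1 := hkm k hk
    generalize hY : k * (2 * ρ + 2) = Y at h1
    generalize hZ : m * (2 * ρ + 2) = Z at h1 g8 g12
    have hx := hxa k
    rw [hY] at hx
    apply annulus_high.annulus_high_ball
    · rw [hx]; simp only []; omega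
    · rw [hx]; simp only []; omega
    · rw [hx]; simp only []; omega
    · rw [hx]; simp only []; omega
  have hsep : ∀ i < m, ∀ j < m, i ≠ j →
      2 * (ρ : ℤ) + 2 ≤ |(xa true (t i) w).2 - (xa true (t j) w).2| := by
    have key : ∀ i j : ℕ, i < j → 2 * (ρ : ℤ) + 2 ≤ ((j * (2 * ρ + 2) : ℕ) : ℤ) - ((i * (2 * ρ + 2) : ℕ) : ℤ) := by
      intro i j hij
      have h1 : (i + 1) * (2 * ρ + 2) ≤ j * (2 * ρ + 2) := Nat.mul_le_mul_right _ hij
      have h2 : (((i + 1) * (2 * ρ + 2) : ℕ) : ℤ) ≤ ((j * (2 * ρ + 2) : ℕ) : ℤ) := by exact_mod_cast h1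
      push_cast at h2 ⊢
      linarith
    intro i _ j _ hij
    rw [hxa, hxa]
    simp only []
    rcases Nat.lt_or_gt_of_ne hij with h | h
    · have := key i j h
      rw [le_abs]
      right
      linarith
    · have := key j i h
      rw [le_abs]
      left
      linarith
  have hbox : ∀ x ∈ box N \ innerBdry N, ∀ y ∈ box N \ innerBdry N,
      |x.1 - y.1| < (N : ℤ) ∧ |x.2 - y.2| < (N : ℤ) := by
    intro x hx y hy
    have hx1 := (Finset.mem_sdiff.1 hx).1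
    have hy1 := (Finset.mem_sdiff.1 hy).1
    unfold box at hx1 hy1
    rw [Finset.mem_product, Finset.mem_Icc, Finset.mem_Icc] at hx1 hy1
    obtain ⟨⟨a1, a2⟩, ⟨a3, a4⟩⟩ := hx1
    obtain ⟨⟨b1, b2⟩, ⟨b3, b4⟩⟩ := hy1
    rw [abs_lt, abs_lt]
    refine ⟨⟨?_, ?_⟩, ⟨?_, ?_⟩⟩ <;> omega
  have hVS : box N \ innerBdry N ⊆ box N := Finset.sdiff_subset
  have hballS : ∀ k < m, ball (xa true (t k) w) ρ ⊆ box N := fun k hk => (hballV k hk).trans hVS
  have hcomb := thin_combine (box N) (box N \ innerBdry N) hVS m t w (w / R) ρ lam T (C2 * w) (7 / 8)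
    (ENNReal.ofReal (m * (CM * Real.exp (-(T ^ 2 / (CM * (1 + Real.log ((N : ℝ) / ρ)))))))) hballV hsep
    (by omega) h16w (by norm_num)
    (by
      intro k hk
      refine hhalf (box N) w (w / R) ρ (C2 * w) true (t k) (by omega) (by omega) h2d hκw (hballS k hk)
        (harm' (box N) true (t k) ?_)
      refine Finset.Subset.trans ?_ (hballS k hk)
      intro z hz
      rw [mem_ball] at hz ⊢
      push_cast at hz
      omega)
    (fun hpsd => hmac (box N) (box N \ innerBdry N) m (fun k => xa true (t k) w) ρ w N hVS hballV hsep hbox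
      (by omega) h16w (by exact_mod_cast g4) hpsd T hT0)
  have hsub : {x : EuclideanSpace ℝ (box N : Finset (ℤ × ℤ)) | ¬ ∃ (u v : ℤ × ℤ) (p : grid.Walk u v),
        u ∈ innerBdry M' ∧ v ∈ innerBdry M ∧ (∀ z ∈ p.support, z ∈ box N ∧ extf (box N) x z ≤ lam) ∧
          (p.support.length : ℝ) ≤ C2 * N} ⊆
      {x | ∀ k < m, ¬ armOK true (t k) w (w / R) lam (C2 * w) (extf (box N) x)} := by
    intro x hx k hk harmk
    apply hx
    have h1 := hkm k hk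
    obtain ⟨u, v, p, hu, hv, hp, hl⟩ := arm_cross N M' M w (w / R) ((k * (2 * ρ + 2) : ℕ) : ℤ) lam (C2 * w)
      (extf (box N) x) g5 g6 g7 (by positivity)
      (by
        generalize k * (2 * ρ + 2) = Y at h1 ⊢
        generalize m * (2 * ρ + 2) = Z at h1 g8 g12
        omega)
      (by omega) (by omega) harmk
    refine ⟨u, v, p, hu, hv, hp, hl.trans ?_⟩
    have hwN : (w : ℝ) ≤ N := by exact_mod_cast (by omega : w ≤ N)
    exact mul_le_mul_of_nonneg_left hwN hC2.le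
  refine (measure_mono hsub).trans (hcomb.trans ?_)
  have hρpos : (0 : ℝ) < ρ := by
    have : 0 < ρ := by omega
    exact_mod_cast this
  have hNρ : (N : ℝ) / ρ ≤ 2 / r := by
    rw [div_le_div_iff₀ hρpos hr0]
    linarith
  have hNρ1 : 1 ≤ (N : ℝ) / ρ := by
    rw [le_div_iff₀ hρpos]
    linarith
  have hE' : 0 < CM * (1 + Real.log ((N : ℝ) / ρ)) := by
    have := Real.log_nonneg hNρ1
    positivity
  have hEE : CM * (1 + Real.log ((N : ℝ) / ρ)) ≤ CM * (1 + Real.log (2 / r)) := by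
    have := Real.log_le_log (by linarith) hNρ
    exact mul_le_mul_of_nonneg_left (by linarith) hCM.le
  have hfin := hT _ hE' hEE
  calc ENNReal.ofReal (m * (CM * Real.exp (-(T ^ 2 / (CM * (1 + Real.log ((N : ℝ) / ρ))))))) +
        ENNReal.ofReal ((7 / 8) ^ m) ≤ ENNReal.ofReal (δ / 2) + ENNReal.ofReal (δ / 2) := by
        gcongr
    _ = ENNReal.ofReal δ := by
        rw [← ENNReal.ofReal_add (by positivity) (by positivity)]
        congr 1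
        ring

end H941.thin
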