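import Pool.Agent.H941.D.thin
import Pool.Agent.H941.C.full_large

/-! Transfer of crossing bounds to an arbitrary realisation of the field. -/

open MeasureTheory ProbabilityTheory

namespace H941.thin_dgff

theorem transfer (N M' M : ℕ) (lam len δ : ℝ) (hδ : 0 < δ)
    (h : gf (box N) (box N \ innerBdry N) {x | ¬ ∃ (u v : ℤ × ℤ) (p : grid.Walk u v),
        u ∈ innerBdry M' ∧ v ∈ innerBdry M ∧ (∀ z ∈ p.support, z ∈ box N ∧ extf (box N) x z ≤ lam) ∧
          (p.support.length : ℝ) ≤ len} ≤ ENNReal.ofReal δ)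
    (Ω : Type*) [MeasurableSpace Ω] (P : Measure Ω) (η : ℤ × ℤ → Ω → ℝ) (hη : IsDGFF N η P) :
    ENNReal.ofReal (1 - δ) ≤ P {ω | ∃ (u v : ℤ × ℤ) (p : grid.Walk u v),
        u ∈ innerBdry M' ∧ v ∈ innerBdry M ∧
        (∀ w ∈ p.support, w ∈ box N ∧ η w ω ≤ lam) ∧ (p.support.length : ℝ) ≤ len} := by
  classical
  by_cases hδ1 : δ ≤ 1
  swap
  · rw [ENNReal.ofReal_of_nonpos (by linarith)]
    exact zero_le
  have hP : IsProbabilityMeasure P := hη.gaussian.isProbabilityMeasure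
  -- the law
  have hlaw := law_of_cov P (fun v : ↥(box N) => η v) hη.gaussian
    (fun i => hη.mean_zero i i.2)
    (Matrix.of fun i j : ↥(box N) => (1 / 4) * green (box N \ innerBdry N) i j)
    (full_large.fl_psd N) (fun i j => hη.cov i i.2 j j.2)
  obtain ⟨hX, hmap⟩ := hlaw
  set Γ : Matrix ↥(box N) ↥(box N) ℝ :=
    Matrix.of fun i j : ↥(box N) => (1 / 4) * green (box N \ innerBdry N) i j with hΓ
  let G : Finset (ℤ × ℤ) → Prop := fun T => ∃ (u v : ℤ × ℤ) (p : grid.Walk u v),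
    u ∈ innerBdry M' ∧ v ∈ innerBdry M ∧ (∀ w ∈ p.support, w ∈ T) ∧
      (p.support.length : ℝ) ≤ len
  let EV : Set (EuclideanSpace ℝ ↥(box N)) :=
    ⋃ T ∈ (box N).powerset.filter G, {x | ∀ w : ↥(box N), (w : ℤ × ℤ) ∈ T → x w ≤ lam}
  have hEV : MeasurableSet EV := by
    refine Finset.measurableSet_biUnion _ fun T _ => ?_
    have : {x : EuclideanSpace ℝ ↥(box N) | ∀ w : ↥(box N), (w : ℤ × ℤ) ∈ T → x w ≤ lam} =
        ⋂ w : ↥(box N), {x | (w : ℤ × ℤ) ∈ T → x w ≤ lam} := by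
      ext x
      simp
    rw [this]
    refine MeasurableSet.iInter fun w => ?_
    by_cases hw : (w : ℤ × ℤ) ∈ T
    · simp only [hw, true_imp_iff]
      exact measurableSet_le (by fun_prop) measurable_const
    · simp only [hw, false_imp_iff]
      exact MeasurableSet.univ
  have hmemEV : ∀ (x : EuclideanSpace ℝ ↥(box N)), x ∈ EV ↔
      ∃ T, T ⊆ box N ∧ G T ∧ ∀ w : ↥(box N), (w : ℤ × ℤ) ∈ T → x w ≤ lam := by
    intro x
    simp only [EV, Set.mem_iUnion, Finset.mem_filter, Finset.mem_powerset, exists_prop,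
      Set.mem_ofPred_eq, and_assoc]
  have hA : (1 : ENNReal) ≤ multivariateGaussian 0 Γ EV + ENNReal.ofReal δ := by
    have h2 : (1 : ENNReal) = multivariateGaussian (0 : EuclideanSpace ℝ ↥(box N)) Γ Set.univ :=
      measure_univ.symm
    rw [h2]
    refine le_trans ?_ (add_le_add_right h _)
    refine le_trans (measure_mono ?_) (measure_union_le _ _)
    intro x _
    by_cases hx : ∃ (u v : ℤ × ℤ) (p : grid.Walk u v), u ∈ innerBdry M' ∧ v ∈ innerBdry M ∧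
        (∀ z ∈ p.support, z ∈ box N ∧ extf (box N) x z ≤ lam) ∧
        (p.support.length : ℝ) ≤ len
    · left
      obtain ⟨u, v, p, hu, hv, hp, hlen⟩ := hx
      rw [hmemEV]
      refine ⟨p.support.toFinset, ?_, ⟨u, v, p, hu, hv, ?_, hlen⟩, ?_⟩
      · intro w hw
        rw [List.mem_toFinset] at hw
        exact (hp w hw).1
      · intro w hw
        rw [List.mem_toFinset]
        exact hw
      · intro w hw
        rw [List.mem_toFinset] at hw
        have h3 := (hp w hw).2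
        unfold extf at h3
        rw [dif_pos w.2] at h3
        exact h3
    · right
      exact hx
  have hμB : P ((fun ω => (WithLp.toLp 2 (fun i : ↥(box N) => η i ω) :
      EuclideanSpace ℝ ↥(box N))) ⁻¹' EV) = multivariateGaussian 0 Γ EV := by
    rw [← hmap, Measure.map_apply_of_aemeasurable hX hEV]
  have h1δ : ENNReal.ofReal (1 - δ) ≤ multivariateGaussian 0 Γ EV := by
    have h3 : (1 : ENNReal) = ENNReal.ofReal (1 - δ) + ENNReal.ofReal δ := by
      rw [← ENNReal.ofReal_add (by linarith) hδ.le]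
      norm_num
    rw [h3] at hA
    exact (ENNReal.add_le_add_iff_right ENNReal.ofReal_ne_top).1 hA
  refine h1δ.trans (hμB.symm.le.trans (measure_mono ?_))
  intro ω hω
  have hω' := (hmemEV _).1 hω
  obtain ⟨T, hT, ⟨u, v, p, hu, hv, hp, hlen⟩, hTle⟩ := hω'
  refine ⟨u, v, p, hu, hv, fun w hw => ?_, hlen⟩
  have hwN : w ∈ box N := hT (hp w hw)
  exact ⟨hwN, hTle ⟨w, hwN⟩ (hp w hw)⟩

theorem _root_.H941.thin_dgff (α : ℝ) (hα : 0 < α) (hα1 : α < 1) (lam δ : ℝ) (hδ : 0 < δ) :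
    ∃ (β0 C : ℝ) (N0 : ℕ), α < β0 ∧ β0 < 1 ∧ 0 < C ∧ ∀ β : ℝ, α < β → β ≤ β0 → ∀ N : ℕ, N0 ≤ N →
      ∀ (Ω : Type*) [MeasurableSpace Ω] (P : Measure Ω) (η : ℤ × ℤ → Ω → ℝ), IsDGFF N η P →
      ENNReal.ofReal (1 - δ) ≤ P {ω | ∃ (u v : ℤ × ℤ) (p : grid.Walk u v),
          u ∈ innerBdry ⌊α * (N : ℝ)⌋₊ ∧ v ∈ innerBdry ⌊β * (N : ℝ)⌋₊ ∧
          (∀ w ∈ p.support, w ∈ box N ∧ η w ω ≤ lam) ∧ (p.support.length : ℝ) ≤ C * N} := by
  obtain ⟨β0, C, N0, h1, h2, h3, h4⟩ := H941.thin α hα hα1 lam δ hδ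
  refine ⟨β0, C, N0, h1, h2, h3, fun β hβ1 hβ2 N hN Ω _ P η hη => ?_⟩
  exact transfer N _ _ lam (C * N) δ hδ (h4 β hβ1 hβ2 N hN) Ω P η hη

end H941.thin_dgff
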