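import Pool.Agent.H941.D.arm_ball
import Pool.Agent.H941.A3
import Pool.Agent.H941.B.coarse_var
import Pool.Agent.H941.B.subwalk
import Pool.Agent.H941.C.arm_abs
import Pool.Agent.H941.C.arm_fixed
import Pool.Agent.H941.C.markov_split
import Pool.Agent.H941.C.osc_var
import Pool.Agent.H941.C.sup_harm
import Pool.Agent.H941.C.var_lower

/-! Parts of the proof that thin annuli are crossed at linear cost with high probability. -/

open MeasureTheory ProbabilityTheory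

namespace H941.thin_parts

theorem meas_arm (S : Finset (ℤ × ℤ)) (o : Bool) (t : ℤ × ℤ) (w d : ℕ) (lam len : ℝ) :
    MeasurableSet {x : EuclideanSpace ℝ (S : Finset (ℤ × ℤ)) | armOK o t w d lam len (extf S x)} :=
  arm_abs.ArmAbsAux.meas_arm S o t w d lam len

theorem psd_green (S V : Finset (ℤ × ℤ)) (hVS : V ⊆ S) :
    (Matrix.of (fun x y : (S : Finset (ℤ × ℤ)) => (1 / 4) * green V x y)).PosSemidef :=
  arm_fixed.psd_green S V hVS

theorem psd_diff (S V D : Finset (ℤ × ℤ)) (hVS : V ⊆ S) (hDV : D ⊆ V) :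
    (Matrix.of (fun x y : (S : Finset (ℤ × ℤ)) => (1 / 4) * (green V x y - green D x y))).PosSemidef :=
  arm_fixed.psd_diff S V D hVS hDV

/-! ### gauss_low -/

lemma gl_half (v : NNReal) : gaussianReal 0 v (Set.Ioi 0) ≤ ENNReal.ofReal (1 / 2) := by
  have hmap : (gaussianReal 0 v).map (fun x => -x) = gaussianReal 0 v := by
    rw [gaussianReal_map_neg, neg_zero]
  have h1 : gaussianReal 0 v (Set.Iio 0) = gaussianReal 0 v (Set.Ioi 0) := by
    conv_lhs => rw [← hmap]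
    rw [Measure.map_apply measurable_neg measurableSet_Iio]
    congr 1
    ext x
    simp
  have h2 : gaussianReal 0 v (Set.Iio 0) + gaussianReal 0 v (Set.Ioi 0) ≤ 1 := by
    rw [← measure_union]
    · exact prob_le_one
    · rw [Set.disjoint_left]
      intro x hx hx'
      exact lt_asymm (Set.mem_Iio.1 hx) (Set.mem_Ioi.1 hx')
    · exact measurableSet_Ioi
  rw [h1] at h2
  have hne : gaussianReal 0 v (Set.Ioi 0) ≠ ⊤ := measure_ne_top _ _
  rw [ENNReal.le_ofReal_iff_toReal_le hne (by norm_num)]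
  have h3 := ENNReal.toReal_mono ENNReal.one_ne_top h2
  rw [ENNReal.toReal_add hne hne, ENNReal.toReal_one] at h3
  linarith

lemma gl_small (v : NNReal) (hv : 0 < v) (t : ℝ) (ht : 0 ≤ t) (h : 16 * t ^ 2 ≤ v) :
    gaussianReal 0 v (Set.Ioc (-t) 0) ≤ ENNReal.ofReal (1 / 8) := by
  rw [gaussianReal_apply 0 hv.ne']
  have hb : ∀ x : ℝ, gaussianPDF 0 v x ≤ ENNReal.ofReal ((√(2 * Real.pi * v))⁻¹) := by
    intro x
    unfold gaussianPDF
    apply ENNReal.ofReal_le_ofReal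
    rw [gaussianPDFReal_def]
    have h1 : Real.exp (-(x - 0) ^ 2 / (2 * v)) ≤ 1 := by
      apply Real.exp_le_one_iff.2
      apply div_nonpos_of_nonpos_of_nonneg
      · have := sq_nonneg (x - 0)
        linarith
      · positivity
    have h2 : 0 ≤ (√(2 * Real.pi * v))⁻¹ := by positivity
    calc (√(2 * Real.pi * v))⁻¹ * Real.exp (-(x - 0) ^ 2 / (2 * v))
        ≤ (√(2 * Real.pi * v))⁻¹ * 1 := mul_le_mul_of_nonneg_left h1 h2
      _ = _ := mul_one _
  calc ∫⁻ x in Set.Ioc (-t) 0, gaussianPDF 0 v x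
      ≤ ∫⁻ x in Set.Ioc (-t) 0, ENNReal.ofReal ((√(2 * Real.pi * v))⁻¹) :=
        lintegral_mono hb
    _ = ENNReal.ofReal ((√(2 * Real.pi * v))⁻¹) * ENNReal.ofReal t := by
        rw [setLIntegral_const, Real.volume_Ioc]
        simp
    _ = ENNReal.ofReal ((√(2 * Real.pi * v))⁻¹ * t) := by
        rw [ENNReal.ofReal_mul (by positivity)]
    _ ≤ ENNReal.ofReal (1 / 8) := by
        apply ENNReal.ofReal_le_ofReal
        have hv' : (0:ℝ) < v := hv
        have h3 : 8 * t ≤ √(2 * Real.pi * v) := by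
          apply Real.le_sqrt_of_sq_le
          have h4 := Real.pi_gt_three
          nlinarith
        have h5 : 0 < √(2 * Real.pi * v) := by positivity
        rw [inv_mul_le_iff₀ h5]
        linarith

theorem gauss_low {ι : Type} [Fintype ι] [DecidableEq ι] (Γ : Matrix ι ι ℝ) (hΓ : Γ.PosSemidef)
    (i : ι) (t : ℝ) (ht : 0 ≤ t) (h : 16 * t ^ 2 ≤ Γ i i) (h0 : 0 < Γ i i) :
    multivariateGaussian (0 : EuclideanSpace ℝ ι) Γ {x | -t < x i} ≤ ENNReal.ofReal (5 / 8) := by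
  have hmp := measurePreserving_eval_multivariateGaussian (μ := (0 : EuclideanSpace ℝ ι)) hΓ (i := i)
  have h1 : multivariateGaussian (0 : EuclideanSpace ℝ ι) Γ {x | -t < x i} =
      gaussianReal ((0 : EuclideanSpace ℝ ι) i) (Γ i i).toNNReal (Set.Ioi (-t)) := by
    rw [← hmp.measure_preimage measurableSet_Ioi.nullMeasurableSet]
    rfl
  rw [h1]
  have hz : (0 : EuclideanSpace ℝ ι) i = 0 := rfl
  rw [hz]
  have hcoe : (((Γ i i).toNNReal : NNReal) : ℝ) = Γ i i := Real.coe_toNNReal _ h0.le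
  have hpos : 0 < (Γ i i).toNNReal := Real.toNNReal_pos.2 h0
  have hsub : Set.Ioi (-t) ⊆ Set.Ioc (-t) 0 ∪ Set.Ioi 0 := by
    intro x hx
    rcases le_or_gt x 0 with h2 | h2
    · exact Or.inl ⟨hx, h2⟩
    · exact Or.inr h2
  calc gaussianReal 0 (Γ i i).toNNReal (Set.Ioi (-t))
      ≤ gaussianReal 0 (Γ i i).toNNReal (Set.Ioc (-t) 0 ∪ Set.Ioi 0) := measure_mono hsub
    _ ≤ gaussianReal 0 (Γ i i).toNNReal (Set.Ioc (-t) 0) +
        gaussianReal 0 (Γ i i).toNNReal (Set.Ioi 0) := measure_union_le _ _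
    _ ≤ ENNReal.ofReal (1 / 8) + ENNReal.ofReal (1 / 2) :=
        add_le_add (gl_small _ hpos t ht (by rw [hcoe]; exact h)) (gl_half _)
    _ = ENNReal.ofReal (5 / 8) := by
        rw [← ENNReal.ofReal_add (by norm_num) (by norm_num)]
        norm_num

/-! ### law_sum -/

/-- PROOF of law_sumA: compare characteristic functions. -/
theorem law_sumA {ι : Type} [Fintype ι] [DecidableEq ι] (m : ℕ) (Γ : Fin m → Matrix ι ι ℝ)
    (hΓ : ∀ k, (Γ k).PosSemidef) (A : Matrix ι ι ℝ) (hA : A.PosSemidef) :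
    ((multivariateGaussian (0 : EuclideanSpace ℝ ι) A).prod
        (Measure.pi fun k => multivariateGaussian (0 : EuclideanSpace ℝ ι) (Γ k))).map
      (fun p => p.1 + ∑ k, p.2 k) = multivariateGaussian (0 : EuclideanSpace ℝ ι) (A + ∑ k, Γ k) := by
  have hS : (∑ k, Γ k).PosSemidef := Matrix.posSemidef_sum Finset.univ (fun k _ => hΓ k)
  have hAS : (A + ∑ k, Γ k).PosSemidef := hA.add hS
  have hm2 : Measurable (fun q : Fin m → EuclideanSpace ℝ ι => ∑ k, q k) := by fun_prop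
  -- the law of the sum factors through the pair `(p.1, ∑ p.2)`
  have h1 : ((multivariateGaussian (0 : EuclideanSpace ℝ ι) A).prod
        (Measure.pi fun k => multivariateGaussian (0 : EuclideanSpace ℝ ι) (Γ k))).map
      (fun p => p.1 + ∑ k, p.2 k) =
      ((multivariateGaussian (0 : EuclideanSpace ℝ ι) A).prod
        ((Measure.pi fun k => multivariateGaussian (0 : EuclideanSpace ℝ ι) (Γ k)).map
          (fun q => ∑ k, q k))).map (fun p => p.1 + p.2) := by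
    have h2 : (multivariateGaussian (0 : EuclideanSpace ℝ ι) A).prod
        ((Measure.pi fun k => multivariateGaussian (0 : EuclideanSpace ℝ ι) (Γ k)).map
          (fun q => ∑ k, q k)) =
        ((multivariateGaussian (0 : EuclideanSpace ℝ ι) A).prod
          (Measure.pi fun k => multivariateGaussian (0 : EuclideanSpace ℝ ι) (Γ k))).map
          (Prod.map id (fun q => ∑ k, q k)) := by
      rw [← Measure.map_prod_map _ _ measurable_id hm2, Measure.map_id]
    rw [h2, Measure.map_map (by fun_prop) (measurable_id.prodMap hm2)]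
    rfl
  rw [h1]
  have : IsProbabilityMeasure
      ((Measure.pi fun k => multivariateGaussian (0 : EuclideanSpace ℝ ι) (Γ k)).map
          (fun q => ∑ k, q k)) := Measure.isProbabilityMeasure_map hm2.aemeasurable
  have : IsProbabilityMeasure (((multivariateGaussian (0 : EuclideanSpace ℝ ι) A).prod
        ((Measure.pi fun k => multivariateGaussian (0 : EuclideanSpace ℝ ι) (Γ k)).map
          (fun q => ∑ k, q k))).map (fun p => p.1 + p.2)) :=
    Measure.isProbabilityMeasure_map (by fun_prop)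
  apply Measure.ext_of_charFun
  rw [charFun_map_add_prod_eq_mul, charFun_map_sum_pi_eq_prod]
  ext t
  rw [Pi.mul_apply, Finset.prod_apply, charFun_multivariateGaussian hA,
    charFun_multivariateGaussian hAS]
  simp_rw [charFun_multivariateGaussian (hΓ _)]
  rw [← Complex.exp_sum, ← Complex.exp_add]
  congr 1
  simp only [inner_zero_right, Complex.ofReal_zero, zero_mul, zero_sub]
  rw [Finset.sum_neg_distrib, ← Finset.sum_div, Matrix.add_mulVec, dotProduct_add,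
    Matrix.sum_mulVec, dotProduct_sum]
  push_cast
  ring

/-- a coordinate of variance zero vanishes almost surely -/
theorem mg_zero {ι : Type} [Fintype ι] [DecidableEq ι] (Γ : Matrix ι ι ℝ) (hΓ : Γ.PosSemidef) (i : ι) (h : Γ i i = 0) :
    ∀ᵐ x ∂(multivariateGaussian (0 : EuclideanSpace ℝ ι) Γ), x i = 0 := by
  have hmp := measurePreserving_eval_multivariateGaussian
    (μ := (0 : EuclideanSpace ℝ ι)) hΓ (i := i)
  have h0 : (gaussianReal ((0 : EuclideanSpace ℝ ι) i) (Γ i i).toNNReal) = Measure.dirac 0 := by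
    rw [h]; simp
  rw [h0] at hmp
  have h3 : ∀ᵐ y ∂((multivariateGaussian (0 : EuclideanSpace ℝ ι) Γ).map (fun x => x i)),
      y = 0 := by
    rw [hmp.map_eq]
    have h4 : ∀ᵐ y ∂(Measure.dirac (0 : ℝ)), y = 0 := by
      rw [ae_dirac_eq]
      exact Filter.eventually_pure.mpr rfl
    exact h4
  exact ae_of_ae_map hmp.measurable.aemeasurable h3

/-! ### green_union -/

/- PROOF: both sides, as functions of x for fixed y, vanish off U and satisfy F x = (if x = y then 1 else 0) + (1/4) sum over nbrs of F for x in U. For the right side: if x is in ball (xc k) rho, k < m, then x and all its neighbours are not in ball (xc j) rho for j != k (rows separated by 2 rho + 2), so only the k-th term is nonzero at x and at its neighbours (green_basic item 2), and green_basic item 5 applies. Uniqueness: apply green_basic item 6 to D = U, f = 0 and g = difference (both signs): difference <= 0. (m = 0: U is empty, both sides 0.) -/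
theorem green_union (m : ℕ) (xc : ℕ → ℤ × ℤ) (ρ : ℕ)
    (hsep : ∀ i < m, ∀ j < m, i ≠ j → 2 * (ρ : ℤ) + 2 ≤ |(xc i).2 - (xc j).2|) (U : Finset (ℤ × ℤ))
    (hU : ∀ z, z ∈ U ↔ ∃ k < m, z ∈ ball (xc k) ρ) (x y : ℤ × ℤ) :
    green U x y = ∑ k ∈ Finset.range m, green (ball (xc k) ρ) x y := by
  classical
  have hzero : ∀ (D : Finset (ℤ × ℤ)) (u v : ℤ × ℤ), u ∉ D → green D u v = 0 :=
    fun D u v h => (green_basic D).2.1 u v (Or.inl h)
  have hrec := fun D : Finset (ℤ × ℤ) => (green_basic D).2.2.2.2.1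
  have hmax := (green_basic U).2.2.2.2.2
  have hsingle : ∀ k < m, ∀ x ∈ ball (xc k) ρ, ∀ z : ℤ × ℤ, |z.2 - x.2| ≤ 1 →
      ∑ j ∈ Finset.range m, green (ball (xc j) ρ) z y = green (ball (xc k) ρ) z y := by
    intro k hk x hx z hzx
    refine Finset.sum_eq_single_of_mem k (Finset.mem_range.2 hk)
      fun j hj hjk => hzero _ _ _ fun hcon => ?_
    have h1 := hsep k hk j (Finset.mem_range.1 hj) (Ne.symm hjk)
    simp only [ball, rect, Finset.mem_product, Finset.mem_Icc] at hx hcon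
    rw [abs_le] at hzx
    rcases le_abs.1 h1 with h2 | h2 <;> omega
  have hn : ∀ x z : ℤ × ℤ, z ∈ nbrs x → |z.2 - x.2| ≤ 1 := by
    intro x z hz
    simp only [nbrs, Finset.mem_insert, Finset.mem_singleton] at hz
    rcases hz with rfl | rfl | rfl | rfl <;> simp
  have hG : ∀ x ∈ U, ∑ k ∈ Finset.range m, green (ball (xc k) ρ) x y =
      (if x = y then 1 else 0) +
        (1 / 4) * ∑ z ∈ nbrs x, ∑ k ∈ Finset.range m, green (ball (xc k) ρ) z y := by
    intro x hx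
    obtain ⟨k, hk, hxk⟩ := (hU x).1 hx
    rw [hsingle k hk x hxk x (by simp), hrec _ x hxk y,
      Finset.sum_congr rfl (fun z hz => hsingle k hk x hxk z (hn x z hz))]
  have hG0 : ∀ x, x ∉ U → ∑ k ∈ Finset.range m, green (ball (xc k) ρ) x y = 0 := by
    intro x hx
    refine Finset.sum_eq_zero fun k hk => hzero _ _ _ fun hcon => hx ((hU x).2 ?_)
    exact ⟨k, Finset.mem_range.1 hk, hcon⟩
  by_cases hx : x ∈ U
  · refine le_antisymm ?_ ?_
    · have h := hmax (fun _ => 0) (fun x => green U x y -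
        ∑ k ∈ Finset.range m, green (ball (xc k) ρ) x y)
        (fun z hz => by
          show green U z y - ∑ k ∈ Finset.range m, green (ball (xc k) ρ) z y = 0
          rw [hzero U z y hz, hG0 z hz, sub_zero])
        (fun z hz => by
          show green U z y - ∑ k ∈ Finset.range m, green (ball (xc k) ρ) z y ≤
            0 + (1 / 4) * ∑ w ∈ nbrs z,
              (green U w y - ∑ k ∈ Finset.range m, green (ball (xc k) ρ) w y)
          rw [Finset.sum_sub_distrib, hrec U z hz y, hG z hz]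
          exact le_of_eq (by ring)) x hx
      simp only [mul_zero, Finset.sum_const_zero] at h
      linarith
    · have h := hmax (fun _ => 0) (fun x =>
        ∑ k ∈ Finset.range m, green (ball (xc k) ρ) x y - green U x y)
        (fun z hz => by
          show ∑ k ∈ Finset.range m, green (ball (xc k) ρ) z y - green U z y = 0
          rw [hzero U z y hz, hG0 z hz, sub_zero])
        (fun z hz => by
          show ∑ k ∈ Finset.range m, green (ball (xc k) ρ) z y - green U z y ≤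
            0 + (1 / 4) * ∑ w ∈ nbrs z,
              (∑ k ∈ Finset.range m, green (ball (xc k) ρ) w y - green U w y)
          rw [Finset.sum_sub_distrib, hrec U z hz y, hG z hz]
          exact le_of_eq (by ring)) x hx
      simp only [mul_zero, Finset.sum_const_zero] at h
      linarith
  · rw [hzero U x y hx, hG0 x hx]

/-! ### harm_low -/

/- PROOF: let k(x,y) = (1/4)(green (ball x0 rho) x y - green (ball x0 (8w)) x y). It is symmetric, 0 for x not in S, harmonic at every z in ball x0 (6w) (green_basic item 5 for both balls; the indicator terms cancel), its matrix is PSD (given psd_diff). By osc_var (rho' = 8w, 3*(8w)/4 = 6w) k z z - 2 k z x0 + k x0 x0 <= C1/4 =: v on ball x0 (6w). sup_harm with z0 = x0, r = 3w, a = Pi.single x0 1 gives P(exists z in ball x0 (3w), T2 < |h z - h x0|) <= C exp(-T2^2/(C v)) <= 1/8 for a suitable constant T2 >= 0. With t1 = max (t+T2) 0: { exists z : -t < h z } is contained in the union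 of that event and {-t1 < h x0}, whose probability is <= 5/8 by gauss_low, because by var_lower k x0 x0 >= (1/4)(2 log rho - log(1+2(8w+1)^2))/8 >= (1/32)(2 log kappa - log 163) (using rho >= kappa w, 1+2(8w+1)^2 <= 163 w^2 for w >= 1) >= max(16 t1^2, 1) if kappa is large. 1/8 + 5/8 = 3/4. -/
theorem harm_low : ∀ t : ℝ, ∃ κ : ℕ, 8 ≤ κ ∧ ∀ (S : Finset (ℤ × ℤ)) (x0 : ℤ × ℤ) (w ρ : ℕ), 1 ≤ w → κ * w ≤ ρ →
    ball x0 ρ ⊆ S →
    multivariateGaussian (0 : EuclideanSpace ℝ (S : Finset (ℤ × ℤ)))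
      (Matrix.of fun x y : (S : Finset (ℤ × ℤ)) => (1 / 4) * (green (ball x0 ρ) x y - green (ball x0 ((8 * w : ℕ) : ℤ)) x y))
      {x | ∃ z ∈ ball x0 ((3 * w : ℕ) : ℤ), -t < extf S x z} ≤ ENNReal.ofReal (3 / 4) := by
  intro t
  obtain ⟨C, hC, hsup⟩ := sup_harm
  obtain ⟨C1, hC1, hosc⟩ := osc_var
  have hv : (0 : ℝ) < C1 / 4 := by positivity
  have hCv : (0 : ℝ) < C * (C1 / 4) := by positivity
  obtain ⟨T2, hT2⟩ : ∃ T2 : ℝ, T2 = Real.sqrt (C * (C1 / 4) * |Real.log (8 * C)|) := ⟨_, rfl⟩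
  have hT20 : 0 ≤ T2 := by rw [hT2]; exact Real.sqrt_nonneg _
  have hexp : C * Real.exp (-(T2 ^ 2 / (C * (C1 / 4)))) ≤ 1 / 8 := by
    have h1 : T2 ^ 2 = C * (C1 / 4) * |Real.log (8 * C)| := by
      rw [hT2, Real.sq_sqrt (by positivity)]
    rw [h1, mul_div_cancel_left₀ _ hCv.ne']
    have h2 : Real.exp (-|Real.log (8 * C)|) ≤ Real.exp (-Real.log (8 * C)) :=
      Real.exp_le_exp.2 (neg_le_neg (le_abs_self _))
    have h3 : Real.exp (-Real.log (8 * C)) = (8 * C)⁻¹ := by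
      rw [Real.exp_neg, Real.exp_log (by positivity)]
    rw [h3] at h2
    calc C * Real.exp (-|Real.log (8 * C)|) ≤ C * (8 * C)⁻¹ :=
          mul_le_mul_of_nonneg_left h2 hC.le
      _ = 1 / 8 := by field_simp
  obtain ⟨t1, ht1⟩ : ∃ t1 : ℝ, t1 = max (t + T2) 0 := ⟨_, rfl⟩
  have ht10 : 0 ≤ t1 := by rw [ht1]; exact le_max_right _ _
  have ht1t : t + T2 ≤ t1 := by rw [ht1]; exact le_max_left _ _
  obtain ⟨L, hL⟩ : ∃ L : ℝ, L = (32 * (16 * t1 ^ 2 + 1) + Real.log 163) / 2 := ⟨_, rfl⟩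
  refine ⟨max 8 ⌈Real.exp L⌉₊, le_max_left _ _, ?_⟩
  intro S x0 w ρ hw hρ hS
  have hκ8 : 8 ≤ max 8 ⌈Real.exp L⌉₊ := le_max_left _ _
  have hκL : Real.exp L ≤ ((max 8 ⌈Real.exp L⌉₊ : ℕ) : ℝ) :=
    (Nat.le_ceil _).trans (by exact_mod_cast le_max_right _ _)
  generalize max 8 ⌈Real.exp L⌉₊ = κ at hρ hκ8 hκL
  have hρ8 : 8 * w ≤ ρ := (Nat.mul_le_mul_right w hκ8).trans hρ
  have hκ0 : (0 : ℝ) < κ := lt_of_lt_of_le (Real.exp_pos L) hκL
  have hw0 : (1 : ℝ) ≤ w := by exact_mod_cast hw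
  have hlogκ : L ≤ Real.log κ := by
    rw [Real.le_log_iff_exp_le hκ0]
    exact hκL
  -- the balls
  have hmem : ∀ (r : ℤ) (z : ℤ × ℤ), z ∈ ball x0 r ↔
      (x0.1 - r ≤ z.1 ∧ z.1 ≤ x0.1 + r) ∧ (x0.2 - r ≤ z.2 ∧ z.2 ≤ x0.2 + r) := by
    intro r z
    simp only [ball, rect, Finset.mem_product, Finset.mem_Icc]
  have hmono : ∀ r r' : ℤ, r ≤ r' → ball x0 r ⊆ ball x0 r' := by
    intro r r' hr z hz
    rw [hmem] at hz ⊢
    omega
  have h8ρ : ((8 * w : ℕ) : ℤ) ≤ (ρ : ℤ) := by exact_mod_cast hρ8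
  have hDV : ball x0 ((8 * w : ℕ) : ℤ) ⊆ ball x0 ρ := hmono _ _ h8ρ
  have hx0V : x0 ∈ ball x0 (ρ : ℤ) := by
    rw [hmem]
    have : (0 : ℤ) ≤ ρ := Int.natCast_nonneg ρ
    omega
  have hx0S : x0 ∈ S := hS hx0V
  obtain ⟨k, hk⟩ : ∃ k : ℤ × ℤ → ℤ × ℤ → ℝ, k = fun x y =>
    (1 / 4) * (green (ball x0 ρ) x y - green (ball x0 ((8 * w : ℕ) : ℤ)) x y) := ⟨_, rfl⟩
  have hkM : (Matrix.of fun x y : (S : Finset (ℤ × ℤ)) => (1 / 4) * (green (ball x0 ρ) x y -
      green (ball x0 ((8 * w : ℕ) : ℤ)) x y)) =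
      Matrix.of fun x y : (S : Finset (ℤ × ℤ)) => k x y := by
    rw [hk]
  have hpsd : (Matrix.of fun x y : (S : Finset (ℤ × ℤ)) => k x y).PosSemidef := by
    rw [← hkM]
    exact psd_diff S (ball x0 ρ) (ball x0 ((8 * w : ℕ) : ℤ)) hS hDV
  rw [hkM]
  obtain ⟨-, hg0, hgs, -, hgr, -⟩ := green_basic (ball x0 ρ)
  obtain ⟨-, hd0, hds, -, hdr, -⟩ := green_basic (ball x0 ((8 * w : ℕ) : ℤ))
  have hk0 : ∀ z, z ∉ S → ∀ y, k z y = 0 := by
    intro z hz y
    have h1 : z ∉ ball x0 (ρ : ℤ) := fun h => hz (hS h)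
    have h2 : z ∉ ball x0 ((8 * w : ℕ) : ℤ) := fun h => h1 (hDV h)
    rw [hk]
    simp only [hg0 z y (Or.inl h1), hd0 z y (Or.inl h2), sub_self, mul_zero]
  have hks : ∀ x y, k x y = k y x := by
    intro x y
    rw [hk]
    simp only [hgs x y, hds x y]
  have hkh : ∀ z ∈ ball x0 (2 * ((3 * w : ℕ) : ℤ)), ∀ y,
      k z y = (1 / 4) * ∑ z' ∈ nbrs z, k z' y := by
    intro z hz y
    have h2 : z ∈ ball x0 ((8 * w : ℕ) : ℤ) := hmono _ _ (by push_cast; omega) hz
    have h1 : z ∈ ball x0 (ρ : ℤ) := hDV h2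
    rw [hk]
    simp only
    rw [hgr z h1 y, hdr z h2 y, ← Finset.mul_sum, Finset.sum_sub_distrib]
    ring
  have hkv : ∀ z ∈ ball x0 (2 * ((3 * w : ℕ) : ℤ)), k z z - 2 * k z x0 + k x0 x0 ≤ C1 / 4 := by
    intro z hz
    have h1 : z ∈ ball x0 ((3 * (8 * w) / 4 : ℕ) : ℤ) := by
      have e : 3 * (8 * w) / 4 = 2 * (3 * w) := by omega
      rw [e]
      push_cast at hz ⊢
      exact hz
    have h2 := hosc x0 z ρ (8 * w) (by omega) hρ8 h1
    rw [hk]
    simp only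
    linarith
  -- the coefficient vector
  obtain ⟨a, ha⟩ : ∃ a : ↥S → ℝ, a = Pi.single ⟨x0, hx0S⟩ 1 := ⟨_, rfl⟩
  have hsum : ∀ f : ↥S → ℝ, ∑ y, a y * f y = f ⟨x0, hx0S⟩ := by
    intro f
    rw [ha, Finset.sum_eq_single ⟨x0, hx0S⟩]
    · rw [Pi.single_eq_same, one_mul]
    · intro b _ hb
      rw [Pi.single_eq_of_ne hb, zero_mul]
    · intro h
      exact absurd (Finset.mem_univ _) h
  have hvar : ∀ z ∈ ball x0 (2 * ((3 * w : ℕ) : ℤ)),
      k z z - 2 * ∑ y : (S : Finset (ℤ × ℤ)), a y * k z y +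
        ∑ y : (S : Finset (ℤ × ℤ)), ∑ y' : (S : Finset (ℤ × ℤ)), a y * k y y' * a y' ≤ C1 / 4 := by
    intro z hz
    have h1 : ∑ y : (S : Finset (ℤ × ℤ)), a y * k z y = k z x0 := hsum fun y => k z y
    have h2 : ∑ y : (S : Finset (ℤ × ℤ)), ∑ y' : (S : Finset (ℤ × ℤ)), a y * k y y' * a y' =
        k x0 x0 := by
      have h3 : ∀ y : (S : Finset (ℤ × ℤ)), ∑ y' : (S : Finset (ℤ × ℤ)), a y * k y y' * a y' =
          a y * k y x0 := by
        intro y
        have h4 := hsum fun y' => a y * k y y'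
        simp only at h4
        rw [← h4]
        refine Finset.sum_congr rfl fun y' _ => ?_
        ring
      rw [Finset.sum_congr rfl fun y _ => h3 y]
      exact hsum fun y => k y x0
    rw [h1, h2]
    exact hkv z hz
  have hA := hsup S k hpsd hk0 hks x0 (3 * w) (by omega) hkh a (C1 / 4) T2 hv hT20 hvar
  -- the variance at the centre
  have hvl := var_lower x0 ρ (8 * w) (by omega) hρ8
  have hkx : 16 * t1 ^ 2 + 1 ≤ k x0 x0 := by
    have h1 : (1 : ℝ) + 2 * (((8 * w : ℕ) : ℝ) + 1) ^ 2 ≤ 163 * (w : ℝ) ^ 2 := by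
      push_cast
      nlinarith
    have h2 : Real.log (1 + 2 * (((8 * w : ℕ) : ℝ) + 1) ^ 2) ≤
        Real.log 163 + 2 * Real.log w := by
      refine (Real.log_le_log (by positivity) h1).trans ?_
      rw [Real.log_mul (by norm_num) (by positivity), Real.log_pow]
      push_cast
      exact le_refl _
    have h3 : Real.log κ + Real.log w ≤ Real.log ρ := by
      rw [← Real.log_mul hκ0.ne' (by positivity)]
      refine Real.log_le_log (by positivity) ?_
      exact_mod_cast hρ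
    have h4 : k x0 x0 = (1 / 4) * (green (ball x0 ρ) x0 x0 -
        green (ball x0 ((8 * w : ℕ) : ℤ)) x0 x0) := by rw [hk]
    rw [h4]
    have h5 : L = (32 * (16 * t1 ^ 2 + 1) + Real.log 163) / 2 := hL
    linarith
  have hB := gauss_low (Matrix.of fun x y : (S : Finset (ℤ × ℤ)) => k x y) hpsd ⟨x0, hx0S⟩ t1 ht10
    (by
      rw [Matrix.of_apply]
      linarith)
    (by
      rw [Matrix.of_apply]
      have : 0 ≤ 16 * t1 ^ 2 := by positivity
      linarith)
  have hsub : {x : EuclideanSpace ℝ (S : Finset (ℤ × ℤ)) |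
      ∃ z ∈ ball x0 ((3 * w : ℕ) : ℤ), -t < extf S x z} ⊆
      {x | ∃ z ∈ ball x0 ((3 * w : ℕ) : ℤ), T2 < |extf S x z - ∑ y, a y * x y|} ∪
        {x | -t1 < x ⟨x0, hx0S⟩} := by
    rintro x ⟨z, hz, hzt⟩
    by_cases h1 : T2 < |extf S x z - ∑ y, a y * x y|
    · left
      exact ⟨z, hz, h1⟩
    · right
      rw [hsum fun y => x y, not_lt] at h1
      have h2 := (abs_le.1 h1).2
      change -t1 < x ⟨x0, hx0S⟩
      linarith
  calc multivariateGaussian (0 : EuclideanSpace ℝ (S : Finset (ℤ × ℤ)))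
        (Matrix.of fun x y : (S : Finset (ℤ × ℤ)) => k x y)
        {x | ∃ z ∈ ball x0 ((3 * w : ℕ) : ℤ), -t < extf S x z}
      ≤ _ := measure_mono hsub
    _ ≤ _ := measure_union_le _ _
    _ ≤ ENNReal.ofReal (1 / 8) + ENNReal.ofReal (5 / 8) :=
        add_le_add (hA.trans (ENNReal.ofReal_le_ofReal hexp)) hB
    _ = ENNReal.ofReal (3 / 4) := by
        rw [← ENNReal.ofReal_add (by norm_num) (by norm_num)]
        norm_num

/-! ### arm_half -/

theorem J9810_extf_add (S : Finset (ℤ × ℤ)) (h y : EuclideanSpace ℝ (S : Finset (ℤ × ℤ)))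
    (z : ℤ × ℤ) : extf S (h + y) z = extf S h z + extf S y z := by
  unfold extf
  split_ifs with hz
  · rfl
  · simp

theorem J9810_mem_ball (o : Bool) (t z : ℤ × ℤ) (w d : ℕ)
    (hz : z ∈ rect w (5 * w) d (w - d)) : place o t z ∈ ball (xa o t w) ((3 * w : ℕ) : ℤ) := by
  unfold rect at hz
  rw [Finset.mem_product, Finset.mem_Icc, Finset.mem_Icc] at hz
  obtain ⟨⟨h1, h2⟩, h3, h4⟩ := hz
  unfold ball rect
  rw [Finset.mem_product, Finset.mem_Icc, Finset.mem_Icc]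
  have h5 : (0 : ℤ) ≤ (w : ℤ) := Int.natCast_nonneg _
  have h6 : (0 : ℤ) ≤ (d : ℤ) := Int.natCast_nonneg _
  have h7 : (((w / 2 : ℕ) : ℤ)) ≤ w := by
    exact_mod_cast Nat.div_le_self w 2
  have h8 : (0 : ℤ) ≤ ((w / 2 : ℕ) : ℤ) := Int.natCast_nonneg _
  unfold xa place
  cases o
  · simp only [Bool.false_eq_true, if_false]
    push_cast at *
    refine ⟨⟨?_, ?_⟩, ?_, ?_⟩ <;> omega
  · simp only [if_true]
    push_cast at *
    refine ⟨⟨?_, ?_⟩, ?_, ?_⟩ <;> omega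

theorem J9810_mono (x0 : ℤ × ℤ) (r s : ℤ) (h : r ≤ s) : ball x0 r ⊆ ball x0 s := by
  intro z hz
  unfold ball rect at hz ⊢
  rw [Finset.mem_product, Finset.mem_Icc, Finset.mem_Icc] at hz ⊢
  obtain ⟨⟨h1, h2⟩, h3, h4⟩ := hz
  refine ⟨⟨?_, ?_⟩, ?_, ?_⟩ <;> omega

theorem arm_half (lam1 lam : ℝ) : ∃ κ : ℕ, 8 ≤ κ ∧ ∀ (S : Finset (ℤ × ℤ)) (w d ρ : ℕ) (len : ℝ) (o : Bool) (t : ℤ × ℤ),
    8 ≤ w → 1 ≤ d → 2 * d ≤ w → κ * w ≤ ρ → ball (xa o t w) ρ ⊆ S →
    gf S (ball (xa o t w) ((8 * w : ℕ) : ℤ)) {x | ¬ armOK o t w d lam1 len (extf S x)} ≤ ENNReal.ofReal (1 / 8) →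
    gf S (ball (xa o t w) ρ) {x | ¬ armOK o t w d lam len (extf S x)} ≤ ENNReal.ofReal (7 / 8) := by
  obtain ⟨κ, hκ, hlow⟩ := harm_low (lam1 - lam)
  refine ⟨κ, hκ, ?_⟩
  intro S w d ρ len o t hw hd hdw hρ hS hB
  have h8 : 8 * w ≤ ρ := le_trans (Nat.mul_le_mul_right w hκ) hρ
  have hsub : ball (xa o t w) ((8 * w : ℕ) : ℤ) ⊆ ball (xa o t w) ρ :=
    J9810_mono _ _ _ (by exact_mod_cast h8)
  obtain ⟨_, hmap, _⟩ := markov_split S (ball (xa o t w) ρ) (ball (xa o t w) ((8 * w : ℕ) : ℤ)) hsub hS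
  have hA := hlow S (xa o t w) w ρ (by omega) hρ hS
  have hmeas : MeasurableSet {x : EuclideanSpace ℝ (S : Finset (ℤ × ℤ)) |
      ¬ armOK o t w d lam len (extf S x)} := (meas_arm S o t w d lam len).compl
  have hadd : Measurable (fun p : EuclideanSpace ℝ (S : Finset (ℤ × ℤ)) ×
      EuclideanSpace ℝ (S : Finset (ℤ × ℤ)) => p.1 + p.2) := measurable_fst.add measurable_snd
  rw [← hmap, Measure.map_apply hadd hmeas]
  set μ := multivariateGaussian (0 : EuclideanSpace ℝ (S : Finset (ℤ × ℤ)))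
      (Matrix.of fun x y : (S : Finset (ℤ × ℤ)) => (1 / 4) * (green (ball (xa o t w) ρ) x y -
        green (ball (xa o t w) ((8 * w : ℕ) : ℤ)) x y)) with hμ
  set ν := gf S (ball (xa o t w) ((8 * w : ℕ) : ℤ)) with hν
  have hμp : IsProbabilityMeasure μ := by rw [hμ]; infer_instance
  have hνp : IsProbabilityMeasure ν := by rw [hν]; unfold gf; infer_instance
  have hcover : (fun p : EuclideanSpace ℝ (S : Finset (ℤ × ℤ)) × EuclideanSpace ℝ (S : Finset (ℤ × ℤ)) =>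
      p.1 + p.2) ⁻¹' {x | ¬ armOK o t w d lam len (extf S x)} ⊆
      ({x | ∃ z ∈ ball (xa o t w) ((3 * w : ℕ) : ℤ), -(lam1 - lam) < extf S x z} ×ˢ Set.univ) ∪
      (Set.univ ×ˢ {x | ¬ armOK o t w d lam1 len (extf S x)}) := by
    rintro ⟨h, y⟩ hp
    by_contra hcon
    rw [Set.mem_union, not_or, Set.mem_prod, Set.mem_prod] at hcon
    obtain ⟨hc1, hc2⟩ := hcon
    have hc1' : ¬ ∃ z ∈ ball (xa o t w) ((3 * w : ℕ) : ℤ), -(lam1 - lam) < extf S h z :=
      fun hh => hc1 ⟨hh, Set.mem_univ _⟩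
    have hc2' : armOK o t w d lam1 len (extf S y) := by
      by_contra hh
      exact hc2 ⟨Set.mem_univ _, hh⟩
    apply hp
    obtain ⟨u, v, p, hu, hv, hz, hl⟩ := hc2'
    refine ⟨u, v, p, hu, hv, fun z hzp => ⟨(hz z hzp).1, ?_⟩, hl⟩
    show extf S (h + y) (place o t z) ≤ lam
    rw [J9810_extf_add]
    have h1 := (hz z hzp).2
    have h2 : extf S h (place o t z) ≤ -(lam1 - lam) := by
      by_contra hh
      exact hc1' ⟨_, J9810_mem_ball o t z w d (hz z hzp).1, lt_of_not_ge hh⟩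
    linarith
  calc (μ.prod ν) _ ≤ (μ.prod ν) (({x | ∃ z ∈ ball (xa o t w) ((3 * w : ℕ) : ℤ),
          -(lam1 - lam) < extf S x z} ×ˢ Set.univ) ∪
          (Set.univ ×ˢ {x | ¬ armOK o t w d lam1 len (extf S x)})) := measure_mono hcover
    _ ≤ (μ.prod ν) ({x | ∃ z ∈ ball (xa o t w) ((3 * w : ℕ) : ℤ),
          -(lam1 - lam) < extf S x z} ×ˢ Set.univ) +
        (μ.prod ν) (Set.univ ×ˢ {x | ¬ armOK o t w d lam1 len (extf S x)}) := measure_union_le _ _
    _ = μ {x | ∃ z ∈ ball (xa o t w) ((3 * w : ℕ) : ℤ), -(lam1 - lam) < extf S x z} +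
        ν {x | ¬ armOK o t w d lam1 len (extf S x)} := by
        rw [Measure.prod_prod, Measure.prod_prod, measure_univ, measure_univ, mul_one, one_mul]
    _ ≤ ENNReal.ofReal (3 / 4) + ENNReal.ofReal (1 / 8) := add_le_add hA hB
    _ = ENNReal.ofReal (7 / 8) := by
        rw [← ENNReal.ofReal_add (by norm_num) (by norm_num)]
        norm_num

/-! ### macro_sup -/

theorem macro_sup_mem_ball (c z : ℤ × ℤ) (r : ℤ) :
    z ∈ ball c r ↔ (c.1 - r ≤ z.1 ∧ z.1 ≤ c.1 + r) ∧ (c.2 - r ≤ z.2 ∧ z.2 ≤ c.2 + r) := by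
  unfold ball rect
  rw [Finset.mem_product, Finset.mem_Icc, Finset.mem_Icc]

theorem macro_sup_nbrs (z z' : ℤ × ℤ) (h : z' ∈ nbrs z) :
    (z.1 - 1 ≤ z'.1 ∧ z'.1 ≤ z.1 + 1) ∧ (z.2 - 1 ≤ z'.2 ∧ z'.2 ≤ z.2 + 1) := by
  unfold nbrs at h
  simp only [Finset.mem_insert, Finset.mem_singleton] at h
  rcases h with rfl | rfl | rfl | rfl <;> simp <;> omega

theorem macro_sup_num (N ρ : ℕ) (h16 : 16 ≤ ρ) (hN : ρ ≤ N) :
    (1 / 4) * ((Real.log (1 + 2 * (N : ℝ) ^ 2) - Real.log (1 + ((ρ / 2 : ℕ) : ℝ) ^ 2)) / Real.log 2) ≤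
      2 * (1 + Real.log ((N : ℝ) / ρ)) := by
  have hρ0 : (0 : ℝ) < ρ := by
    have : (16 : ℝ) ≤ ρ := by exact_mod_cast h16
    linarith
  have hρN : (ρ : ℝ) ≤ N := by exact_mod_cast hN
  have hN1 : (1 : ℝ) ≤ N := by
    have : (16 : ℝ) ≤ ρ := by exact_mod_cast h16
    linarith
  have hN0 : (0 : ℝ) < N := by linarith
  have hhalf : (ρ : ℝ) / 3 ≤ ((ρ / 2 : ℕ) : ℝ) := by
    have h3 : ρ ≤ 3 * (ρ / 2) := by omega
    have h4 : (ρ : ℝ) ≤ 3 * ((ρ / 2 : ℕ) : ℝ) := by exact_mod_cast h3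
    linarith
  have h1 : Real.log (1 + 2 * (N : ℝ) ^ 2) ≤ Real.log (3 * (N : ℝ) ^ 2) := by
    apply Real.log_le_log (by positivity)
    nlinarith
  have h2 : Real.log ((ρ : ℝ) ^ 2 / 9) ≤ Real.log (1 + ((ρ / 2 : ℕ) : ℝ) ^ 2) := by
    apply Real.log_le_log (by positivity)
    have h5 : ((ρ : ℝ) / 3) ^ 2 ≤ ((ρ / 2 : ℕ) : ℝ) ^ 2 := pow_le_pow_left₀ (by positivity) hhalf 2
    have h6 : ((ρ : ℝ) / 3) ^ 2 = (ρ : ℝ) ^ 2 / 9 := by ring
    linarith
  have h3 : Real.log (3 * (N : ℝ) ^ 2) - Real.log ((ρ : ℝ) ^ 2 / 9) =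
      Real.log 27 + 2 * Real.log ((N : ℝ) / ρ) := by
    rw [← Real.log_div (by positivity) (by positivity)]
    have e1 : 3 * (N : ℝ) ^ 2 / ((ρ : ℝ) ^ 2 / 9) = 27 * ((N : ℝ) / ρ) ^ 2 := by
      field_simp
      ring
    rw [e1, Real.log_mul (by norm_num) (by positivity), Real.log_pow]
    norm_num
  have h4 : Real.log 27 ≤ 4 := by
    have e1 : (27 : ℝ) = 3 ^ 3 := by norm_num
    have e2 : Real.log 3 ≤ 4 / 3 := by
      have : (3 : ℝ) ≤ Real.exp (4 / 3) := by
        have h7 : (3 : ℝ) ^ 3 ≤ (Real.exp (4 / 3)) ^ 3 := by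
          rw [← Real.exp_nat_mul]
          have e3 : ((3 : ℕ) : ℝ) * (4 / 3) = 4 := by norm_num
          rw [e3]
          have h8 := Real.exp_one_gt_d9
          have h9 : Real.exp 4 = (Real.exp 1) ^ 4 := by
            rw [← Real.exp_nat_mul]; norm_num
          rw [h9]
          have h10 : (2.7 : ℝ) ^ 4 ≤ (Real.exp 1) ^ 4 := pow_le_pow_left₀ (by norm_num) (by linarith) 4
          have h11 : (3 : ℝ) ^ 3 ≤ (2.7 : ℝ) ^ 4 := by norm_num
          linarith
        exact le_of_pow_le_pow_left₀ (by norm_num) (Real.exp_pos _).le h7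
      calc Real.log 3 ≤ Real.log (Real.exp (4 / 3)) := Real.log_le_log (by norm_num) this
        _ = 4 / 3 := Real.log_exp _
    rw [e1, Real.log_pow]
    push_cast
    linarith
  have h5 : 0 ≤ Real.log ((N : ℝ) / ρ) := Real.log_nonneg (by rw [le_div_iff₀ hρ0]; linarith)
  have h6 : Real.log (1 + 2 * (N : ℝ) ^ 2) - Real.log (1 + ((ρ / 2 : ℕ) : ℝ) ^ 2) ≤
      4 + 2 * Real.log ((N : ℝ) / ρ) := by linarith
  have hl2 : (1 / 2 : ℝ) ≤ Real.log 2 := by
    have := Real.log_two_gt_d9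
    linarith
  have hl2' : 0 < Real.log 2 := by linarith
  have h7 : (Real.log (1 + 2 * (N : ℝ) ^ 2) - Real.log (1 + ((ρ / 2 : ℕ) : ℝ) ^ 2)) / Real.log 2 ≤
      2 * (4 + 2 * Real.log ((N : ℝ) / ρ)) := by
    rw [div_le_iff₀ hl2']
    nlinarith
  linarith

theorem macro_sup : ∃ C : ℝ, 0 < C ∧ ∀ (S V : Finset (ℤ × ℤ)) (m : ℕ) (xc : ℕ → ℤ × ℤ) (ρ w N : ℕ), V ⊆ S →
    (∀ k < m, ball (xc k) ρ ⊆ V) →
    (∀ i < m, ∀ j < m, i ≠ j → 2 * (ρ : ℤ) + 2 ≤ |(xc i).2 - (xc j).2|) →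
    (∀ x ∈ V, ∀ y ∈ V, |x.1 - y.1| < (N : ℤ) ∧ |x.2 - y.2| < (N : ℤ)) →
    1 ≤ w → 16 * w ≤ ρ → ρ ≤ N →
    (Matrix.of fun x y : (S : Finset (ℤ × ℤ)) =>
      (1 / 4) * (green V x y - ∑ k ∈ Finset.range m, green (ball (xc k) ρ) x y)).PosSemidef →
    ∀ T : ℝ, 0 ≤ T →
    multivariateGaussian (0 : EuclideanSpace ℝ (S : Finset (ℤ × ℤ)))
      (Matrix.of fun x y : (S : Finset (ℤ × ℤ)) =>
        (1 / 4) * (green V x y - ∑ k ∈ Finset.range m, green (ball (xc k) ρ) x y))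
      {x | ∃ k < m, ∃ z ∈ ball (xc k) ((3 * w : ℕ) : ℤ), T < extf S x z} ≤
    ENNReal.ofReal (m * (C * Real.exp (-(T ^ 2 / (C * (1 + Real.log ((N : ℝ) / ρ))))))) := by
  obtain ⟨C, hC, hsup⟩ := sup_harm
  refine ⟨2 * C, by positivity, ?_⟩
  intro S V m xc ρ w N hVS hball hsep hV hw h16 hρN hpsd T hT
  have hρ16 : 16 ≤ ρ := by omega
  have hρ0 : (0 : ℝ) < ρ := by
    have : (16 : ℝ) ≤ ρ := by exact_mod_cast hρ16
    linarith
  have hL : 0 ≤ Real.log ((N : ℝ) / ρ) :=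
    Real.log_nonneg (by rw [le_div_iff₀ hρ0, one_mul]; exact_mod_cast hρN)
  -- the kernel
  obtain ⟨k, hk⟩ : ∃ k : ℤ × ℤ → ℤ × ℤ → ℝ, k = fun x y =>
      (1 / 4) * (green V x y - ∑ j ∈ Finset.range m, green (ball (xc j) ρ) x y) := ⟨_, rfl⟩
  have hmat : (Matrix.of fun x y : (S : Finset (ℤ × ℤ)) =>
      (1 / 4) * (green V x y - ∑ k ∈ Finset.range m, green (ball (xc k) ρ) x y)) =
      (Matrix.of fun x y : (S : Finset (ℤ × ℤ)) => k x y) := by rw [hk]
  rw [hmat] at hpsd ⊢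
  have hzero : ∀ z, z ∉ S → ∀ y, k z y = 0 := by
    intro z hz y
    have hzV : z ∉ V := fun h => hz (hVS h)
    rw [hk]
    simp only
    rw [(green_basic V).2.1 z y (Or.inl hzV), Finset.sum_eq_zero]
    · ring
    · intro j hj
      exact (green_basic _).2.1 z y (Or.inl fun h => hzV (hball j (Finset.mem_range.1 hj) h))
  have hsymm : ∀ x y, k x y = k y x := by
    intro x y
    rw [hk]
    simp only
    rw [(green_basic V).2.2.1 x y]
    congr 2
    exact Finset.sum_congr rfl fun j _ => (green_basic _).2.2.1 x y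
  -- near the k-th centre only one ball counts
  have hone : ∀ i < m, ∀ z : ℤ × ℤ, (xc i).2 - ρ ≤ z.2 → z.2 ≤ (xc i).2 + ρ → ∀ y,
      k z y = (1 / 4) * (green V z y - green (ball (xc i) ρ) z y) := by
    intro i hi z h1 h2 y
    rw [hk]
    simp only
    rw [Finset.sum_eq_single i]
    · intro j hj hji
      apply (green_basic _).2.1 z y
      left
      intro hmem
      rw [macro_sup_mem_ball] at hmem
      obtain ⟨-, h3, h4⟩ := hmem
      have h5 := hsep i hi j (Finset.mem_range.1 hj) (Ne.symm hji)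
      rcases abs_cases ((xc i).2 - (xc j).2) with h6 | h6
      · rw [h6.1] at h5
        omega
      · rw [h6.1] at h5
        omega
    · intro hn
      exact absurd (Finset.mem_range.2 hi) hn
  have hterm : ∀ i ∈ Finset.range m,
      multivariateGaussian (0 : EuclideanSpace ℝ (S : Finset (ℤ × ℤ)))
        (Matrix.of fun x y : (S : Finset (ℤ × ℤ)) => k x y)
        {x | ∃ z ∈ ball (xc i) ((3 * w : ℕ) : ℤ), T < extf S x z} ≤
      ENNReal.ofReal (2 * C * Real.exp (-(T ^ 2 / (2 * C * (1 + Real.log ((N : ℝ) / ρ)))))) := by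
    intro i hi
    have hi' : i < m := Finset.mem_range.1 hi
    have h := hsup S k hpsd hzero hsymm (xc i) (3 * w) (by omega) ?_ (fun _ => 0)
      (2 * (1 + Real.log ((N : ℝ) / ρ))) T (by linarith) hT ?_
    · refine le_trans (measure_mono ?_) (h.trans ?_)
      · rintro x ⟨z, hz, hzT⟩
        refine ⟨z, hz, ?_⟩
        simp only [zero_mul, Finset.sum_const_zero, sub_zero]
        exact lt_of_lt_of_le hzT (le_abs_self _)
      · apply ENNReal.ofReal_le_ofReal
        have e1 : C * (2 * (1 + Real.log ((N : ℝ) / ρ))) = 2 * C * (1 + Real.log ((N : ℝ) / ρ)) := by ring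
        rw [e1]
        have h1 := Real.exp_pos (-(T ^ 2 / (2 * C * (1 + Real.log ((N : ℝ) / ρ)))))
        nlinarith
    · -- harmonic
      intro z hz y
      rw [macro_sup_mem_ball] at hz
      push_cast at hz
      obtain ⟨⟨ha, hb⟩, hc, hd⟩ := hz
      have hzB : z ∈ ball (xc i) ρ := by
        rw [macro_sup_mem_ball]
        omega
      have hzV : z ∈ V := hball i hi' hzB
      rw [hone i hi' z (by omega) (by omega) y]
      have hs : ∑ z' ∈ nbrs z, k z' y =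
          ∑ z' ∈ nbrs z, (1 / 4) * (green V z' y - green (ball (xc i) ρ) z' y) := by
        refine Finset.sum_congr rfl fun z' hz' => ?_
        have h3 := macro_sup_nbrs z z' hz'
        exact hone i hi' z' (by omega) (by omega) y
      rw [hs, ← Finset.mul_sum, Finset.sum_sub_distrib, (green_basic V).2.2.2.2.1 z hzV y,
        (green_basic (ball (xc i) ρ)).2.2.2.2.1 z hzB y]
      ring
    · -- variance
      intro z hz
      rw [macro_sup_mem_ball] at hz
      push_cast at hz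
      obtain ⟨⟨ha, hb⟩, hc, hd⟩ := hz
      simp only [zero_mul, Finset.sum_const_zero, mul_zero, sub_zero, add_zero]
      rw [hone i hi' z (by omega) (by omega) z]
      have h3 := coarse_var V (ball (xc i) ρ) (hball i hi') N (by omega) hV z (ρ / 2) (by
        intro z' h1 h2
        rw [abs_le] at h1 h2
        rw [macro_sup_mem_ball]
        omega)
      have h4 := macro_sup_num N ρ hρ16 hρN
      refine le_trans ?_ h4
      linarith
  have hsub : {x : EuclideanSpace ℝ (S : Finset (ℤ × ℤ)) | ∃ k < m, ∃ z ∈ ball (xc k) ((3 * w : ℕ) : ℤ),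
      T < extf S x z} ⊆ ⋃ i ∈ Finset.range m,
      {x : EuclideanSpace ℝ (S : Finset (ℤ × ℤ)) | ∃ z ∈ ball (xc i) ((3 * w : ℕ) : ℤ), T < extf S x z} := by
    rintro x ⟨i, hi, z, hz, hT⟩
    exact Set.mem_biUnion (Finset.mem_coe.2 (Finset.mem_range.2 hi)) ⟨z, hz, hT⟩
  refine (measure_mono hsub).trans ((measure_biUnion_finset_le _ _).trans ?_)
  refine (Finset.sum_le_sum hterm).trans ?_
  rw [Finset.sum_const, Finset.card_range, nsmul_eq_mul, ENNReal.ofReal_mul (p := (m : ℝ)) (Nat.cast_nonneg m),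
    ENNReal.ofReal_natCast]

/-! ### arm_cross -/

/- PROOF: armOK gives a walk p in local coordinates from a (a.1 = w) to b (b.1 = 5w) in rect w (5w) d (w-d), with f (place true t z) <= lam, place true t z = (t.1 + z.1, t.2 + z.2), t = (M'/2 - w, y0). Translate the walk by t (SimpleGraph.Walk.map with the graph homomorphism z -> t + z). It starts at column M'/2, rows y0+d..y0+w-d, so in box M' (by h1, h2), ends at column M'/2 + 4w > M/2, so not in box M, and all its points have columns in [M'/2, M'/2+4w] and rows in [y0, y0+w], so they are in box N (h4; (M'-1)/2 <= (N-1)/2 <= N/2). Apply subwalk with M1 = M', M2 = M. -/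
theorem arm_cross (N M' M w d : ℕ) (y0 : ℤ) (lam len : ℝ) (f : ℤ × ℤ → ℝ) (hM' : 1 ≤ M') (hMM : M' ≤ M) (hMN : M ≤ N)
    (h1 : 0 ≤ y0) (h2 : y0 + w ≤ ((M' - 1) / 2 : ℕ)) (h3 : ((M / 2 : ℕ) : ℤ) < ((M' / 2 : ℕ) : ℤ) + 4 * w)
    (h4 : ((M' / 2 : ℕ) : ℤ) + 4 * w ≤ ((N / 2 : ℕ) : ℤ))
    (h : armOK true (((M' / 2 : ℕ) : ℤ) - w, y0) w d lam len f) :
    ∃ (u v : ℤ × ℤ) (p : grid.Walk u v), u ∈ innerBdry M' ∧ v ∈ innerBdry M ∧
      (∀ z ∈ p.support, z ∈ box N ∧ f z ≤ lam) ∧ (p.support.length : ℝ) ≤ len := by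
  obtain ⟨a, b, p, ha, hb, hp, hlen⟩ := h
  let φ : grid →g grid :=
    { toFun := place true (((M' / 2 : ℕ) : ℤ) - w, y0)
      map_rel' := by
        intro x y hxy
        have hxy' : |x.1 - y.1| + |x.2 - y.2| = 1 := hxy
        show |((((M' / 2 : ℕ) : ℤ) - w) + x.1) - ((((M' / 2 : ℕ) : ℤ) - w) + y.1)| +
          |(y0 + x.2) - (y0 + y.2)| = 1
        rw [add_sub_add_left_eq_sub, add_sub_add_left_eq_sub]
        exact hxy' }
  have hφ1 : ∀ z, (φ z).1 = (((M' / 2 : ℕ) : ℤ) - w) + z.1 := fun z => rfl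
  have hφ2 : ∀ z, (φ z).2 = y0 + z.2 := fun z => rfl
  have hφf : ∀ z, φ z = place true (((M' / 2 : ℕ) : ℤ) - w, y0) z := fun z => rfl
  have hrect : ∀ z ∈ p.support, (w : ℤ) ≤ z.1 ∧ z.1 ≤ 5 * w ∧ (d : ℤ) ≤ z.2 ∧ z.2 ≤ w - d := by
    intro z hz
    have h5 := (hp z hz).1
    simp only [rect, Finset.mem_product, Finset.mem_Icc] at h5
    exact ⟨h5.1.1, h5.1.2, h5.2.1, h5.2.2⟩
  have hmembox : ∀ (K : ℕ) (z : ℤ × ℤ), z ∈ box K ↔
      ((-(((K - 1) / 2 : ℕ) : ℤ)) ≤ z.1 ∧ z.1 ≤ ((K / 2 : ℕ) : ℤ)) ∧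
      ((-(((K - 1) / 2 : ℕ) : ℤ)) ≤ z.2 ∧ z.2 ≤ ((K / 2 : ℕ) : ℤ)) := by
    intro K z
    simp only [box, Finset.mem_product, Finset.mem_Icc]
  have hsa := hrect a p.start_mem_support
  have hsb := hrect b p.end_mem_support
  have hA : φ a ∈ box M' := by
    rw [hmembox, hφ1, hφ2, ha]
    obtain ⟨q1, q2, q3, q4⟩ := hsa
    refine ⟨⟨?_, ?_⟩, ?_, ?_⟩ <;> omega
  have hB : φ b ∉ box M := by
    rw [hmembox, hφ1, hφ2, hb]
    intro hcon
    have := hcon.1.2
    omega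
  obtain ⟨u, v, q, hu, hv, hq, hql⟩ := subwalk M' M hM' hMM (p.map φ) hA hB
  refine ⟨u, v, q, hu, hv, ?_, ?_⟩
  · intro z hz
    have hz' := hq z hz
    rw [SimpleGraph.Walk.support_map, List.mem_map] at hz'
    obtain ⟨z0, hz0, rfl⟩ := hz'
    obtain ⟨q1, q2, q3, q4⟩ := hrect z0 hz0
    refine ⟨?_, ?_⟩
    · rw [hmembox, hφ1, hφ2]
      refine ⟨⟨?_, ?_⟩, ?_, ?_⟩ <;> omega
    · rw [hφf]
      exact (hp z0 hz0).2
  · have hl : (p.map φ).support.length = p.support.length := by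
      rw [SimpleGraph.Walk.support_map, List.length_map]
    rw [hl] at hql
    exact le_trans (by exact_mod_cast hql) hlen

/-! ### thin_combine -/

lemma mem_ball_iff (x : ℤ × ℤ) (r : ℤ) (z : ℤ × ℤ) :
    z ∈ ball x r ↔ (x.1 - r ≤ z.1 ∧ z.1 ≤ x.1 + r) ∧ (x.2 - r ≤ z.2 ∧ z.2 ≤ x.2 + r) := by
  simp only [ball, rect, Finset.mem_product, Finset.mem_Icc]

lemma arm_point_mem (t z : ℤ × ℤ) (w d : ℕ) (hz : z ∈ rect w (5 * w) d (w - d)) :
    place true t z ∈ ball (xa true t w) ((3 * w : ℕ) : ℤ) := by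
  rw [mem_ball_iff]
  simp only [rect, Finset.mem_product, Finset.mem_Icc] at hz
  obtain ⟨⟨h1, h2⟩, h3, h4⟩ := hz
  simp only [place, xa, if_true]
  push_cast
  refine ⟨⟨by linarith, by linarith⟩, ?_, ?_⟩ <;> omega

lemma ball_mono (x : ℤ × ℤ) {r s : ℤ} (h : r ≤ s) : ball x r ⊆ ball x s := by
  intro z hz
  rw [mem_ball_iff] at hz ⊢
  obtain ⟨⟨h1, h2⟩, h3, h4⟩ := hz
  exact ⟨⟨by linarith, by linarith⟩, by linarith, by linarith⟩

lemma ball_disj (x y : ℤ × ℤ) (r : ℕ) (h : 2 * (r : ℤ) + 2 ≤ |x.2 - y.2|) (z : ℤ × ℤ)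
    (hx : z ∈ ball x r) : z ∉ ball y r := by
  intro hy
  rw [mem_ball_iff] at hx hy
  obtain ⟨-, h3, h4⟩ := hx
  obtain ⟨-, h5, h6⟩ := hy
  have : |x.2 - y.2| ≤ 2 * (r : ℤ) := by
    rw [abs_le]
    constructor <;> linarith
  linarith

theorem thin_combine (S V : Finset (ℤ × ℤ)) (hVS : V ⊆ S) (m : ℕ) (t : ℕ → ℤ × ℤ) (w d ρ : ℕ) (lam T len q : ℝ) (B : ENNReal)
    (hV : ∀ k < m, ball (xa true (t k) w) ρ ⊆ V)
    (hsep : ∀ i < m, ∀ j < m, i ≠ j → 2 * (ρ : ℤ) + 2 ≤ |(xa true (t i) w).2 - (xa true (t j) w).2|)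
    (hw : 8 ≤ w) (hwρ : 16 * w ≤ ρ) (hq : 0 ≤ q)
    (hloc : ∀ k < m, gf S (ball (xa true (t k) w) ρ) {x | ¬ armOK true (t k) w d (lam - T) len (extf S x)} ≤ ENNReal.ofReal q)
    (hmac : (Matrix.of fun x y : (S : Finset (ℤ × ℤ)) =>
        (1 / 4) * (green V x y - ∑ k ∈ Finset.range m, green (ball (xa true (t k) w) ρ) x y)).PosSemidef →
      multivariateGaussian (0 : EuclideanSpace ℝ (S : Finset (ℤ × ℤ)))
        (Matrix.of fun x y : (S : Finset (ℤ × ℤ)) =>
          (1 / 4) * (green V x y - ∑ k ∈ Finset.range m, green (ball (xa true (t k) w) ρ) x y))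
        {x | ∃ k < m, ∃ z ∈ ball (xa true (t k) w) ((3 * w : ℕ) : ℤ), T < extf S x z} ≤ B) :
    gf S V {x | ∀ k < m, ¬ armOK true (t k) w d lam len (extf S x)} ≤ B + ENNReal.ofReal (q ^ m) := by
  classical
  set D : Fin m → Finset (ℤ × ℤ) := fun k => ball (xa true (t k) w) ρ with hD
  have hDV : ∀ k : Fin m, D k ⊆ V := fun k => hV k k.2
  have hDS : ∀ k : Fin m, D k ⊆ S := fun k => (hDV k).trans hVS
  set Γ : Fin m → Matrix (S : Finset (ℤ × ℤ)) (S : Finset (ℤ × ℤ)) ℝ := fun k =>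
    Matrix.of (fun x y : (S : Finset (ℤ × ℤ)) => (1 / 4) * green (D k) x y) with hΓ
  set A : Matrix (S : Finset (ℤ × ℤ)) (S : Finset (ℤ × ℤ)) ℝ := Matrix.of fun x y : (S : Finset (ℤ × ℤ)) =>
        (1 / 4) * (green V x y - ∑ k ∈ Finset.range m, green (ball (xa true (t k) w) ρ) x y) with hA
  have hΓpsd : ∀ k, (Γ k).PosSemidef := fun k => psd_green S (D k) (hDS k)
  -- the union
  set U : Finset (ℤ × ℤ) := (Finset.range m).biUnion fun k => ball (xa true (t k) w) ρ with hU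
  have hUmem : ∀ z, z ∈ U ↔ ∃ k < m, z ∈ ball (xa true (t k) w) ρ := by
    intro z
    simp only [hU, Finset.mem_biUnion, Finset.mem_range]
  have hUV : U ⊆ V := by
    intro z hz
    obtain ⟨k, hk, hz⟩ := (hUmem z).1 hz
    exact hV k hk hz
  have hgU := green_union m (fun k => xa true (t k) w) ρ hsep U hUmem
  have hApsd : A.PosSemidef := by
    have h1 := (markov_split S V U hUV hVS).1
    have h2 : A = Matrix.of fun x y : (S : Finset (ℤ × ℤ)) => (1 / 4) * (green V x y - green U x y) := by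
      ext x y
      simp only [hA, Matrix.of_apply]
      rw [hgU]
    rw [h2]
    exact h1
  have hlaw := law_sumA m Γ hΓpsd A hApsd
  have hsum : A + ∑ k, Γ k = Matrix.of (fun x y : (S : Finset (ℤ × ℤ)) => (1 / 4) * green V x y) := by
    ext x y
    rw [Matrix.add_apply, Matrix.sum_apply]
    simp only [hA, hΓ, hD, Matrix.of_apply]
    rw [← Finset.mul_sum, Finset.sum_range]
    ring
  have hgf : gf S V = ((multivariateGaussian (0 : EuclideanSpace ℝ (S : Finset (ℤ × ℤ))) A).prod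
        (Measure.pi fun k => multivariateGaussian (0 : EuclideanSpace ℝ (S : Finset (ℤ × ℤ))) (Γ k))).map
      (fun p => p.1 + ∑ k, p.2 k) := by
    rw [hlaw, hsum]
    rfl
  set μ := (multivariateGaussian (0 : EuclideanSpace ℝ (S : Finset (ℤ × ℤ))) A).prod
        (Measure.pi fun k => multivariateGaussian (0 : EuclideanSpace ℝ (S : Finset (ℤ × ℤ))) (Γ k)) with hμ
  have hmeas : Measurable (fun p : EuclideanSpace ℝ (S : Finset (ℤ × ℤ)) ×
      (Fin m → EuclideanSpace ℝ (S : Finset (ℤ × ℤ))) => p.1 + ∑ k, p.2 k) := by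
    fun_prop
  have hE : MeasurableSet {x : EuclideanSpace ℝ (S : Finset (ℤ × ℤ)) |
      ∀ k < m, ¬ armOK true (t k) w d lam len (extf S x)} := by
    have : {x : EuclideanSpace ℝ (S : Finset (ℤ × ℤ)) |
      ∀ k < m, ¬ armOK true (t k) w d lam len (extf S x)} =
        ⋂ k : Fin m, {x | armOK true (t k) w d lam len (extf S x)}ᶜ := by
      ext x
      simp only [Set.mem_ofPred_eq, Set.mem_iInter, Set.mem_compl_iff]
      exact ⟨fun h k => h k k.2, fun h k hk => h ⟨k, hk⟩⟩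
    rw [this]
    exact MeasurableSet.iInter fun k => (meas_arm S true (t k) w d lam len).compl
  rw [hgf, Measure.map_apply hmeas hE]
  -- almost surely the local fields vanish outside their balls
  have hae : ∀ᵐ p ∂μ, ∀ k : Fin m, ∀ i : (S : Finset (ℤ × ℤ)), (i : ℤ × ℤ) ∉ D k → p.2 k i = 0 := by
    rw [ae_all_iff]
    intro k
    rw [ae_all_iff]
    intro i
    by_cases hi : (i : ℤ × ℤ) ∈ D k
    · exact Filter.Eventually.of_forall fun p h => absurd hi h
    · have h0 : Γ k i i = 0 := by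
        simp only [hΓ, Matrix.of_apply]
        rw [(green_basic (D k)).2.1 i i (Or.inl hi), mul_zero]
      have h1 := mg_zero (Γ k) (hΓpsd k) i h0
      have h2 : ∀ᵐ y ∂(Measure.pi fun k => multivariateGaussian (0 : EuclideanSpace ℝ (S : Finset (ℤ × ℤ))) (Γ k)),
          y k i = 0 :=
        (measurePreserving_eval (fun k => multivariateGaussian (0 : EuclideanSpace ℝ (S : Finset (ℤ × ℤ))) (Γ k))
          k).quasiMeasurePreserving.ae h1
      have h3 : ∀ᵐ p ∂μ, p.2 k i = 0 := Measure.quasiMeasurePreserving_snd.ae h2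
      exact h3.mono fun p hp _ => hp
  set F1 : Set (EuclideanSpace ℝ (S : Finset (ℤ × ℤ))) :=
    {x | ∃ k < m, ∃ z ∈ ball (xa true (t k) w) ((3 * w : ℕ) : ℤ), T < extf S x z} with hF1
  set F2 : Set (Fin m → EuclideanSpace ℝ (S : Finset (ℤ × ℤ))) :=
    Set.pi Set.univ (fun k : Fin m => {x | ¬ armOK true (t k) w d (lam - T) len (extf S x)}) with hF2
  have hsub : (fun p : EuclideanSpace ℝ (S : Finset (ℤ × ℤ)) ×
      (Fin m → EuclideanSpace ℝ (S : Finset (ℤ × ℤ))) => p.1 + ∑ k, p.2 k) ⁻¹'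
        {x | ∀ k < m, ¬ armOK true (t k) w d lam len (extf S x)} ≤ᵐ[μ]
      ((F1 ×ˢ Set.univ) ∪ (Set.univ ×ˢ F2) : Set _) := by
    filter_upwards [hae] with p hp hpE
    by_cases h1 : p.1 ∈ F1
    · exact Or.inl ⟨h1, trivial⟩
    refine Or.inr ⟨trivial, ?_⟩
    intro k _ hk
    have hpE' : ∀ k < m, ¬ armOK true (t k) w d lam len (extf S (p.1 + ∑ k, p.2 k)) := hpE
    refine hpE' k k.2 ?_
    obtain ⟨u, v, q', hu, hv, hz, hlen⟩ := hk
    refine ⟨u, v, q', hu, hv, fun z hzs => ⟨(hz z hzs).1, ?_⟩, hlen⟩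
    have hz1 := (hz z hzs).1
    have hz2 := (hz z hzs).2
    have hb := arm_point_mem (t k) z w d hz1
    have hbD : place true (t k) z ∈ D k := by
      refine ball_mono _ ?_ hb
      have : 16 * w ≤ ρ := hwρ
      push_cast
      omega
    have hbS : place true (t k) z ∈ S := hDS k hbD
    have hT : extf S p.1 (place true (t k) z) ≤ T := by
      by_contra hcon
      exact h1 ⟨k, k.2, _, hb, not_le.1 hcon⟩
    have e1 : extf S p.1 (place true (t k) z) = p.1 ⟨_, hbS⟩ := dif_pos hbS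
    have e2 : extf S (p.2 k) (place true (t k) z) = p.2 k ⟨_, hbS⟩ := dif_pos hbS
    have e3 : extf S (p.1 + ∑ k, p.2 k) (place true (t k) z) = (p.1 + ∑ k, p.2 k) ⟨_, hbS⟩ := dif_pos hbS
    rw [e3]
    rw [e2] at hz2
    rw [e1] at hT
    have e4 : (p.1 + ∑ k, p.2 k) ⟨_, hbS⟩ = p.1 ⟨_, hbS⟩ + ∑ j, p.2 j ⟨_, hbS⟩ := by
      simp
    have e5 : ∑ j, p.2 j ⟨_, hbS⟩ = p.2 k ⟨_, hbS⟩ := by
      refine Finset.sum_eq_single k (fun j _ hjk => ?_) (fun h => absurd (Finset.mem_univ k) h)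
      refine hp j ⟨_, hbS⟩ ?_
      have hne : (k : ℕ) ≠ (j : ℕ) := fun h => hjk (Fin.ext h.symm)
      exact ball_disj _ _ ρ (hsep k k.2 j j.2 hne) _ hbD
    rw [e4, e5]
    linarith
  refine (measure_mono_ae hsub).trans ((measure_union_le _ _).trans ?_)
  refine add_le_add ?_ ?_
  · rw [hμ, Measure.prod_prod, measure_univ, mul_one]
    exact hmac hApsd
  · rw [hμ, Measure.prod_prod, measure_univ, one_mul, hF2, Measure.pi_pi, ENNReal.ofReal_pow hq]
    calc ∏ k : Fin m, multivariateGaussian (0 : EuclideanSpace ℝ (S : Finset (ℤ × ℤ))) (Γ k)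
          {x | ¬ armOK true (t k) w d (lam - T) len (extf S x)} ≤ ∏ _k : Fin m, ENNReal.ofReal q :=
          Finset.prod_le_prod' fun k _ => hloc k k.2
      _ = ENNReal.ofReal q ^ m := by simp

end H941.thin_parts
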